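import Mathlib

/-!
# Apolar algebras and smoothability: definitions
-/

open scoped TensorProduct
open MvPolynomial

namespace Pool.Agent.H750R2.Smo

/-- The contraction action of `g` on `F`: `x^α` sends `x^β` to `x^(β-α)` if `α ≤ β` and to `0`
otherwise. -/
noncomputable def contract {n : ℕ} (g F : MvPolynomial (Fin n) ℂ) : MvPolynomial (Fin n) ℂ :=
  ∑ α ∈ g.support, g.coeff α • F.divMonomial α

/-- The apolar ideal `Ann F` of `F`: the polynomials whose contraction with `F` is zero. -/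
noncomputable def annIdeal {n : ℕ} (F : MvPolynomial (Fin n) ℂ) : Ideal (MvPolynomial (Fin n) ℂ) :=
  Ideal.span {g | contract g F = 0}

/-- A finite `ℂ`-algebra `A` is smoothable: there is a finite flat (free) family `B` over a domain
`R`, whose fibre at some maximal ideal is `A` and whose generic fibre is étale. -/
def Smoothable (A : Type) [CommRing A] [Algebra ℂ A] : Prop :=
  ∃ (R : Type) (_ : CommRing R) (_ : IsDomain R) (_ : Algebra ℂ R) (m : Ideal R)
    (_ : m.IsMaximal) (B : Type) (_ : CommRing B) (_ : Algebra R B) (_ : Algebra ℂ B)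
    (_ : IsScalarTower ℂ R B) (_ : Module.Free R B) (_ : Module.Finite R B),
    Nonempty ((B ⧸ Ideal.map (algebraMap R B) m) ≃ₐ[ℂ] A) ∧
      Algebra.Etale (FractionRing R) (FractionRing R ⊗[R] B)

/-- The polynomial `F = X₀⁴ + X₀X₁X₄ + X₂X₄X₅ + X₁X₃X₅ + X₃²X₄ + X₂³`. -/
noncomputable def F : MvPolynomial (Fin 6) ℂ :=
  X 0 ^ 4 + X 0 * X 1 * X 4 + X 2 * X 4 * X 5 + X 1 * X 3 * X 5 + X 3 ^ 2 * X 4 + X 2 ^ 3

/-- Fifteen elements of `Ann F`. -/
noncomputable def g : Fin 15 → MvPolynomial (Fin 6) ℂ :=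
  ![X 0 * X 2, X 0 * X 3, X 0 * X 5, X 1 ^ 2, X 1 * X 2, X 2 * X 3, X 4 ^ 2, X 5 ^ 2,
    X 0 * X 1 - X 3 ^ 2, X 0 * X 4 - X 3 * X 5, X 1 * X 3 - X 2 * X 4, X 1 * X 5 - X 3 * X 4,
    X 2 ^ 2 - X 4 * X 5, X 2 * X 5 - X 3 ^ 2, X 1 * X 4 - X 0 ^ 3]

/-- The ideal generated by these fifteen elements. -/
noncomputable def J : Ideal (MvPolynomial (Fin 6) ℂ) := Ideal.span (Set.range g)

end Pool.Agent.H750R2.Smo
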