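import Pool.Agent.H750R2.Smo.Defs

/-!
# Local Gorenstein algebras: definitions
-/

open MvPolynomial

namespace Pool.Agent.H750R2.Smo

/-- The socle of a `ℂ`-algebra: the elements killed by all non-units.  (For a local algebra this is
the annihilator of the maximal ideal.) -/
def socle (A : Type) [CommRing A] [Algebra ℂ A] : Submodule ℂ A where
  carrier := {a | ∀ x : A, ¬ IsUnit x → x * a = 0}
  add_mem' := fun ha hb x hx => by rw [mul_add, ha x hx, hb x hx, add_zero]
  zero_mem' := fun x _ => mul_zero x
  smul_mem' := fun c a ha x hx => by rw [mul_smul_comm, ha x hx, smul_zero]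

/-- A finite-dimensional local Gorenstein `ℂ`-algebra: a finite-dimensional local algebra with
one-dimensional socle. -/
structure IsLocalGorenstein (A : Type) [CommRing A] [Algebra ℂ A] : Prop where
  finite : Module.Finite ℂ A
  isLocalRing : IsLocalRing A
  socle_eq_one : Module.finrank ℂ (socle A) = 1

end Pool.Agent.H750R2.Smo
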