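import Pool.Agent.H750R2.Smo.Defs

open scoped TensorProduct
open MvPolynomial Module

namespace Pool.Agent.H750R2.Smo.T2

theorem etale_bound {K : Type} [Field K] {n : ℕ} {E : Type} [CommRing E] [Algebra K E]
    [Module.Finite K E] [Algebra.Etale K E] (φ : MvPolynomial (Fin n) K →ₐ[K] E)
    (hφ : Function.Surjective φ)
    [Module.Finite K (MvPolynomial (Fin n) K ⧸ (RingHom.ker φ.toRingHom) ^ 2)] :
    (n + 1) * finrank K E ≤
      finrank K (MvPolynomial (Fin n) K ⧸ (RingHom.ker φ.toRingHom) ^ 2) := by
  rename_i hfin
  let _ : Algebra (MvPolynomial (Fin n) K) E := φ.toRingHom.toAlgebra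
  have hst : IsScalarTower K (MvPolynomial (Fin n) K) E :=
    IsScalarTower.of_algebraMap_eq (fun x => (φ.commutes x).symm)
  have hsurj : Function.Surjective (algebraMap (MvPolynomial (Fin n) K) E) := hφ
  have hI' : RingHom.ker φ.toRingHom = RingHom.ker (algebraMap (MvPolynomial (Fin n) K) E) := rfl
  rw [hI'] at hfin ⊢
  -- exactness
  have hex := KaehlerDifferential.exact_kerCotangentToTensor_mapBaseChange K
    (MvPolynomial (Fin n) K) E hsurj
  have hs : Function.Surjective
      (KaehlerDifferential.kerCotangentToTensor K (MvPolynomial (Fin n) K) E) := by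
    intro y
    exact (hex y).1 (Subsingleton.elim _ _)
  -- dimension of the target
  have hb := (KaehlerDifferential.mvPolynomialBasis K (Fin n)).baseChange E
  have hdim : finrank K (E ⊗[MvPolynomial (Fin n) K] Ω[MvPolynomial (Fin n) K⁄K]) =
      n * finrank K E := by
    have e := (hb.equivFun).restrictScalars K
    rw [e.finrank_eq, Module.finrank_pi_fintype, Finset.sum_const, Finset.card_univ,
      Fintype.card_fin, smul_eq_mul]
  have hfinT : Module.Finite K (E ⊗[MvPolynomial (Fin n) K] Ω[MvPolynomial (Fin n) K⁄K]) := by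
    have e := (hb.equivFun).restrictScalars K
    exact Module.Finite.equiv e.symm
  -- the cotangent space
  have hj : Function.Injective
      ((RingHom.ker (algebraMap (MvPolynomial (Fin n) K) E)).cotangentToQuotientSquare.restrictScalars
        K) := by
    intro x y hxy
    apply (RingHom.ker (algebraMap (MvPolynomial (Fin n) K) E)).cotangentEquivIdeal.injective
    apply Subtype.ext
    rw [Ideal.cotangentEquivIdeal_apply, Ideal.cotangentEquivIdeal_apply]
    exact hxy
  have hfC : Module.Finite K (RingHom.ker (algebraMap (MvPolynomial (Fin n) K) E)).Cotangent :=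
    Module.Finite.of_injective _ hj
  have h1 : n * finrank K E ≤
      finrank K (RingHom.ker (algebraMap (MvPolynomial (Fin n) K) E)).Cotangent := by
    rw [← hdim]
    exact LinearMap.finrank_le_finrank_of_surjective
      (f := (KaehlerDifferential.kerCotangentToTensor K (MvPolynomial (Fin n) K) E).restrictScalars K) hs
  -- the quotient map
  obtain ⟨ψ, hψ⟩ : ∃ ψ : (MvPolynomial (Fin n) K ⧸
      (RingHom.ker (algebraMap (MvPolynomial (Fin n) K) E)) ^ 2) →ₐ[K] E,
      ∀ a, ψ (Ideal.Quotient.mk _ a) = φ a :=
    ⟨Ideal.Quotient.liftₐ _ φ (fun a ha => by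
      have : a ∈ RingHom.ker (algebraMap (MvPolynomial (Fin n) K) E) :=
        Ideal.pow_le_self two_ne_zero ha
      exact this), fun a => rfl⟩
  have h2 := LinearMap.finrank_range_add_finrank_ker ψ.toLinearMap
  have h3 : LinearMap.range ψ.toLinearMap = ⊤ := by
    rw [LinearMap.range_eq_top]
    intro y
    obtain ⟨a, ha⟩ := hφ y
    exact ⟨Ideal.Quotient.mk _ a, by rw [← ha]; exact hψ a⟩
  rw [h3, finrank_top] at h2
  have h4 : finrank K (RingHom.ker (algebraMap (MvPolynomial (Fin n) K) E)).Cotangent ≤
      finrank K (LinearMap.ker ψ.toLinearMap) := by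
    have hmem : ∀ x, ((RingHom.ker (algebraMap (MvPolynomial (Fin n) K)
        E)).cotangentToQuotientSquare.restrictScalars K) x ∈ LinearMap.ker ψ.toLinearMap := by
      intro x
      obtain ⟨y, rfl⟩ := Ideal.toCotangent_surjective _ x
      rw [LinearMap.mem_ker]
      have : ((RingHom.ker (algebraMap (MvPolynomial (Fin n) K)
        E)).cotangentToQuotientSquare.restrictScalars K) (Ideal.toCotangent _ y) =
        Ideal.Quotient.mk _ (y : MvPolynomial (Fin n) K) := rfl
      rw [this]
      exact (hψ _).trans y.2
    apply LinearMap.finrank_le_finrank_of_injective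
      (f := LinearMap.codRestrict (LinearMap.ker ψ.toLinearMap) _ hmem)
    intro x y hxy
    exact hj (congrArg Subtype.val hxy)
  have h5 : (n + 1) * finrank K E = n * finrank K E + finrank K E := by ring
  omega

end Pool.Agent.H750R2.Smo.T2
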