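import Pool.Agent.H750R2.Smo.Defs

open scoped TensorProduct
open MvPolynomial Module

namespace Pool.Agent.H750R2.Smo.T3

/-- The monomial with exponents `v`. -/
noncomputable def M (v : Fin 6 → ℕ) : MvPolynomial (Fin 6) ℂ :=
  monomial (Finsupp.equivFunOnFinite.symm v) 1

theorem M_mul (a b : Fin 6 → ℕ) : M a * M b = M (a + b) := by
  unfold M
  rw [monomial_mul, mul_one]
  have : Finsupp.equivFunOnFinite.symm a + Finsupp.equivFunOnFinite.symm b =
      Finsupp.equivFunOnFinite.symm (a + b) := by
    ext i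
    simp only [Finsupp.coe_equivFunOnFinite_symm, Finsupp.add_apply, Pi.add_apply]
  rw [this]

theorem contract_eq_sum (g F : MvPolynomial (Fin 6) ℂ) (s : Finset (Fin 6 →₀ ℕ))
    (hs : g.support ⊆ s) :
    contract g F = ∑ α ∈ s, g.coeff α • F.divMonomial α := by
  unfold contract
  apply Finset.sum_subset hs
  intro α _ hα
  rw [notMem_support_iff.mp hα, zero_smul]

theorem contract_add_left (g h F : MvPolynomial (Fin 6) ℂ) :
    contract (g + h) F = contract g F + contract h F := by
  classical
  rw [contract_eq_sum (g + h) F (g.support ∪ h.support) support_add,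
    contract_eq_sum g F (g.support ∪ h.support) Finset.subset_union_left,
    contract_eq_sum h F (g.support ∪ h.support) Finset.subset_union_right,
    ← Finset.sum_add_distrib]
  apply Finset.sum_congr rfl
  intro α _
  rw [coeff_add, add_smul]

theorem contract_neg_left (g F : MvPolynomial (Fin 6) ℂ) :
    contract (-g) F = -contract g F := by
  have h1 : contract (g + -g) F = contract g F + contract (-g) F := contract_add_left _ _ _
  have h0 : contract (0 : MvPolynomial (Fin 6) ℂ) F = 0 := by
    unfold contract; rw [support_zero, Finset.sum_empty]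
  rw [add_neg_cancel, h0] at h1
  exact (neg_eq_of_add_eq_zero_right h1.symm).symm

theorem contract_sub_left (g h F : MvPolynomial (Fin 6) ℂ) :
    contract (g - h) F = contract g F - contract h F := by
  rw [sub_eq_add_neg, contract_add_left, contract_neg_left, sub_eq_add_neg]

theorem contract_M (a : Fin 6 → ℕ) (F : MvPolynomial (Fin 6) ℂ) :
    contract (M a) F = F.divMonomial (Finsupp.equivFunOnFinite.symm a) := by
  classical
  unfold M
  rw [contract_eq_sum _ F {Finsupp.equivFunOnFinite.symm a} support_monomial_subset,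
    Finset.sum_singleton, coeff_monomial, if_pos rfl, one_smul]

theorem contract_M_add (a : Fin 6 → ℕ) (F G : MvPolynomial (Fin 6) ℂ) :
    contract (M a) (F + G) = contract (M a) F + contract (M a) G := by
  rw [contract_M, contract_M, contract_M]
  exact add_divMonomial _ _ _

theorem contract_M_M (a b : Fin 6 → ℕ) :
    contract (M a) (M b) = if ∀ i, a i ≤ b i then M (b - a) else 0 := by
  rw [contract_M]
  ext γ
  rw [coeff_divMonomial]
  unfold M
  split_ifs with h
  · rw [coeff_monomial, coeff_monomial]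
    have hiff : (Finsupp.equivFunOnFinite.symm b =
        Finsupp.equivFunOnFinite.symm a + γ) ↔
        (Finsupp.equivFunOnFinite.symm (b - a) = γ) := by
      constructor
      · intro h1
        ext i
        have := DFunLike.congr_fun h1 i
        simp only [Finsupp.coe_equivFunOnFinite_symm, Finsupp.add_apply] at this
        simp only [Finsupp.coe_equivFunOnFinite_symm, Pi.sub_apply]
        omega
      · intro h1
        ext i
        have := DFunLike.congr_fun h1 i
        have h2 := h i
        simp only [Finsupp.coe_equivFunOnFinite_symm, Pi.sub_apply] at this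
        simp only [Finsupp.coe_equivFunOnFinite_symm, Finsupp.add_apply]
        omega
    simp only [hiff]
  · rw [coeff_monomial, if_neg, coeff_zero]
    intro h1
    apply h
    intro i
    have := DFunLike.congr_fun h1 i
    simp only [Finsupp.coe_equivFunOnFinite_symm, Finsupp.add_apply] at this
    omega

theorem X_eq (i : Fin 6) : (X i : MvPolynomial (Fin 6) ℂ) = M (Pi.single i 1) := by
  unfold M
  rw [X]
  congr 1
  congr 1
  ext j
  simp only [Finsupp.coe_equivFunOnFinite_symm]
  by_cases h : j = i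
  · subst h; simp
  · rw [Finsupp.single_eq_of_ne h, Pi.single_eq_of_ne h]

theorem X0 : (X 0 : MvPolynomial (Fin 6) ℂ) = M ![1,0,0,0,0,0] := by
  rw [X_eq]; congr 1; decide
theorem X1 : (X 1 : MvPolynomial (Fin 6) ℂ) = M ![0,1,0,0,0,0] := by
  rw [X_eq]; congr 1; decide
theorem X2 : (X 2 : MvPolynomial (Fin 6) ℂ) = M ![0,0,1,0,0,0] := by
  rw [X_eq]; congr 1; decide
theorem X3 : (X 3 : MvPolynomial (Fin 6) ℂ) = M ![0,0,0,1,0,0] := by
  rw [X_eq]; congr 1; decide
theorem X4 : (X 4 : MvPolynomial (Fin 6) ℂ) = M ![0,0,0,0,1,0] := by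
  rw [X_eq]; congr 1; decide
theorem X5 : (X 5 : MvPolynomial (Fin 6) ℂ) = M ![0,0,0,0,0,1] := by
  rw [X_eq]; congr 1; decide

theorem F_eq : F = M ![4,0,0,0,0,0] + M ![1,1,0,0,1,0] + M ![0,0,1,0,1,1] + M ![0,1,0,1,0,1]
    + M ![0,0,0,2,1,0] + M ![0,0,3,0,0,0] := by
  unfold F
  rw [X0, X1, X2, X3, X4, X5]
  simp only [pow_succ, pow_zero, one_mul, M_mul]
  rw [show (![1, 0, 0, 0, 0, 0] + ![1, 0, 0, 0, 0, 0] + ![1, 0, 0, 0, 0, 0] + ![1, 0, 0, 0, 0, 0] :
      Fin 6 → ℕ) = ![4, 0, 0, 0, 0, 0] by decide,
    show (![1, 0, 0, 0, 0, 0] + ![0, 1, 0, 0, 0, 0] + ![0, 0, 0, 0, 1, 0] : Fin 6 → ℕ) =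
      ![1, 1, 0, 0, 1, 0] by decide,
    show (![0, 0, 1, 0, 0, 0] + ![0, 0, 0, 0, 1, 0] + ![0, 0, 0, 0, 0, 1] : Fin 6 → ℕ) =
      ![0, 0, 1, 0, 1, 1] by decide,
    show (![0, 1, 0, 0, 0, 0] + ![0, 0, 0, 1, 0, 0] + ![0, 0, 0, 0, 0, 1] : Fin 6 → ℕ) =
      ![0, 1, 0, 1, 0, 1] by decide,
    show (![0, 0, 0, 1, 0, 0] + ![0, 0, 0, 1, 0, 0] + ![0, 0, 0, 0, 1, 0] : Fin 6 → ℕ) =
      ![0, 0, 0, 2, 1, 0] by decide,
    show (![0, 0, 1, 0, 0, 0] + ![0, 0, 1, 0, 0, 0] + ![0, 0, 1, 0, 0, 0] : Fin 6 → ℕ) =
      ![0, 0, 3, 0, 0, 0] by decide]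

/-- explicit formula for the contraction of a monomial with `F` -/
theorem contract_F (a : Fin 6 → ℕ) : contract (M a) F =
    (if ∀ i, a i ≤ (![4,0,0,0,0,0] : Fin 6 → ℕ) i then M (![4,0,0,0,0,0] - a) else 0)
    + (if ∀ i, a i ≤ (![1,1,0,0,1,0] : Fin 6 → ℕ) i then M (![1,1,0,0,1,0] - a) else 0)
    + (if ∀ i, a i ≤ (![0,0,1,0,1,1] : Fin 6 → ℕ) i then M (![0,0,1,0,1,1] - a) else 0)
    + (if ∀ i, a i ≤ (![0,1,0,1,0,1] : Fin 6 → ℕ) i then M (![0,1,0,1,0,1] - a) else 0)
    + (if ∀ i, a i ≤ (![0,0,0,2,1,0] : Fin 6 → ℕ) i then M (![0,0,0,2,1,0] - a) else 0)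
    + (if ∀ i, a i ≤ (![0,0,3,0,0,0] : Fin 6 → ℕ) i then M (![0,0,3,0,0,0] - a) else 0) := by
  rw [F_eq]
  simp only [contract_M_add, contract_M_M]

theorem cg {a b c d : MvPolynomial (Fin 6) ℂ} (h1 : a = c) (h2 : b = d) (h : c = d) : a = b := by
  rw [h1, h2, h]

theorem c_0 : contract (X 0 * X 2) F = 0 := by
  rw [X0, X2, M_mul, contract_F]
  rw [if_neg (by decide), if_neg (by decide), if_neg (by decide), if_neg (by decide),
    if_neg (by decide), if_neg (by decide)]
  simp

theorem mem_of (g : MvPolynomial (Fin 6) ℂ) (h : contract g F = 0) : g ∈ annIdeal F :=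
  Ideal.subset_span h

/-- T3. -/
theorem g_mem (i : Fin 15) : g i ∈ annIdeal F := by
  apply mem_of
  fin_cases i
  · show contract (X 0 * X 2) F = 0
    exact c_0
  · show contract (X 0 * X 3) F = 0
    rw [X0, X3, M_mul, contract_F]
    rw [if_neg (by decide), if_neg (by decide), if_neg (by decide), if_neg (by decide),
      if_neg (by decide), if_neg (by decide)]
    simp
  · show contract (X 0 * X 5) F = 0
    rw [X0, X5, M_mul, contract_F]
    rw [if_neg (by decide), if_neg (by decide), if_neg (by decide), if_neg (by decide),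
      if_neg (by decide), if_neg (by decide)]
    simp
  · show contract (X 1 ^ 2) F = 0
    rw [pow_two, X1, M_mul, contract_F]
    rw [if_neg (by decide), if_neg (by decide), if_neg (by decide), if_neg (by decide),
      if_neg (by decide), if_neg (by decide)]
    simp
  · show contract (X 1 * X 2) F = 0
    rw [X1, X2, M_mul, contract_F]
    rw [if_neg (by decide), if_neg (by decide), if_neg (by decide), if_neg (by decide),
      if_neg (by decide), if_neg (by decide)]
    simp
  · show contract (X 2 * X 3) F = 0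
    rw [X2, X3, M_mul, contract_F]
    rw [if_neg (by decide), if_neg (by decide), if_neg (by decide), if_neg (by decide),
      if_neg (by decide), if_neg (by decide)]
    simp
  · show contract (X 4 ^ 2) F = 0
    rw [pow_two, X4, M_mul, contract_F]
    rw [if_neg (by decide), if_neg (by decide), if_neg (by decide), if_neg (by decide),
      if_neg (by decide), if_neg (by decide)]
    simp
  · show contract (X 5 ^ 2) F = 0
    rw [pow_two, X5, M_mul, contract_F]
    rw [if_neg (by decide), if_neg (by decide), if_neg (by decide), if_neg (by decide),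
      if_neg (by decide), if_neg (by decide)]
    simp
  · show contract (X 0 * X 1 - X 3 ^ 2) F = 0
    rw [pow_two, X0, X1, X3, M_mul, M_mul, contract_sub_left, contract_F, contract_F]
    rw [if_neg (by decide), if_pos (by decide), if_neg (by decide), if_neg (by decide),
      if_neg (by decide), if_neg (by decide), if_neg (by decide), if_neg (by decide),
      if_neg (by decide), if_neg (by decide), if_pos (by decide), if_neg (by decide)]
    rw [show (![1,1,0,0,1,0] - (![1,0,0,0,0,0] + ![0,1,0,0,0,0]) : Fin 6 → ℕ)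
      = ![0,0,0,2,1,0] - (![0,0,0,1,0,0] + ![0,0,0,1,0,0]) by decide]
    simp
  · show contract (X 0 * X 4 - X 3 * X 5) F = 0
    rw [X0, X3, X4, X5, M_mul, M_mul, contract_sub_left, contract_F, contract_F]
    rw [if_neg (by decide), if_pos (by decide), if_neg (by decide), if_neg (by decide),
      if_neg (by decide), if_neg (by decide), if_neg (by decide), if_neg (by decide),
      if_neg (by decide), if_pos (by decide), if_neg (by decide), if_neg (by decide)]
    rw [show (![1,1,0,0,1,0] - (![1,0,0,0,0,0] + ![0,0,0,0,1,0]) : Fin 6 → ℕ)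
      = ![0,1,0,1,0,1] - (![0,0,0,1,0,0] + ![0,0,0,0,0,1]) by decide]
    simp
  · show contract (X 1 * X 3 - X 2 * X 4) F = 0
    rw [X1, X2, X3, X4, M_mul, M_mul, contract_sub_left, contract_F, contract_F]
    rw [if_neg (by decide), if_neg (by decide), if_neg (by decide), if_pos (by decide),
      if_neg (by decide), if_neg (by decide), if_neg (by decide), if_neg (by decide),
      if_pos (by decide), if_neg (by decide), if_neg (by decide), if_neg (by decide)]
    rw [show (![0,1,0,1,0,1] - (![0,1,0,0,0,0] + ![0,0,0,1,0,0]) : Fin 6 → ℕ)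
      = ![0,0,1,0,1,1] - (![0,0,1,0,0,0] + ![0,0,0,0,1,0]) by decide]
    simp
  · show contract (X 1 * X 5 - X 3 * X 4) F = 0
    rw [X1, X3, X4, X5, M_mul, M_mul, contract_sub_left, contract_F, contract_F]
    rw [if_neg (by decide), if_neg (by decide), if_neg (by decide), if_pos (by decide),
      if_neg (by decide), if_neg (by decide), if_neg (by decide), if_neg (by decide),
      if_neg (by decide), if_neg (by decide), if_pos (by decide), if_neg (by decide)]
    rw [show (![0,1,0,1,0,1] - (![0,1,0,0,0,0] + ![0,0,0,0,0,1]) : Fin 6 → ℕ)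
      = ![0,0,0,2,1,0] - (![0,0,0,1,0,0] + ![0,0,0,0,1,0]) by decide]
    simp
  · show contract (X 2 ^ 2 - X 4 * X 5) F = 0
    rw [pow_two, X2, X4, X5, M_mul, M_mul, contract_sub_left, contract_F, contract_F]
    rw [if_neg (by decide), if_neg (by decide), if_neg (by decide), if_neg (by decide),
      if_neg (by decide), if_pos (by decide), if_neg (by decide), if_neg (by decide),
      if_pos (by decide), if_neg (by decide), if_neg (by decide), if_neg (by decide)]
    rw [show (![0,0,3,0,0,0] - (![0,0,1,0,0,0] + ![0,0,1,0,0,0]) : Fin 6 → ℕ)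
      = ![0,0,1,0,1,1] - (![0,0,0,0,1,0] + ![0,0,0,0,0,1]) by decide]
    simp
  · show contract (X 2 * X 5 - X 3 ^ 2) F = 0
    rw [pow_two, X2, X3, X5, M_mul, M_mul, contract_sub_left, contract_F, contract_F]
    rw [if_neg (by decide), if_neg (by decide), if_pos (by decide), if_neg (by decide),
      if_neg (by decide), if_neg (by decide), if_neg (by decide), if_neg (by decide),
      if_neg (by decide), if_neg (by decide), if_pos (by decide), if_neg (by decide)]
    rw [show (![0,0,1,0,1,1] - (![0,0,1,0,0,0] + ![0,0,0,0,0,1]) : Fin 6 → ℕ)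
      = ![0,0,0,2,1,0] - (![0,0,0,1,0,0] + ![0,0,0,1,0,0]) by decide]
    simp
  · show contract (X 1 * X 4 - X 0 ^ 3) F = 0
    rw [pow_succ, pow_two, X0, X1, X4, M_mul, M_mul, M_mul, contract_sub_left, contract_F,
      contract_F]
    rw [if_neg (by decide), if_pos (by decide), if_neg (by decide), if_neg (by decide),
      if_neg (by decide), if_neg (by decide), if_pos (by decide), if_neg (by decide),
      if_neg (by decide), if_neg (by decide), if_neg (by decide), if_neg (by decide)]
    rw [show (![1,1,0,0,1,0] - (![0,1,0,0,0,0] + ![0,0,0,0,1,0]) : Fin 6 → ℕ)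
      = ![4,0,0,0,0,0] - (![1,0,0,0,0,0] + ![1,0,0,0,0,0] + ![1,0,0,0,0,0]) by decide]
    simp

end Pool.Agent.H750R2.Smo.T3
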