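import Pool.Agent.H750R2.Smo.Defs

open scoped TensorProduct
open MvPolynomial Module

namespace Pool.Agent.H750R2.Smo.T4

variable {n : ℕ}

/-- contraction as a linear map in the first argument -/
noncomputable def L (P : MvPolynomial (Fin n) ℂ) : MvPolynomial (Fin n) ℂ →ₗ[ℂ] MvPolynomial (Fin n) ℂ :=
  (basisMonomials (Fin n) ℂ).constr ℂ (fun α => P.divMonomial α)

lemma L_monomial (P : MvPolynomial (Fin n) ℂ) (a : Fin n →₀ ℕ) (c : ℂ) :
    L P (monomial a c) = c • P.divMonomial a := by
  have h : monomial a c = c • (basisMonomials (Fin n) ℂ a) := by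
    rw [coe_basisMonomials, smul_monomial, smul_eq_mul, mul_one]
  rw [h, map_smul, L, Basis.constr_basis]

lemma contract_eq (g P : MvPolynomial (Fin n) ℂ) : contract g P = L P g := by
  conv_rhs => rw [g.as_sum]
  rw [map_sum]
  unfold contract
  refine Finset.sum_congr rfl fun α _ => ?_
  rw [L_monomial]

lemma L_mul (P g h : MvPolynomial (Fin n) ℂ) : L P (h * g) = L (L P g) h := by
  induction h using MvPolynomial.induction_on' with
  | monomial a c =>
    induction g using MvPolynomial.induction_on' with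
    | monomial b d =>
      rw [monomial_mul, L_monomial, L_monomial, L_monomial, add_comm a b, divMonomial_add]
      ext m
      simp only [coeff_smul, smul_eq_mul, coeff_divMonomial]
      ring
    | add p q hp hq =>
      rw [mul_add, map_add, hp, hq, map_add, L_monomial, L_monomial, L_monomial, add_divMonomial,
        smul_add]
  | add p q hp hq =>
    rw [add_mul, map_add, hp, hq, map_add]

/-- the annihilator as an ideal -/
noncomputable def I (P : MvPolynomial (Fin n) ℂ) : Ideal (MvPolynomial (Fin n) ℂ) where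
  carrier := {g | contract g P = 0}
  add_mem' {a b} ha hb := by
    simp only [Set.mem_ofPred_eq, contract_eq] at ha hb ⊢
    rw [map_add, ha, hb, add_zero]
  zero_mem' := by
    simp only [Set.mem_ofPred_eq, contract_eq, map_zero]
  smul_mem' c x hx := by
    simp only [Set.mem_ofPred_eq, contract_eq, smul_eq_mul] at hx ⊢
    rw [L_mul, hx]
    rw [← contract_eq]
    unfold contract
    refine Finset.sum_eq_zero fun α _ => ?_
    rw [zero_divMonomial, smul_zero]

lemma annIdeal_eq (P : MvPolynomial (Fin n) ℂ) : annIdeal P = I P := by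
  unfold annIdeal
  have : {g | contract g P = 0} = (I P : Set (MvPolynomial (Fin n) ℂ)) := rfl
  rw [this, Ideal.span_eq]

lemma mem_annIdeal (P g : MvPolynomial (Fin n) ℂ) : g ∈ annIdeal P ↔ L P g = 0 := by
  rw [annIdeal_eq, ← contract_eq]
  exact Iff.rfl

/-- exponents from vectors -/
noncomputable def E (v : Fin 6 → ℕ) : Fin 6 →₀ ℕ := Finsupp.equivFunOnFinite.symm v

lemma E_inj {v w : Fin 6 → ℕ} : E v = E w ↔ v = w := Finsupp.equivFunOnFinite.symm.injective.eq_iff

lemma E_add (v w : Fin 6 → ℕ) : E v + E w = E (v + w) := by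
  ext i; simp [E]

def ff : Fin 6 → Fin 6 → ℕ :=
  ![![4,0,0,0,0,0], ![1,1,0,0,1,0], ![0,0,1,0,1,1], ![0,1,0,1,0,1], ![0,0,0,2,1,0], ![0,0,3,0,0,0]]

def bb : Fin 15 → Fin 6 → ℕ :=
  ![![0,0,0,0,0,0], ![1,0,0,0,0,0], ![0,1,0,0,0,0], ![0,0,1,0,0,0], ![0,0,0,1,0,0], ![0,0,0,0,1,0],
    ![0,0,0,0,0,1], ![2,0,0,0,0,0], ![0,0,0,2,0,0], ![0,0,0,1,0,1], ![0,0,1,0,1,0], ![0,0,0,0,1,1],
    ![0,0,0,1,1,0], ![3,0,0,0,0,0], ![4,0,0,0,0,0]]

def mm : Fin 15 → Fin 6 → ℕ :=
  ![![4,0,0,0,0,0], ![3,0,0,0,0,0], ![1,0,0,0,1,0], ![0,0,2,0,0,0], ![0,0,0,1,1,0], ![0,0,0,2,0,0],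
    ![0,0,1,0,1,0], ![2,0,0,0,0,0], ![0,0,0,0,1,0], ![0,1,0,0,0,0], ![0,0,0,0,0,1], ![0,0,1,0,0,0],
    ![0,0,0,1,0,0], ![1,0,0,0,0,0], ![0,0,0,0,0,0]]

lemma table : ∀ i j : Fin 15, (∑ k, if ff k = bb j + mm i then 1 else 0 : ℕ) = if i = j then 1 else 0 := by
  decide +kernel

lemma F_eq : F = ∑ k, monomial (E (ff k)) (1:ℂ) := by
  have h0 : E (ff 0) = Finsupp.single 0 4 := by
    ext i; fin_cases i <;> simp [E, ff]
  have h1 : E (ff 1) = Finsupp.single 0 1 + Finsupp.single 1 1 + Finsupp.single 4 1 := by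
    ext i; fin_cases i <;> simp [E, ff]
  have h2 : E (ff 2) = Finsupp.single 2 1 + Finsupp.single 4 1 + Finsupp.single 5 1 := by
    ext i; fin_cases i <;> simp [E, ff]
  have h3 : E (ff 3) = Finsupp.single 1 1 + Finsupp.single 3 1 + Finsupp.single 5 1 := by
    ext i; fin_cases i <;> simp [E, ff]
  have h4 : E (ff 4) = Finsupp.single 3 2 + Finsupp.single 4 1 := by
    ext i; fin_cases i <;> simp [E, ff]
  have h5 : E (ff 5) = Finsupp.single 2 3 := by
    ext i; fin_cases i <;> simp [E, ff]
  simp only [Fin.sum_univ_six, h0, h1, h2, h3, h4, h5]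
  unfold F
  simp only [X, monomial_mul, mul_one, monomial_pow, one_pow]
  simp [Finsupp.smul_single]

lemma coeff_F (v : Fin 6 → ℕ) : coeff (E v) F = ((∑ k, if ff k = v then 1 else 0 : ℕ) : ℂ) := by
  rw [F_eq, coeff_sum]
  push_cast
  refine Finset.sum_congr rfl fun k _ => ?_
  rw [coeff_monomial]
  simp only [E_inj]

lemma dual (i j : Fin 15) :
    coeff (E (mm i)) (F.divMonomial (E (bb j))) = if i = j then 1 else 0 := by
  rw [coeff_divMonomial, E_add, coeff_F, table]
  split_ifs <;> simp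

lemma finite_range : Module.Finite ℂ (LinearMap.range (L F)) := by
  classical
  have h1 : LinearMap.range (L F) = Submodule.span ℂ (Set.range fun α => F.divMonomial α) := by
    unfold L
    rw [Basis.constr_range]
  rw [h1]
  refine Module.Finite.span_of_finite ℂ ?_
  set D : Finset (Fin 6 →₀ ℕ) := F.support.biUnion fun β => Finset.Iic β with hD
  refine ((D.finite_toSet.image fun α => F.divMonomial α).union (Set.finite_singleton 0)).subset ?_
  rintro _ ⟨α, rfl⟩
  by_cases hα : α ∈ D
  · left; exact ⟨α, hα, rfl⟩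
  · right
    rw [Set.mem_singleton_iff]
    ext μ
    rw [coeff_divMonomial, coeff_zero]
    by_contra hne
    apply hα
    rw [hD, Finset.mem_biUnion]
    refine ⟨α + μ, mem_support_iff.2 hne, ?_⟩
    rw [Finset.mem_Iic]
    exact le_self_add

theorem finrank_ge : 15 ≤ finrank ℂ (MvPolynomial (Fin 6) ℂ ⧸ annIdeal F) := by
  classical
  have hker : (annIdeal F).restrictScalars ℂ = LinearMap.ker (L F) := by
    ext x
    rw [Submodule.restrictScalars_mem, LinearMap.mem_ker, mem_annIdeal]
  have e1 := Submodule.Quotient.restrictScalarsEquiv ℂ (annIdeal F)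
  rw [← e1.finrank_eq, hker, (L F).quotKerEquivRange.finrank_eq]
  have := finite_range
  let v : Fin 15 → LinearMap.range (L F) := fun j =>
    ⟨L F (monomial (E (bb j)) 1), LinearMap.mem_range_self _ _⟩
  have hv : LinearIndependent ℂ v := by
    rw [Fintype.linearIndependent_iff]
    intro c hc i
    have h2 : ∑ j, c j • F.divMonomial (E (bb j)) = 0 := by
      have := congrArg Subtype.val hc
      simpa [v, L_monomial] using this
    have h3 := congrArg (coeff (E (mm i))) h2
    rw [coeff_sum, coeff_zero] at h3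
    simp only [coeff_smul, dual, smul_eq_mul, mul_ite, mul_one, mul_zero, Finset.sum_ite_eq,
      Finset.mem_univ, if_true] at h3
    exact h3
  have := hv.fintype_card_le_finrank
  simpa using this

end Pool.Agent.H750R2.Smo.T4
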