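import Pool.Agent.H750R2.Smo.T5a

open MvPolynomial Module

namespace Pool.Agent.H750R2.Smo.T5

theorem km : ∀ t ∈ std ++ U, mo t ∈ V := by
  intro t ht
  rcases List.mem_append.mp ht with h | h
  · exact sm t h
  · exact um t h

/-- Multiplication of an exponent by a variable. -/
def sh (i : Fin 6) (t : ℕ × ℕ × ℕ × ℕ × ℕ × ℕ) : ℕ × ℕ × ℕ × ℕ × ℕ × ℕ :=
  (t.1 + if i = 0 then 1 else 0, t.2.1 + if i = 1 then 1 else 0,
    t.2.2.1 + if i = 2 then 1 else 0, t.2.2.2.1 + if i = 3 then 1 else 0,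
    t.2.2.2.2.1 + if i = 4 then 1 else 0, t.2.2.2.2.2 + if i = 5 then 1 else 0)

theorem mo_sh (i : Fin 6) (t : ℕ × ℕ × ℕ × ℕ × ℕ × ℕ) : mo t * X i = mo (sh i t) := by
  obtain ⟨a, b, c, d, e, f⟩ := t
  fin_cases i <;> simp [mo, sh, pow_succ] <;> ring

/-- Decimal code of an exponent. -/
def enc (t : ℕ × ℕ × ℕ × ℕ × ℕ × ℕ) : ℕ :=
  ((((t.1 * 10 + t.2.1) * 10 + t.2.2.1) * 10 + t.2.2.2.1) * 10 + t.2.2.2.2.1) * 10 + t.2.2.2.2.2

/-- Decoding. -/
def dec (c : ℕ) : ℕ × ℕ × ℕ × ℕ × ℕ × ℕ :=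
  (c / 100000, c / 10000 % 10, c / 1000 % 10, c / 100 % 10, c / 10 % 10, c % 10)

theorem dec_enc : ∀ i : Fin 6, ∀ t ∈ std, dec (enc (sh i t)) = sh i t := by
  decide +kernel

theorem dec_enc' : ∀ t ∈ std ++ U, dec (enc t) = t := by
  decide +kernel

/-- The codes of the exponents of the monomials known to be in `V`. -/
def codes : List ℕ := (std ++ U).map enc

theorem mem_codes : ∀ i : Fin 6, (std.all fun t => codes.contains (enc (sh i t))) = true := by
  decide +kernel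

theorem closed (i : Fin 6) (t : ℕ × ℕ × ℕ × ℕ × ℕ × ℕ) (ht : t ∈ std) : sh i t ∈ std ++ U := by
  have h1 := List.all_eq_true.mp (mem_codes i) t ht
  have h2 : enc (sh i t) ∈ codes := by simpa using h1
  obtain ⟨t', ht', he⟩ := List.mem_map.mp h2
  have h3 := dec_enc' t' ht'
  rw [he, dec_enc i t ht] at h3
  rw [h3]
  exact ht'

theorem le_of (W : Submodule ℂ (MvPolynomial (Fin 6) ℂ)) (h1 : ∀ t ∈ std, mo t ∈ W)
    (h2 : ∀ x ∈ J ^ 2, x ∈ W) : V ≤ W := by
  unfold V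
  refine sup_le ?_ ?_
  · rw [Submodule.span_le]
    rintro _ ⟨t, ht, rfl⟩
    exact h1 t ht
  · intro x hx
    exact h2 x hx

theorem sq_mem (x : MvPolynomial (Fin 6) ℂ) (hx : x ∈ J ^ 2) : x ∈ V :=
  Submodule.mem_sup_right hx

theorem V_mul (i : Fin 6) {p : MvPolynomial (Fin 6) ℂ} (hp : p ∈ V) : p * X i ∈ V := by
  have h : V ≤ V.comap (LinearMap.mulRight ℂ (X i : MvPolynomial (Fin 6) ℂ)) := by
    refine le_of _ ?_ ?_
    · intro t ht
      rw [Submodule.mem_comap, LinearMap.mulRight_apply, mo_sh]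
      exact km _ (closed i t ht)
    · intro x hx
      rw [Submodule.mem_comap, LinearMap.mulRight_apply]
      exact sq_mem _ (Ideal.mul_mem_right _ _ hx)
  have h2 := h hp
  rwa [Submodule.mem_comap, LinearMap.mulRight_apply] at h2

theorem one_mem : (1 : MvPolynomial (Fin 6) ℂ) ∈ V := by
  have h0 : mo (0, 0, 0, 0, 0, 0) = 1 := by simp only [mo, pow_zero, mul_one]
  rw [← h0]
  exact sm _ (by decide)

theorem V_top : V = ⊤ := by
  rw [eq_top_iff]
  intro p _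
  induction p using MvPolynomial.induction_on with
  | C a =>
    have := V.smul_mem a one_mem
    rwa [MvPolynomial.smul_eq_C_mul, mul_one] at this
  | add p q hp hq => exact V.add_mem (hp trivial) (hq trivial)
  | mul_X p i hp => exact V_mul i (hp trivial)

theorem std_length : std.length ≤ 97 := by decide +kernel

/-- T5. -/
theorem finrank_J_sq : Module.Finite ℂ (MvPolynomial (Fin 6) ℂ ⧸ J ^ 2) ∧
    finrank ℂ (MvPolynomial (Fin 6) ℂ ⧸ J ^ 2) ≤ 97 := by
  classical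
  let π : MvPolynomial (Fin 6) ℂ →ₗ[ℂ] (MvPolynomial (Fin 6) ℂ ⧸ J ^ 2) :=
    (Ideal.Quotient.mkₐ ℂ (J ^ 2)).toLinearMap
  have hπ : Function.Surjective π := Ideal.Quotient.mk_surjective
  let s : Finset (MvPolynomial (Fin 6) ℂ ⧸ J ^ 2) := std.toFinset.image fun t => π (mo t)
  have hs : Submodule.span ℂ (s : Set (MvPolynomial (Fin 6) ℂ ⧸ J ^ 2)) = ⊤ := by
    rw [eq_top_iff]
    intro y _
    obtain ⟨x, rfl⟩ := hπ y
    have hx : x ∈ V := by rw [V_top]; trivial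
    obtain ⟨a, ha, b, hb, rfl⟩ := Submodule.mem_sup.mp hx
    rw [map_add]
    have hb0 : π b = 0 := Ideal.Quotient.eq_zero_iff_mem.mpr hb
    rw [hb0, add_zero]
    have h1 : π a ∈ Submodule.map π (Submodule.span ℂ (mo '' {t | t ∈ std})) :=
      Submodule.mem_map_of_mem ha
    rw [Submodule.map_span] at h1
    refine Submodule.span_mono ?_ h1
    rintro _ ⟨_, ⟨t, ht, rfl⟩, rfl⟩
    simp only [s, Finset.coe_image, Set.mem_image, Finset.mem_coe, List.mem_toFinset]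
    exact ⟨t, ht, rfl⟩
  have hcard : s.card ≤ 97 :=
    (Finset.card_image_le.trans (List.toFinset_card_le _)).trans std_length
  have hfin : Module.Finite ℂ (MvPolynomial (Fin 6) ℂ ⧸ J ^ 2) := ⟨⟨s, hs⟩⟩
  refine ⟨hfin, ?_⟩
  have h2 := finrank_span_finset_le_card (R := ℂ) s
  rw [Set.finrank, hs, finrank_top] at h2
  exact h2.trans hcard

end Pool.Agent.H750R2.Smo.T5
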