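import Pool.Agent.H750R2.Smo.Defs

open scoped TensorProduct
open MvPolynomial Module

namespace Pool.Agent.H750R2.Smo.T6

theorem hom3 (i j k : Fin 6) : (X i * X j * X k : MvPolynomial (Fin 6) ℂ).IsHomogeneous 3 :=
  ((isHomogeneous_X ℂ i).mul (isHomogeneous_X ℂ j)).mul (isHomogeneous_X ℂ k)

theorem comp3 {p : MvPolynomial (Fin 6) ℂ} (h : p.IsHomogeneous 3) :
    homogeneousComponent 4 p = 0 := by
  rw [homogeneousComponent_of_mem ((mem_homogeneousSubmodule 3 p).2 h)]
  simp

/-- T6. -/
theorem top_form : F.totalDegree = 4 ∧ homogeneousComponent 4 F = X 0 ^ 4 := by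
  have h4 : (X 0 ^ 4 : MvPolynomial (Fin 6) ℂ).IsHomogeneous 4 := by
    simpa using (isHomogeneous_X ℂ (0 : Fin 6)).pow 4
  have e1 : (X 3 ^ 2 * X 4 : MvPolynomial (Fin 6) ℂ).IsHomogeneous 3 := by
    rw [pow_two]; exact hom3 3 3 4
  have e2 : (X 2 ^ 3 : MvPolynomial (Fin 6) ℂ).IsHomogeneous 3 := by
    rw [pow_succ, pow_two]; exact hom3 2 2 2
  have hc : homogeneousComponent 4 F = X 0 ^ 4 := by
    unfold F
    rw [map_add, map_add, map_add, map_add, map_add, comp3 (hom3 _ _ _), comp3 (hom3 _ _ _),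
      comp3 (hom3 _ _ _), comp3 e1, comp3 e2,
      homogeneousComponent_of_mem ((mem_homogeneousSubmodule 4 _).2 h4)]
    simp
  refine ⟨le_antisymm ?_ ?_, hc⟩
  · unfold F
    refine (totalDegree_add _ _).trans (max_le ?_ ((e2.totalDegree_le).trans (by norm_num)))
    refine (totalDegree_add _ _).trans (max_le ?_ ((e1.totalDegree_le).trans (by norm_num)))
    refine (totalDegree_add _ _).trans (max_le ?_ (((hom3 1 3 5).totalDegree_le).trans (by norm_num)))
    refine (totalDegree_add _ _).trans (max_le ?_ (((hom3 2 4 5).totalDegree_le).trans (by norm_num)))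
    refine (totalDegree_add _ _).trans (max_le ?_ (((hom3 0 1 4).totalDegree_le).trans (by norm_num)))
    exact h4.totalDegree_le
  · by_contra hlt
    push Not at hlt
    have := homogeneousComponent_eq_zero 4 F hlt
    rw [hc] at this
    exact pow_ne_zero 4 (X_ne_zero (0 : Fin 6)) this

end Pool.Agent.H750R2.Smo.T6
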