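import Pool.Agent.H750R2.Smo.Defs

open scoped TensorProduct
open MvPolynomial Module

namespace Pool.Agent.H750R2.Smo.T7

theorem coeff_contract {n : ℕ} (g F : MvPolynomial (Fin n) ℂ) (μ : Fin n →₀ ℕ) :
    coeff μ (contract g F) = ∑ α ∈ g.support, g.coeff α * coeff (α + μ) F := by
  unfold contract
  rw [coeff_sum]
  refine Finset.sum_congr rfl fun α _ => ?_
  rw [coeff_smul, coeff_divMonomial, smul_eq_mul]

theorem X0pow : (X 0 ^ 4 : MvPolynomial (Fin 6) ℂ) = monomial (Finsupp.single 0 4) 1 := by
  rw [X_pow_eq_monomial]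

/-- T7. -/
theorem ann_top : annIdeal (X 0 ^ 4 : MvPolynomial (Fin 6) ℂ) =
    Ideal.span ({X 0 ^ 5, X 1, X 2, X 3, X 4, X 5} : Set (MvPolynomial (Fin 6) ℂ)) := by
  apply le_antisymm
  · unfold annIdeal
    rw [Ideal.span_le]
    intro g hg
    have hg' : contract g (X 0 ^ 4 : MvPolynomial (Fin 6) ℂ) = 0 := hg
    -- the coefficients of `X₀^k`, `k ≤ 4`, vanish
    have hzero : ∀ k : ℕ, k ≤ 4 → coeff (Finsupp.single 0 k) g = 0 := by
      intro k hk
      have h1 := coeff_contract g (X 0 ^ 4 : MvPolynomial (Fin 6) ℂ) (Finsupp.single 0 (4 - k))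
      rw [hg', coeff_zero, X0pow] at h1
      simp only [coeff_monomial] at h1
      have h2 : ∑ α ∈ g.support, coeff α g *
          (if Finsupp.single (0 : Fin 6) 4 = α + Finsupp.single 0 (4 - k) then (1 : ℂ) else 0)
          = ∑ α ∈ g.support, (if α = Finsupp.single 0 k then coeff α g else 0) := by
        refine Finset.sum_congr rfl fun α _ => ?_
        have h3 : Finsupp.single (0 : Fin 6) 4 = α + Finsupp.single 0 (4 - k) ↔
            α = Finsupp.single 0 k := by
          have e : Finsupp.single (0 : Fin 6) 4
              = Finsupp.single 0 k + Finsupp.single 0 (4 - k) := by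
            rw [← Finsupp.single_add]
            congr 1
            omega
          rw [e]
          constructor
          · intro h
            exact (add_right_cancel h).symm
          · rintro rfl
            rfl
        by_cases h4 : α = Finsupp.single 0 k
        · rw [if_pos (h3.2 h4), if_pos h4, mul_one]
        · rw [if_neg (fun h => h4 (h3.1 h)), if_neg h4, mul_zero]
      rw [h2, Finset.sum_ite_eq'] at h1
      by_cases h5 : Finsupp.single 0 k ∈ g.support
      · rw [if_pos h5] at h1
        exact h1.symm
      · exact notMem_support_iff.1 h5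
    show g ∈ Ideal.span _
    rw [← support_sum_monomial_coeff g]
    refine Ideal.sum_mem _ fun α hα => ?_
    by_cases hall : ∃ i : Fin 6, i ≠ 0 ∧ α i ≠ 0
    · obtain ⟨i, hi, hαi⟩ := hall
      have hX : (X i : MvPolynomial (Fin 6) ℂ) ∣ monomial α (coeff α g) :=
        X_dvd_monomial.2 (Or.inr hαi)
      refine Ideal.mem_of_dvd _ hX (Ideal.subset_span ?_)
      fin_cases i
      · exact absurd rfl hi
      · simp
      · simp
      · simp
      · simp
      · simp
    · push Not at hall
      have hα0 : α = Finsupp.single 0 (α 0) := by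
        ext i
        by_cases hi : i = 0
        · subst hi; simp
        · rw [hall i hi, Finsupp.single_apply, if_neg (Ne.symm hi)]
      have h5 : 5 ≤ α 0 := by
        by_contra hc
        have := hzero (α 0) (by omega)
        rw [← hα0] at this
        exact (mem_support_iff.1 hα) this
      have hX : (X 0 ^ 5 : MvPolynomial (Fin 6) ℂ) ∣ monomial α (coeff α g) := by
        rw [X_pow_eq_monomial]
        refine ⟨monomial (α - Finsupp.single 0 5) (coeff α g), ?_⟩
        rw [monomial_mul, one_mul]
        congr 1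
        rw [add_tsub_cancel_of_le]
        rw [Finsupp.single_le_iff]
        exact h5
      exact Ideal.mem_of_dvd _ hX (Ideal.subset_span (by simp))
  · rw [Ideal.span_le]
    intro g hg
    have key : ∀ (β : Fin 6 →₀ ℕ), (∀ μ : Fin 6 →₀ ℕ, Finsupp.single (0 : Fin 6) 4 ≠ β + μ) →
        contract (monomial β (1 : ℂ)) (X 0 ^ 4 : MvPolynomial (Fin 6) ℂ) = 0 := by
      intro β hβ
      ext μ
      rw [coeff_contract, coeff_zero]
      refine Finset.sum_eq_zero fun α hα => ?_
      have : α = β := by
        have := support_monomial_subset hα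
        simpa using this
      subst this
      have h0 : coeff (α + μ) (X 0 ^ 4 : MvPolynomial (Fin 6) ℂ) = 0 := by
        rw [X0pow, coeff_monomial, if_neg (hβ μ)]
      rw [h0, mul_zero]
    have hmem : ∀ (β : Fin 6 →₀ ℕ), (∀ μ : Fin 6 →₀ ℕ, Finsupp.single (0 : Fin 6) 4 ≠ β + μ) →
        (monomial β (1 : ℂ) : MvPolynomial (Fin 6) ℂ) ∈
          annIdeal (X 0 ^ 4 : MvPolynomial (Fin 6) ℂ) := by
      intro β hβ
      exact Ideal.subset_span (key β hβ)
    have hX : ∀ i : Fin 6, i ≠ 0 →
        (X i : MvPolynomial (Fin 6) ℂ) ∈ annIdeal (X 0 ^ 4 : MvPolynomial (Fin 6) ℂ) := by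
      intro i hi
      refine hmem (Finsupp.single i 1) fun μ hμ => ?_
      have := DFunLike.congr_fun hμ i
      rw [Finsupp.add_apply, Finsupp.single_apply, if_neg (Ne.symm hi), Finsupp.single_apply,
        if_pos rfl] at this
      omega
    simp only [Set.mem_insert_iff, Set.mem_singleton_iff] at hg
    rcases hg with rfl | rfl | rfl | rfl | rfl | rfl
    · have h5 : (X 0 ^ 5 : MvPolynomial (Fin 6) ℂ) = monomial (Finsupp.single 0 5) 1 := by
        rw [X_pow_eq_monomial]
      rw [h5]
      refine hmem _ fun μ hμ => ?_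
      have := DFunLike.congr_fun hμ 0
      rw [Finsupp.add_apply, Finsupp.single_apply, if_pos rfl, Finsupp.single_apply,
        if_pos rfl] at this
      omega
    · exact hX 1 (by decide)
    · exact hX 2 (by decide)
    · exact hX 3 (by decide)
    · exact hX 4 (by decide)
    · exact hX 5 (by decide)

end Pool.Agent.H750R2.Smo.T7
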