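import Pool.Agent.H750R2.Smo.Defs

/-!
# T8: the truncated polynomial algebra is smoothable
-/

open scoped TensorProduct
open MvPolynomial

namespace Pool.Agent.H750R2.Smo.T8

noncomputable section

/-- the base `ℂ[t]` -/
abbrev R0 : Type := Polynomial ℂ

/-- `x ^ 5 - t` -/
def f0 : Polynomial R0 := Polynomial.X ^ 5 - Polynomial.C Polynomial.X

theorem f0_monic : f0.Monic := Polynomial.monic_X_pow_sub_C _ (by norm_num)

/-- the family -/
abbrev B0 : Type := AdjoinRoot f0

/-- the function field -/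
abbrev K0 : Type := FractionRing R0

/-- the variable in the function field -/
def tK : K0 := algebraMap R0 K0 Polynomial.X

theorem tK_ne : tK ≠ 0 := by
  unfold tK
  rw [Ne, map_eq_zero_iff _ (IsFractionRing.injective R0 K0)]
  exact Polynomial.X_ne_zero

/-- the generic fibre as a standard étale pair -/
def P0 : StandardEtalePair K0 where
  f := Polynomial.X ^ 5 - Polynomial.C tK
  monic_f := Polynomial.monic_X_pow_sub_C _ (by norm_num)
  g := 1
  cond := by
    refine ⟨Polynomial.C (5 * tK)⁻¹ * Polynomial.X, -Polynomial.C tK⁻¹, 1, ?_⟩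
    rw [Polynomial.derivative_sub, Polynomial.derivative_X_pow, Polynomial.derivative_C, sub_zero]
    have e1 : (Polynomial.C ((5 : ℕ) : K0) : Polynomial K0) * Polynomial.C (5 * tK)⁻¹ =
        Polynomial.C tK⁻¹ := by
      rw [← Polynomial.C_mul]
      congr 1
      have := tK_ne
      push_cast
      field_simp
    have e2 : (Polynomial.C tK : Polynomial K0) * Polynomial.C tK⁻¹ = 1 := by
      rw [← Polynomial.C_mul, mul_inv_cancel₀ tK_ne, Polynomial.C_1]
    norm_num at e1 ⊢
    linear_combination Polynomial.X ^ 5 * e1 + e2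

instance algP : Algebra R0 P0.Ring := ((algebraMap K0 P0.Ring).comp (algebraMap R0 K0)).toAlgebra

instance towP : IsScalarTower R0 K0 P0.Ring := IsScalarTower.of_algebraMap_eq' rfl

theorem eval_X : (f0.eval₂ (Algebra.ofId R0 P0.Ring : R0 →+* P0.Ring) P0.X) = 0 := by
  have h := P0.hasMap_X.1
  have e : f0.eval₂ (Algebra.ofId R0 P0.Ring : R0 →+* P0.Ring) P0.X =
      Polynomial.aeval P0.X P0.f := by
    unfold f0 P0
    simp only [Polynomial.eval₂_sub, Polynomial.eval₂_pow, Polynomial.eval₂_X,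
      Polynomial.eval₂_C, map_sub, map_pow, Polynomial.aeval_X, Polynomial.aeval_C]
    rfl
  rw [e, h]

/-- forward map on the family -/
def psi : B0 →ₐ[R0] P0.Ring := AdjoinRoot.liftAlgHom f0 (Algebra.ofId R0 P0.Ring) P0.X eval_X

theorem psi_root : psi (AdjoinRoot.root f0) = P0.X := by
  exact AdjoinRoot.lift_root eval_X

/-- forward map -/
def fwd : K0 ⊗[R0] B0 →ₐ[K0] P0.Ring :=
  Algebra.TensorProduct.lift (Algebra.ofId K0 P0.Ring) psi fun _ _ => Commute.all _ _

theorem hasMap_bwd : P0.HasMap ((1 : K0) ⊗ₜ[R0] AdjoinRoot.root f0) := by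
  constructor
  · have h := AdjoinRoot.eval₂_root f0
    unfold f0 at h
    simp only [Polynomial.eval₂_sub, Polynomial.eval₂_pow, Polynomial.eval₂_X,
      Polynomial.eval₂_C] at h
    unfold P0
    simp only [map_sub, map_pow, Polynomial.aeval_X, Polynomial.aeval_C]
    rw [Algebra.TensorProduct.tmul_pow, one_pow]
    have e : algebraMap K0 (K0 ⊗[R0] B0) tK = (1 : K0) ⊗ₜ[R0] (algebraMap R0 B0 Polynomial.X) := by
      rw [Algebra.TensorProduct.algebraMap_apply, Algebra.algebraMap_self_apply]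
      unfold tK
      rw [Algebra.algebraMap_eq_smul_one, TensorProduct.smul_tmul, ← Algebra.algebraMap_eq_smul_one]
    rw [e, ← TensorProduct.tmul_sub]
    have h' : AdjoinRoot.root f0 ^ 5 - algebraMap R0 B0 Polynomial.X = 0 := h
    rw [h', TensorProduct.tmul_zero]
  · unfold P0
    simp

/-- backward map -/
def bwd : P0.Ring →ₐ[K0] K0 ⊗[R0] B0 := P0.lift _ hasMap_bwd

/-- the generic fibre is the standard étale algebra -/
def eqv : (K0 ⊗[R0] B0) ≃ₐ[K0] P0.Ring := by
  refine AlgEquiv.ofAlgHom fwd bwd ?_ ?_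
  · apply StandardEtalePair.hom_ext
    rw [AlgHom.comp_apply, AlgHom.id_apply]
    unfold bwd fwd
    rw [StandardEtalePair.lift_X, Algebra.TensorProduct.lift_tmul, map_one, one_mul, psi_root]
  · apply Algebra.TensorProduct.ext
    · exact Subsingleton.elim _ _
    · apply AdjoinRoot.algHom_ext
      change bwd (fwd (1 ⊗ₜ AdjoinRoot.root f0)) = 1 ⊗ₜ AdjoinRoot.root f0
      have : fwd ((1 : K0) ⊗ₜ[R0] AdjoinRoot.root f0) = P0.X := by
        unfold fwd
        rw [Algebra.TensorProduct.lift_tmul, map_one, one_mul, psi_root]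
      rw [this]
      unfold bwd
      rw [StandardEtalePair.lift_X]

theorem etale_gen : Algebra.Etale K0 (K0 ⊗[R0] B0) := Algebra.Etale.of_equiv eqv.symm

/-! ### the special fibre -/

/-- the ideal of the origin -/
def m0 : Ideal R0 := Ideal.span {Polynomial.X}

theorem m0_max : m0.IsMaximal := by
  have : Irreducible (Polynomial.X : R0) := Polynomial.irreducible_X
  exact PrincipalIdealRing.isMaximal_of_irreducible this

/-- the ideal of the special fibre -/
abbrev mB : Ideal B0 := Ideal.map (algebraMap R0 B0) m0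

/-- the ideal of the truncated polynomial algebra -/
abbrev I6 : Ideal (MvPolynomial (Fin 6) ℂ) :=
  Ideal.span ({X 0 ^ 5, X 1, X 2, X 3, X 4, X 5} : Set (MvPolynomial (Fin 6) ℂ))

/-- the truncated polynomial algebra -/
abbrev A6 : Type := MvPolynomial (Fin 6) ℂ ⧸ I6

theorem t_mem : algebraMap R0 B0 Polynomial.X ∈ mB :=
  Ideal.mem_map_of_mem _ (Ideal.subset_span rfl)

theorem root_pow : AdjoinRoot.root f0 ^ 5 = algebraMap R0 B0 Polynomial.X := by
  have h := AdjoinRoot.eval₂_root f0
  unfold f0 at h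
  simp only [Polynomial.eval₂_sub, Polynomial.eval₂_pow, Polynomial.eval₂_X,
    Polynomial.eval₂_C] at h
  exact sub_eq_zero.1 h

/-- from the truncated polynomial algebra to the special fibre -/
def toF0 : MvPolynomial (Fin 6) ℂ →ₐ[ℂ] (B0 ⧸ mB) :=
  aeval fun i => if i = 0 then Ideal.Quotient.mk mB (AdjoinRoot.root f0) else 0

def toF : A6 →ₐ[ℂ] (B0 ⧸ mB) := Ideal.Quotient.liftₐ I6 toF0 (by
  intro a ha
  have : I6 ≤ RingHom.ker (toF0 : MvPolynomial (Fin 6) ℂ →+* (B0 ⧸ mB)) := by
    rw [Ideal.span_le]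
    intro x hx
    simp only [Set.mem_insert_iff, Set.mem_singleton_iff] at hx
    rw [SetLike.mem_coe, RingHom.mem_ker]
    change toF0 x = 0
    unfold toF0
    rcases hx with rfl | rfl | rfl | rfl | rfl | rfl
    · rw [map_pow, aeval_X, if_pos rfl, ← map_pow, root_pow]
      exact Ideal.Quotient.eq_zero_iff_mem.2 t_mem
    all_goals rw [aeval_X, if_neg (by decide)]
  exact this ha)

theorem eval_A : f0.eval₂ ((Polynomial.aeval (0 : A6) : R0 →ₐ[ℂ] A6) : R0 →+* A6)
    (Ideal.Quotient.mk I6 (X 0)) = 0 := by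
  unfold f0
  simp only [Polynomial.eval₂_sub, Polynomial.eval₂_pow, Polynomial.eval₂_X,
    Polynomial.eval₂_C]
  rw [← map_pow]
  have h1 : Ideal.Quotient.mk I6 (X 0 ^ 5) = 0 :=
    Ideal.Quotient.eq_zero_iff_mem.2 (Ideal.subset_span (by simp))
  rw [h1]
  simp

/-- from the family to the truncated polynomial algebra -/
def toA0 : B0 →ₐ[ℂ] A6 :=
  AdjoinRoot.liftAlgHom f0 (Polynomial.aeval (0 : A6) : R0 →ₐ[ℂ] A6) (Ideal.Quotient.mk I6 (X 0))
    eval_A

theorem toA0_root : toA0 (AdjoinRoot.root f0) = Ideal.Quotient.mk I6 (X 0) :=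
  AdjoinRoot.lift_root eval_A

theorem toA0_t : toA0 (algebraMap R0 B0 Polynomial.X) = 0 := by
  have : toA0 (algebraMap R0 B0 Polynomial.X) = Polynomial.aeval (0 : A6) (Polynomial.X : R0) :=
    AdjoinRoot.lift_of eval_A
  rw [this, Polynomial.aeval_X]

def toA : (B0 ⧸ mB) →ₐ[ℂ] A6 := Ideal.Quotient.liftₐ mB toA0 (by
  intro a ha
  have : mB ≤ RingHom.ker (toA0 : B0 →+* A6) := by
    rw [Ideal.map_le_iff_le_comap]
    unfold m0
    rw [Ideal.span_le]
    intro x hx
    rw [Set.mem_singleton_iff] at hx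
    subst hx
    exact toA0_t
  exact this ha)

/-- the special fibre -/
def fib : (B0 ⧸ mB) ≃ₐ[ℂ] A6 := by
  refine AlgEquiv.ofAlgHom toA toF ?_ ?_
  · apply Ideal.Quotient.algHom_ext
    apply MvPolynomial.algHom_ext
    intro i
    change toA (toF (Ideal.Quotient.mk I6 (X i))) = Ideal.Quotient.mk I6 (X i)
    have h1 : toF (Ideal.Quotient.mk I6 (X i)) = toF0 (X i) := rfl
    rw [h1]
    unfold toF0
    rw [aeval_X]
    split_ifs with h
    · subst h
      exact toA0_root
    · rw [map_zero]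
      symm
      rw [Ideal.Quotient.eq_zero_iff_mem]
      apply Ideal.subset_span
      fin_cases i
      · exact absurd rfl h
      all_goals simp
  · apply Ideal.Quotient.algHom_ext
    apply AdjoinRoot.algHom_ext'
    · apply Polynomial.algHom_ext
      change toF (toA0 (algebraMap R0 B0 Polynomial.X)) =
        Ideal.Quotient.mk mB (algebraMap R0 B0 Polynomial.X)
      rw [toA0_t, map_zero]
      exact (Ideal.Quotient.eq_zero_iff_mem.2 t_mem).symm
    · change toF (toA0 (AdjoinRoot.root f0)) = Ideal.Quotient.mk mB (AdjoinRoot.root f0)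
      rw [toA0_root]
      change toF0 (X 0) = _
      unfold toF0
      rw [aeval_X, if_pos rfl]

/-- T8. -/
theorem smoothable_top : Smoothable (MvPolynomial (Fin 6) ℂ ⧸
    Ideal.span ({X 0 ^ 5, X 1, X 2, X 3, X 4, X 5} : Set (MvPolynomial (Fin 6) ℂ))) := by
  refine ⟨R0, inferInstance, inferInstance, inferInstance, m0, m0_max, B0, inferInstance,
    inferInstance, inferInstance, inferInstance, f0_monic.free_adjoinRoot,
    f0_monic.finite_adjoinRoot, ⟨fib⟩, etale_gen⟩

end

end Pool.Agent.H750R2.Smo.T8
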