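import Pool.Agent.H750R2.Smo.T1
import Pool.Agent.H750R2.Smo.T2
import Pool.Agent.H750R2.Smo.T3
import Pool.Agent.H750R2.Smo.T4
import Pool.Agent.H750R2.Smo.T5
import Pool.Agent.H750R2.Smo.T6
import Pool.Agent.H750R2.Smo.T7
import Pool.Agent.H750R2.Smo.T8

open scoped TensorProduct
open MvPolynomial Module

namespace Pool.Agent.H750R2.Smo.Main

theorem J_le : J ≤ annIdeal F := by
  unfold J
  rw [Ideal.span_le]
  rintro _ ⟨i, rfl⟩
  exact T3.g_mem i

theorem finite_sq : Module.Finite ℂ (MvPolynomial (Fin 6) ℂ ⧸ annIdeal F ^ 2) ∧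
    finrank ℂ (MvPolynomial (Fin 6) ℂ ⧸ annIdeal F ^ 2) ≤ 97 := by
  obtain ⟨hf, hr⟩ := T5.finrank_J_sq
  have hle : J ^ 2 ≤ annIdeal F ^ 2 := Ideal.pow_right_mono J_le 2
  let q : (MvPolynomial (Fin 6) ℂ ⧸ J ^ 2) →ₗ[ℂ] (MvPolynomial (Fin 6) ℂ ⧸ annIdeal F ^ 2) :=
    (Ideal.Quotient.factorₐ ℂ hle).toLinearMap
  have hq : Function.Surjective q := Ideal.Quotient.factor_surjective hle
  exact ⟨Module.Finite.of_surjective q hq,
    (LinearMap.finrank_le_finrank_of_surjective hq).trans hr⟩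

theorem not_smoothable : ¬ Smoothable (MvPolynomial (Fin 6) ℂ ⧸ annIdeal F) := by
  rintro ⟨R, _, _, _, m, _, B, _, _, _, _, _, _, ⟨e⟩, het⟩
  obtain ⟨hf, hr⟩ := finite_sq
  obtain ⟨h1, φ, hφ, hfin, h2⟩ := T1.surj_family (annIdeal F) m e
  have h3 := T2.etale_bound φ hφ
  have h4 := T4.finrank_ge
  have h5 : finrank (FractionRing R) (FractionRing R ⊗[R] B) = finrank R B :=
    Module.finrank_baseChange
  rw [h5] at h3
  omega

theorem F_ne : F ≠ 0 := by
  intro h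
  have h1 := T6.top_form.1
  rw [h, totalDegree_zero] at h1
  exact absurd h1 (by norm_num)

theorem smoothable_top :
    Smoothable (MvPolynomial (Fin 6) ℂ ⧸ annIdeal (homogeneousComponent F.totalDegree F)) := by
  rw [T6.top_form.1, T6.top_form.2, T7.ann_top]
  exact T8.smoothable_top

end Pool.Agent.H750R2.Smo.Main
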