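import Pool.Agent.H750R2.Smo.Defs

open scoped TensorProduct
open MvPolynomial Module

namespace Pool.Agent.H750R2.Smo.Stubs

/-- T1. -/
theorem surj_family {n : ℕ} (I : Ideal (MvPolynomial (Fin n) ℂ))
    [FiniteDimensional ℂ (MvPolynomial (Fin n) ℂ ⧸ I ^ 2)]
    {R : Type} [CommRing R] [IsDomain R] [Algebra ℂ R] (m : Ideal R) [m.IsMaximal]
    {B : Type} [CommRing B] [Algebra R B] [Algebra ℂ B] [IsScalarTower ℂ R B]
    [Module.Free R B] [Module.Finite R B]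
    (e : (B ⧸ Ideal.map (algebraMap R B) m) ≃ₐ[ℂ] (MvPolynomial (Fin n) ℂ ⧸ I)) :
    finrank ℂ (MvPolynomial (Fin n) ℂ ⧸ I) ≤ finrank R B ∧
    ∃ φ : MvPolynomial (Fin n) (FractionRing R) →ₐ[FractionRing R] (FractionRing R ⊗[R] B),
      Function.Surjective φ ∧
      Module.Finite (FractionRing R) (MvPolynomial (Fin n) (FractionRing R) ⧸
        (RingHom.ker φ.toRingHom) ^ 2) ∧
      finrank (FractionRing R) (MvPolynomial (Fin n) (FractionRing R) ⧸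
        (RingHom.ker φ.toRingHom) ^ 2) ≤ finrank ℂ (MvPolynomial (Fin n) ℂ ⧸ I ^ 2) := by
  sorry

/-- T2. -/
theorem etale_bound {K : Type} [Field K] {n : ℕ} {E : Type} [CommRing E] [Algebra K E]
    [Module.Finite K E] [Algebra.Etale K E] (φ : MvPolynomial (Fin n) K →ₐ[K] E)
    (hφ : Function.Surjective φ)
    [Module.Finite K (MvPolynomial (Fin n) K ⧸ (RingHom.ker φ.toRingHom) ^ 2)] :
    (n + 1) * finrank K E ≤
      finrank K (MvPolynomial (Fin n) K ⧸ (RingHom.ker φ.toRingHom) ^ 2) := by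
  sorry

/-- T3. -/
theorem g_mem (i : Fin 15) : g i ∈ annIdeal F := by
  sorry

/-- T4. -/
theorem finrank_ge : 15 ≤ finrank ℂ (MvPolynomial (Fin 6) ℂ ⧸ annIdeal F) := by
  sorry

/-- T5. -/
theorem finrank_J_sq : Module.Finite ℂ (MvPolynomial (Fin 6) ℂ ⧸ J ^ 2) ∧
    finrank ℂ (MvPolynomial (Fin 6) ℂ ⧸ J ^ 2) ≤ 97 := by
  sorry

/-- T6. -/
theorem top_form : F.totalDegree = 4 ∧ homogeneousComponent 4 F = X 0 ^ 4 := by
  sorry

/-- T7. -/
theorem ann_top : annIdeal (X 0 ^ 4 : MvPolynomial (Fin 6) ℂ) =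
    Ideal.span ({X 0 ^ 5, X 1, X 2, X 3, X 4, X 5} : Set (MvPolynomial (Fin 6) ℂ)) := by
  sorry

/-- T8. -/
theorem smoothable_top : Smoothable (MvPolynomial (Fin 6) ℂ ⧸
    Ideal.span ({X 0 ^ 5, X 1, X 2, X 3, X 4, X 5} : Set (MvPolynomial (Fin 6) ℂ))) := by
  sorry

end Pool.Agent.H750R2.Smo.Stubs
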