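import Pool.Agent.H750R2.Smo.Defs2

open MvPolynomial Module

namespace Pool.Agent.H750R2.Smo.Stubs2

/-- T9. -/
theorem finrank_le : Module.Finite ℂ (MvPolynomial (Fin 6) ℂ ⧸ annIdeal F) ∧
    finrank ℂ (MvPolynomial (Fin 6) ℂ ⧸ annIdeal F) ≤ 15 := by
  sorry

/-- T10. -/
theorem isLocal : IsLocalRing (MvPolynomial (Fin 6) ℂ ⧸ annIdeal F) := by
  sorry

/-- T11. -/
theorem finrank_socle : finrank ℂ (socle (MvPolynomial (Fin 6) ℂ ⧸ annIdeal F)) = 1 := by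
  sorry

end Pool.Agent.H750R2.Smo.Stubs2
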