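import Mathlib
import Pool.Agent.H750R2.Smo.Defs

/-!
# Task T1: surjections from polynomial rings in families
-/

open scoped TensorProduct
open MvPolynomial Module

namespace Pool.Agent.H750R2.Smo.T1

/-- a form of Nakayama's lemma -/
theorem nak {R : Type*} [CommRing R] (m : Ideal R) {M : Type*} [AddCommGroup M] [Module R M]
    (N : Submodule R M) [Module.Finite R (M ⧸ N)]
    (h : ∀ x : M, ∃ y ∈ N, x - y ∈ (m • ⊤ : Submodule R M)) :
    ∃ δ : R, δ - 1 ∈ m ∧ ∀ x : M, δ • x ∈ N := by
  obtain ⟨δ, h1, h2⟩ := Submodule.exists_sub_one_mem_and_smul_eq_zero_of_fg_of_le_smul m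
    (⊤ : Submodule R (M ⧸ N)) Module.Finite.fg_top (by
      intro z _
      obtain ⟨x, rfl⟩ := N.mkQ_surjective z
      obtain ⟨y, hy, hxy⟩ := h x
      have hy0 : N.mkQ y = 0 := by
        rw [Submodule.mkQ_apply, Submodule.Quotient.mk_eq_zero]; exact hy
      have e : N.mkQ x = N.mkQ (x - y) := by
        rw [map_sub, hy0, sub_zero]
      rw [e]
      have := Submodule.mem_map_of_mem (f := N.mkQ) hxy
      rw [Submodule.map_smul''] at this
      exact Submodule.smul_mono le_rfl le_top this)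
  refine ⟨δ, h1, fun x => ?_⟩
  have := h2 (N.mkQ x) trivial
  rw [← map_smul, Submodule.mkQ_apply, Submodule.Quotient.mk_eq_zero] at this
  exact this

theorem mem_smul_top {R A : Type*} [CommRing R] [CommRing A] [Algebra R A] (m : Ideal R) (x : A) :
    x ∈ (m • ⊤ : Submodule R A) ↔ x ∈ Ideal.map (algebraMap R A) m := by
  rw [Ideal.smul_top_eq_map, Submodule.restrictScalars_mem]

theorem exists_const {R : Type} [CommRing R] [Algebra ℂ R] (m : Ideal R) [m.IsMaximal]
    {B : Type} [CommRing B] [Algebra R B] [Algebra ℂ B] [IsScalarTower ℂ R B]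
    [Nontrivial (B ⧸ Ideal.map (algebraMap R B) m)]
    [Module.Finite ℂ (B ⧸ Ideal.map (algebraMap R B) m)] (r : R) :
    ∃ c : ℂ, r - algebraMap ℂ R c ∈ m := by
  letI : Field (R ⧸ m) := Ideal.Quotient.field m
  let f : R →ₐ[ℂ] B ⧸ Ideal.map (algebraMap R B) m :=
    (Ideal.Quotient.mkₐ ℂ _).comp (IsScalarTower.toAlgHom ℂ R B)
  let g : (R ⧸ m) →ₐ[ℂ] B ⧸ Ideal.map (algebraMap R B) m :=
    Ideal.Quotient.liftₐ m f (fun a ha => by
      show Ideal.Quotient.mk _ (algebraMap R B a) = 0
      rw [Ideal.Quotient.eq_zero_iff_mem]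
      exact Ideal.mem_map_of_mem _ ha)
  have hg : Function.Injective g := g.toRingHom.injective
  haveI : Module.Finite ℂ (R ⧸ m) := Module.Finite.of_injective g.toLinearMap hg
  haveI : Algebra.IsIntegral ℂ (R ⧸ m) := inferInstance
  obtain ⟨c, hc⟩ := (IsAlgClosed.algebraMap_bijective_of_isIntegral (k := ℂ)
    (K := R ⧸ m)).2 (Ideal.Quotient.mk m r)
  refine ⟨c, ?_⟩
  rw [← Ideal.Quotient.eq_zero_iff_mem, map_sub, ← hc]
  exact sub_self _

theorem finrank_fibre {R : Type} [CommRing R] [IsDomain R] [Algebra ℂ R] (m : Ideal R)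
    {B : Type} [CommRing B] [Algebra R B] [Algebra ℂ B] [IsScalarTower ℂ R B]
    [Module.Free R B] [Module.Finite R B] (hc : ∀ r : R, ∃ c : ℂ, r - algebraMap ℂ R c ∈ m) :
    finrank ℂ (B ⧸ Ideal.map (algebraMap R B) m) ≤ finrank R B := by
  classical
  set β := Module.finBasis R B with hβ
  let L : (Fin (finrank R B) → ℂ) →ₗ[ℂ] B ⧸ Ideal.map (algebraMap R B) m :=
    Fintype.linearCombination ℂ fun i => Ideal.Quotient.mk (Ideal.map (algebraMap R B) m) (β i)
  have hL : Function.Surjective L := by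
    intro z
    obtain ⟨x, rfl⟩ := Ideal.Quotient.mk_surjective z
    choose c hc using fun i => hc (β.repr x i)
    refine ⟨c, ?_⟩
    show ∑ i, c i • Ideal.Quotient.mk (Ideal.map (algebraMap R B) m) (β i) = _
    have e1 : ∀ i, c i • Ideal.Quotient.mk (Ideal.map (algebraMap R B) m) (β i) =
        Ideal.Quotient.mk (Ideal.map (algebraMap R B) m) (β.repr x i • β i) := by
      intro i
      have : c i • Ideal.Quotient.mk (Ideal.map (algebraMap R B) m) (β i) =
        Ideal.Quotient.mk (Ideal.map (algebraMap R B) m) (c i • β i) := rfl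
      rw [this, eq_comm, Ideal.Quotient.mk_eq_mk_iff_sub_mem]
      have e2 : β.repr x i • β i - c i • β i =
          algebraMap R B (β.repr x i - algebraMap ℂ R (c i)) * β i := by
        rw [map_sub, sub_mul, ← Algebra.smul_def, ← IsScalarTower.algebraMap_apply,
          ← Algebra.smul_def]
      rw [e2]
      exact Ideal.mul_mem_right _ _ (Ideal.mem_map_of_mem _ (hc i))
    rw [Finset.sum_congr rfl fun i _ => e1 i, ← map_sum, β.sum_repr]
  have := LinearMap.finrank_le_finrank_of_surjective hL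
  rw [Module.finrank_fin_fun] at this
  exact this

theorem finite_quot {n : ℕ} {R : Type} [CommRing R] (L : Ideal (MvPolynomial (Fin n) R))
    (h : ∀ i, IsIntegral R (Ideal.Quotient.mk L (X i))) :
    Module.Finite R (MvPolynomial (Fin n) R ⧸ L) := by
  have h1 := fg_adjoin_of_finite (Set.finite_range fun i => Ideal.Quotient.mk L (X i : MvPolynomial (Fin n) R))
    (by rintro _ ⟨i, rfl⟩; exact h i)
  have h2 : Algebra.adjoin R (Set.range fun i => Ideal.Quotient.mk L (X i : MvPolynomial (Fin n) R)) = ⊤ := by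
    have h3 : (Set.range fun i => Ideal.Quotient.mk L (X i : MvPolynomial (Fin n) R)) =
        (Ideal.Quotient.mkₐ R L) '' (Set.range (X : Fin n → MvPolynomial (Fin n) R)) := by
      rw [← Set.range_comp]; rfl
    rw [h3, ← AlgHom.map_adjoin, adjoin_range_X, Algebra.map_top, AlgHom.range_eq_top]
    exact Ideal.Quotient.mkₐ_surjective R L
  rw [h2, Algebra.top_toSubmodule] at h1
  exact ⟨h1⟩

theorem finite_quot_sq {n : ℕ} {R : Type} [CommRing R] {B : Type} [CommRing B] [Algebra R B]
    [Module.Finite R B] (b : Fin n → B) :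
    Module.Finite R (MvPolynomial (Fin n) R ⧸ (RingHom.ker (aeval (R := R) b)) ^ 2) := by
  apply finite_quot
  intro i
  obtain ⟨f, hf, hfb⟩ := Algebra.IsIntegral.isIntegral (R := R) (b i)
  refine ⟨f ^ 2, hf.pow 2, ?_⟩
  have h1 : Polynomial.aeval (X i : MvPolynomial (Fin n) R) f ∈ RingHom.ker (aeval (R := R) b) := by
    rw [RingHom.mem_ker, ← Polynomial.aeval_algHom_apply, aeval_X]
    exact hfb
  have h2 : (Polynomial.aeval (X i : MvPolynomial (Fin n) R) f) ^ 2 ∈
      (RingHom.ker (aeval (R := R) b)) ^ 2 := Ideal.pow_mem_pow h1 2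
  rw [← Ideal.Quotient.eq_zero_iff_mem] at h2
  rw [← Polynomial.aeval_def]
  have h3 : Polynomial.aeval (Ideal.Quotient.mk ((RingHom.ker (aeval (R := R) b)) ^ 2)
      (X i : MvPolynomial (Fin n) R)) (f ^ 2) =
      Ideal.Quotient.mk ((RingHom.ker (aeval (R := R) b)) ^ 2)
        ((Polynomial.aeval (X i : MvPolynomial (Fin n) R) f) ^ 2) := by
    have := Polynomial.aeval_algHom_apply (Ideal.Quotient.mkₐ R
      ((RingHom.ker (aeval (R := R) b)) ^ 2)) (X i : MvPolynomial (Fin n) R) (f ^ 2)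
    rw [map_pow (Polynomial.aeval (X i : MvPolynomial (Fin n) R))] at this
    exact this
  rw [h3, h2]

theorem core {n N : ℕ} {R : Type} [CommRing R] [Algebra ℂ R] (m : Ideal R) (hm : m ≠ ⊤)
    {B : Type} [CommRing B] [Algebra R B] [Module.Finite R B]
    (hc : ∀ r : R, ∃ c : ℂ, r - algebraMap ℂ R c ∈ m)
    (I : Ideal (MvPolynomial (Fin n) ℂ)) (b : Fin n → B)
    (h1 : ∀ β : B, ∃ p : MvPolynomial (Fin n) ℂ,
      β - aeval (R := R) b (map (algebraMap ℂ R) p) ∈ Ideal.map (algebraMap R B) m)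
    (h2 : ∀ g ∈ I, aeval (R := R) b (map (algebraMap ℂ R) g) ∈ Ideal.map (algebraMap R B) m)
    (u : Fin N → MvPolynomial (Fin n) ℂ)
    (hu : ∀ p, ∃ c : Fin N → ℂ, p - ∑ j, c j • u j ∈ I ^ 2)
    (K : Type) [Field K] [Algebra R K] (hK : Function.Injective (algebraMap R K)) :
    ∃ φ : MvPolynomial (Fin n) K →ₐ[K] (K ⊗[R] B), Function.Surjective φ ∧
      ∀ P, ∃ c : Fin N → K,
        P - ∑ j, c j • map (algebraMap R K) (map (algebraMap ℂ R) (u j)) ∈
          (RingHom.ker φ.toRingHom) ^ 2 := by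
  classical
  set J : Ideal (MvPolynomial (Fin n) R) := RingHom.ker (aeval (R := R) b) with hJ
  set MM : Ideal (MvPolynomial (Fin n) R) := Ideal.map (algebraMap R (MvPolynomial (Fin n) R)) m
    with hMM
  have hne : ∀ δ : R, δ - 1 ∈ m → algebraMap R K δ ≠ 0 := by
    intro δ hδ h0
    have h00 : δ = 0 := hK (by rw [h0, map_zero])
    rw [h00, zero_sub, neg_mem_iff] at hδ
    exact hm ((Ideal.eq_top_iff_one m).2 hδ)
  -- step 4
  obtain ⟨δ₁, hδ₁, hδ₁'⟩ := nak m (LinearMap.range (aeval (R := R) b).toLinearMap) (by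
    intro β
    obtain ⟨p, hp⟩ := h1 β
    exact ⟨aeval (R := R) b (map (algebraMap ℂ R) p), ⟨_, rfl⟩, (mem_smul_top _ _).2 hp⟩)
  have hδ₁'' : ∀ β : B, ∃ p : MvPolynomial (Fin n) R, aeval (R := R) b p = δ₁ • β := by
    intro β
    obtain ⟨p, hp⟩ := hδ₁' β
    exact ⟨p, hp⟩
  -- step 5
  have h5 : ∀ β ∈ (m • ⊤ : Submodule R B), ∃ q ∈ MM, aeval (R := R) b q = δ₁ • β := by
    intro β hβ
    refine Submodule.smul_induction_on hβ ?_ ?_
    · intro r hr β' _
      obtain ⟨p, hp⟩ := hδ₁'' β'
      refine ⟨algebraMap R _ r * p, Ideal.mul_mem_right _ _ (Ideal.mem_map_of_mem _ hr), ?_⟩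
      rw [← Algebra.smul_def, map_smul, hp, smul_comm]
    · rintro x y ⟨q, hq, hq'⟩ ⟨q', hq1, hq1'⟩
      exact ⟨q + q', add_mem hq hq1, by rw [map_add, hq', hq1', smul_add]⟩
  -- step 9
  have h9 : Ideal.map (map (algebraMap ℂ R)) I ≤ J ⊔ MM := by
    rw [Ideal.map_le_iff_le_comap]
    intro g hg
    obtain ⟨q, hq, hq'⟩ := h5 _ ((mem_smul_top _ _).2 (h2 g hg))
    rw [Ideal.mem_comap]
    have e : map (algebraMap ℂ R) g = (δ₁ • map (algebraMap ℂ R) g - q) +
        (q - algebraMap R _ (δ₁ - 1) * map (algebraMap ℂ R) g) := by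
      rw [map_sub, map_one, sub_mul, ← Algebra.smul_def]; ring
    rw [e]
    refine Submodule.add_mem_sup ?_ ?_
    · rw [hJ, RingHom.mem_ker, map_sub, map_smul, hq', sub_self]
    · exact sub_mem hq (Ideal.mul_mem_right _ _ (Ideal.mem_map_of_mem _ hδ₁))
  have h10 : Ideal.map (map (algebraMap ℂ R)) (I ^ 2) ≤ J ^ 2 ⊔ MM := by
    rw [Ideal.map_pow]
    refine (Ideal.pow_right_mono h9 2).trans ?_
    rw [pow_two, Ideal.sup_mul, Ideal.mul_sup, pow_two]
    refine sup_le (sup_le le_sup_left ?_) ?_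
    · exact le_sup_of_le_right Ideal.mul_le_right
    · exact le_sup_of_le_right Ideal.mul_le_left
  -- step 11
  have h11 : ∀ p : MvPolynomial (Fin n) R, ∃ p₀ : MvPolynomial (Fin n) ℂ,
      p - map (algebraMap ℂ R) p₀ ∈ MM := by
    intro p
    induction p using MvPolynomial.induction_on with
    | C r =>
      obtain ⟨c, hc⟩ := hc r
      refine ⟨C c, ?_⟩
      rw [map_C, ← C_sub, ← algebraMap_eq]
      exact Ideal.mem_map_of_mem _ hc
    | add p q hp hq =>
      obtain ⟨p₀, hp⟩ := hp
      obtain ⟨q₀, hq⟩ := hq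
      refine ⟨p₀ + q₀, ?_⟩
      have e : p + q - map (algebraMap ℂ R) (p₀ + q₀) =
        (p - map (algebraMap ℂ R) p₀) + (q - map (algebraMap ℂ R) q₀) := by rw [map_add]; ring
      rw [e]; exact add_mem hp hq
    | mul_X p i hp =>
      obtain ⟨p₀, hp⟩ := hp
      refine ⟨p₀ * X i, ?_⟩
      rw [map_mul, map_X, ← sub_mul]
      exact Ideal.mul_mem_right _ _ hp
  -- step 12
  set N2 : Submodule R (MvPolynomial (Fin n) R) :=
    Submodule.span R (Set.range fun j => map (algebraMap ℂ R) (u j)) ⊔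
      (J ^ 2).restrictScalars R with hN2
  haveI hfin0 : Module.Finite R (MvPolynomial (Fin n) R ⧸ J ^ 2) := finite_quot_sq b
  haveI hfin1 : Module.Finite R (MvPolynomial (Fin n) R ⧸ (J ^ 2).restrictScalars R) :=
    Module.Finite.equiv (Submodule.Quotient.restrictScalarsEquiv R (J ^ 2)).symm
  haveI hfin2 : Module.Finite R (MvPolynomial (Fin n) R ⧸ N2) := by
    have hle : (J ^ 2).restrictScalars R ≤ LinearMap.ker N2.mkQ := by
      rw [Submodule.ker_mkQ]; exact le_sup_right
    refine Module.Finite.of_surjective (((J ^ 2).restrictScalars R).liftQ N2.mkQ hle) ?_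
    intro z
    obtain ⟨x, rfl⟩ := N2.mkQ_surjective z
    exact ⟨Submodule.Quotient.mk x, rfl⟩
  obtain ⟨δ₂, hδ₂, hδ₂'⟩ := nak m N2 (by
    intro p
    obtain ⟨p₀, hp₀⟩ := h11 p
    obtain ⟨c, hc⟩ := hu p₀
    have h12 := h10 (Ideal.mem_map_of_mem (map (algebraMap ℂ R)) hc)
    obtain ⟨h, hh, μ, hμ, hhμ⟩ := Submodule.mem_sup.1 h12
    refine ⟨(∑ j, algebraMap ℂ R (c j) • map (algebraMap ℂ R) (u j)) + h,
      Submodule.add_mem_sup (Submodule.sum_mem _ fun j _ => Submodule.smul_mem _ _
        (Submodule.subset_span ⟨j, rfl⟩)) hh, ?_⟩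
    rw [mem_smul_top]
    have e : p - ((∑ j, algebraMap ℂ R (c j) • map (algebraMap ℂ R) (u j)) + h) =
        (p - map (algebraMap ℂ R) p₀) + μ := by
      have e1 : map (algebraMap ℂ R) (∑ j, c j • u j) =
          ∑ j, algebraMap ℂ R (c j) • map (algebraMap ℂ R) (u j) := by
        rw [map_sum]
        refine Finset.sum_congr rfl fun j _ => ?_
        rw [smul_eq_C_mul, map_mul, map_C, ← smul_eq_C_mul]
      rw [map_sub, e1] at hhμ
      have : μ = map (algebraMap ℂ R) p₀ -
        (∑ j, algebraMap ℂ R (c j) • map (algebraMap ℂ R) (u j)) - h := by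
        rw [← hhμ]; ring
      rw [this]; ring
    rw [e]
    exact add_mem hp₀ hμ)
  -- step 13
  set φ : MvPolynomial (Fin n) K →ₐ[K] (K ⊗[R] B) := aeval fun i => (1 : K) ⊗ₜ[R] b i with hφ
  have h13 : ∀ p : MvPolynomial (Fin n) R,
      φ (map (algebraMap R K) p) = (1 : K) ⊗ₜ[R] (aeval (R := R) b p) := by
    intro p
    induction p using MvPolynomial.induction_on with
    | C r =>
      have e1 : (algebraMap R K r) ⊗ₜ[R] (1 : B) = (1 : K) ⊗ₜ[R] (algebraMap R B r) := by
        rw [Algebra.algebraMap_eq_smul_one, Algebra.algebraMap_eq_smul_one,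
          TensorProduct.smul_tmul]
      rw [map_C, aeval_C, aeval_C, Algebra.TensorProduct.algebraMap_apply, ← e1]
      rfl
    | add p q hp hq => rw [map_add, map_add, hp, hq, map_add, TensorProduct.tmul_add]
    | mul_X p i hp =>
      rw [map_mul, map_mul, hp, map_X, map_mul, hφ, aeval_X, aeval_X,
        Algebra.TensorProduct.tmul_mul_tmul, one_mul]
  refine ⟨φ, ?_, ?_⟩
  · intro z
    induction z using TensorProduct.induction_on with
    | zero => exact ⟨0, map_zero _⟩
    | tmul c β =>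
      obtain ⟨p, hp⟩ := hδ₁'' β
      refine ⟨(c * (algebraMap R K δ₁)⁻¹) • map (algebraMap R K) p, ?_⟩
      rw [map_smul, h13, hp, TensorProduct.tmul_smul, ← algebraMap_smul K δ₁, smul_smul,
        mul_assoc, inv_mul_cancel₀ (hne δ₁ hδ₁), mul_one, TensorProduct.smul_tmul', smul_eq_mul,
        mul_one]
    | add x y hx hy =>
      obtain ⟨p, hp⟩ := hx
      obtain ⟨q, hq⟩ := hy
      exact ⟨p + q, by rw [map_add, hp, hq]⟩
  · set W : Submodule K (MvPolynomial (Fin n) K) :=
      Submodule.span K (Set.range fun j => map (algebraMap R K) (map (algebraMap ℂ R) (u j))) ⊔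
        ((RingHom.ker φ.toRingHom) ^ 2).restrictScalars K with hW
    have h14 : Ideal.map (map (algebraMap R K)) (J ^ 2) ≤ (RingHom.ker φ.toRingHom) ^ 2 := by
      rw [Ideal.map_pow]
      refine Ideal.pow_right_mono ?_ 2
      rw [Ideal.map_le_iff_le_comap]
      intro p hp
      rw [Ideal.mem_comap, RingHom.mem_ker]
      show φ _ = 0
      rw [h13, (RingHom.mem_ker).1 hp, TensorProduct.tmul_zero]
    have h15 : ∀ p : MvPolynomial (Fin n) R, map (algebraMap R K) p ∈ W := by
      intro p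
      have h16 : ∀ x ∈ N2, map (algebraMap R K) x ∈ W := by
        intro x hx
        obtain ⟨y, hy, z, hz, rfl⟩ := Submodule.mem_sup.1 hx
        rw [map_add]
        refine Submodule.add_mem_sup ?_ (h14 (Ideal.mem_map_of_mem _ hz))
        obtain ⟨c, rfl⟩ := (Submodule.mem_span_range_iff_exists_fun R).1 hy
        rw [map_sum]
        refine Submodule.sum_mem _ fun j _ => ?_
        rw [smul_eq_C_mul, map_mul, map_C, ← smul_eq_C_mul]
        exact Submodule.smul_mem _ _ (Submodule.subset_span ⟨j, rfl⟩)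
      have h17 := h16 _ (hδ₂' p)
      rw [smul_eq_C_mul, map_mul, map_C, ← smul_eq_C_mul] at h17
      have h18 := Submodule.smul_mem W (algebraMap R K δ₂)⁻¹ h17
      rwa [smul_smul, inv_mul_cancel₀ (hne δ₂ hδ₂), one_smul] at h18
    intro P
    have h19 : P ∈ W := by
      rw [← support_sum_monomial_coeff P]
      refine Submodule.sum_mem _ fun v _ => ?_
      have e : monomial v (coeff v P) =
          (coeff v P) • map (algebraMap R K) (monomial v (1 : R)) := by
        rw [map_monomial, map_one, smul_monomial, smul_eq_mul, mul_one]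
      rw [e]
      exact Submodule.smul_mem _ _ (h15 _)
    obtain ⟨y, hy, z, hz, hyz⟩ := Submodule.mem_sup.1 h19
    obtain ⟨c, rfl⟩ := (Submodule.mem_span_range_iff_exists_fun K).1 hy
    refine ⟨c, ?_⟩
    have : P - ∑ j, c j • map (algebraMap R K) (map (algebraMap ℂ R) (u j)) = z := by
      rw [← hyz]; ring
    rw [this]
    exact hz

/-- T1. -/
theorem surj_family {n : ℕ} (I : Ideal (MvPolynomial (Fin n) ℂ))
    [FiniteDimensional ℂ (MvPolynomial (Fin n) ℂ ⧸ I ^ 2)]
    {R : Type} [CommRing R] [IsDomain R] [Algebra ℂ R] (m : Ideal R) [m.IsMaximal]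
    {B : Type} [CommRing B] [Algebra R B] [Algebra ℂ B] [IsScalarTower ℂ R B]
    [Module.Free R B] [Module.Finite R B]
    (e : (B ⧸ Ideal.map (algebraMap R B) m) ≃ₐ[ℂ] (MvPolynomial (Fin n) ℂ ⧸ I)) :
    finrank ℂ (MvPolynomial (Fin n) ℂ ⧸ I) ≤ finrank R B ∧
    ∃ φ : MvPolynomial (Fin n) (FractionRing R) →ₐ[FractionRing R] (FractionRing R ⊗[R] B),
      Function.Surjective φ ∧
      Module.Finite (FractionRing R) (MvPolynomial (Fin n) (FractionRing R) ⧸
        (RingHom.ker φ.toRingHom) ^ 2) ∧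
      finrank (FractionRing R) (MvPolynomial (Fin n) (FractionRing R) ⧸
        (RingHom.ker φ.toRingHom) ^ 2) ≤ finrank ℂ (MvPolynomial (Fin n) ℂ ⧸ I ^ 2) := by
  classical
  have hmt : m ≠ ⊤ := Ideal.IsMaximal.ne_top inferInstance
  rcases subsingleton_or_nontrivial (B ⧸ Ideal.map (algebraMap R B) m) with hs | hs
  · -- trivial case
    have htop : Ideal.map (algebraMap R B) m = ⊤ := Ideal.Quotient.subsingleton_iff.1 hs
    obtain ⟨δ, hδ, hδ'⟩ := nak m (⊥ : Submodule R B) (fun x => ⟨0, Submodule.zero_mem _, by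
      rw [mem_smul_top, htop]; trivial⟩)
    have hδ0 : δ ≠ 0 := by
      rintro rfl
      rw [zero_sub, neg_mem_iff] at hδ
      exact hmt ((Ideal.eq_top_iff_one m).2 hδ)
    have hB0 : ∀ x : B, x = 0 := by
      intro x
      have h := hδ' x
      rw [Submodule.mem_bot, smul_eq_zero] at h
      exact h.resolve_left hδ0
    have hB : Subsingleton B := ⟨fun x y => by rw [hB0 x, hB0 y]⟩
    have hSI : Subsingleton (MvPolynomial (Fin n) ℂ ⧸ I) := e.symm.toEquiv.subsingleton
    have hKB : Subsingleton (FractionRing R ⊗[R] B) := by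
      apply subsingleton_of_zero_eq_one
      rw [Algebra.TensorProduct.one_def, hB0 1, TensorProduct.tmul_zero]
    refine ⟨?_, aeval (fun _ => 0), fun z => ⟨0, Subsingleton.elim _ _⟩, ?_⟩
    · rw [Module.finrank_zero_of_subsingleton]; exact Nat.zero_le _
    · set φ : MvPolynomial (Fin n) (FractionRing R) →ₐ[FractionRing R] (FractionRing R ⊗[R] B) :=
        aeval (fun _ => 0)
      have hker : (RingHom.ker φ.toRingHom) ^ 2 = ⊤ := by
        have : RingHom.ker φ.toRingHom = ⊤ := by
          rw [Ideal.eq_top_iff_one, RingHom.mem_ker]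
          exact Subsingleton.elim _ _
        rw [this, Ideal.top_pow]
      have hsub : Subsingleton (MvPolynomial (Fin n) (FractionRing R) ⧸
          (RingHom.ker φ.toRingHom) ^ 2) := Ideal.Quotient.subsingleton_iff.2 hker
      refine ⟨inferInstance, ?_⟩
      rw [Module.finrank_zero_of_subsingleton]; exact Nat.zero_le _
  · haveI hfd : Module.Finite ℂ (MvPolynomial (Fin n) ℂ ⧸ I) :=
      Module.Finite.of_surjective
        (Ideal.Quotient.factorₐ ℂ (Ideal.pow_le_self two_ne_zero : I ^ 2 ≤ I)).toLinearMap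
        (Ideal.Quotient.factor_surjective (Ideal.pow_le_self two_ne_zero : I ^ 2 ≤ I))
    haveI hfd2 : Module.Finite ℂ (B ⧸ Ideal.map (algebraMap R B) m) :=
      Module.Finite.equiv e.symm.toLinearEquiv
    have hc := exists_const m (B := B)
    refine ⟨?_, ?_⟩
    · rw [← e.toLinearEquiv.finrank_eq]
      exact finrank_fibre m hc
    · choose b hb using fun i : Fin n =>
        Ideal.Quotient.mk_surjective (e.symm (Ideal.Quotient.mk I (X i)))
      have hkey : ∀ p : MvPolynomial (Fin n) ℂ,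
          e (Ideal.Quotient.mk (Ideal.map (algebraMap R B) m) (aeval (R := ℂ) b p)) =
            Ideal.Quotient.mk I p := by
        have h : (e : (B ⧸ Ideal.map (algebraMap R B) m) →ₐ[ℂ] (MvPolynomial (Fin n) ℂ ⧸ I)).comp
            ((Ideal.Quotient.mkₐ ℂ (Ideal.map (algebraMap R B) m)).comp (aeval (R := ℂ) b)) =
            Ideal.Quotient.mkₐ ℂ I := by
          apply MvPolynomial.algHom_ext
          intro i
          show e (Ideal.Quotient.mk (Ideal.map (algebraMap R B) m) (aeval (R := ℂ) b (X i))) = _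
          rw [aeval_X, hb, AlgEquiv.apply_symm_apply]
          rfl
        intro p
        exact DFunLike.congr_fun h p
      have hmap : ∀ p : MvPolynomial (Fin n) ℂ,
          aeval (R := R) b (map (algebraMap ℂ R) p) = aeval (R := ℂ) b p :=
        fun p => aeval_map_algebraMap R b p
      have h1 : ∀ β : B, ∃ p : MvPolynomial (Fin n) ℂ,
          β - aeval (R := R) b (map (algebraMap ℂ R) p) ∈ Ideal.map (algebraMap R B) m := by
        intro β
        obtain ⟨p, hp⟩ := Ideal.Quotient.mk_surjective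
          (e (Ideal.Quotient.mk (Ideal.map (algebraMap R B) m) β))
        refine ⟨p, ?_⟩
        rw [hmap, ← Ideal.Quotient.mk_eq_mk_iff_sub_mem]
        apply e.injective
        rw [hkey, hp]
      have h2 : ∀ g ∈ I,
          aeval (R := R) b (map (algebraMap ℂ R) g) ∈ Ideal.map (algebraMap R B) m := by
        intro g hg
        rw [hmap, ← Ideal.Quotient.eq_zero_iff_mem]
        apply e.injective
        rw [hkey, map_zero, Ideal.Quotient.eq_zero_iff_mem]
        exact hg
      set β := Module.finBasis ℂ (MvPolynomial (Fin n) ℂ ⧸ I ^ 2) with hβ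
      choose u hu using fun j => Ideal.Quotient.mk_surjective (β j)
      have hu' : ∀ p, ∃ c : Fin (finrank ℂ (MvPolynomial (Fin n) ℂ ⧸ I ^ 2)) → ℂ,
          p - ∑ j, c j • u j ∈ I ^ 2 := by
        intro p
        refine ⟨fun j => β.repr (Ideal.Quotient.mk (I ^ 2) p) j, ?_⟩
        rw [← Ideal.Quotient.mk_eq_mk_iff_sub_mem, map_sum]
        conv_lhs => rw [← β.sum_repr (Ideal.Quotient.mk (I ^ 2) p)]
        refine Finset.sum_congr rfl fun j _ => ?_
        rw [← hu j]
        rfl
      obtain ⟨φ, hφ, hφ'⟩ := core m hmt hc I b h1 h2 u hu' (FractionRing R)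
        (IsFractionRing.injective R (FractionRing R))
      refine ⟨φ, hφ, ?_⟩
      let L : (Fin (finrank ℂ (MvPolynomial (Fin n) ℂ ⧸ I ^ 2)) → FractionRing R)
          →ₗ[FractionRing R] (MvPolynomial (Fin n) (FractionRing R) ⧸
            (RingHom.ker φ.toRingHom) ^ 2) :=
        Fintype.linearCombination (FractionRing R) fun j =>
          Ideal.Quotient.mk ((RingHom.ker φ.toRingHom) ^ 2)
            (map (algebraMap R (FractionRing R)) (map (algebraMap ℂ R) (u j)))
      have hL : Function.Surjective L := by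
        intro z
        obtain ⟨P, rfl⟩ := Ideal.Quotient.mk_surjective z
        obtain ⟨c, hc⟩ := hφ' P
        refine ⟨c, ?_⟩
        rw [← Ideal.Quotient.mk_eq_mk_iff_sub_mem] at hc
        rw [hc, map_sum]
        show ∑ j, c j • Ideal.Quotient.mk ((RingHom.ker φ.toRingHom) ^ 2)
            (map (algebraMap R (FractionRing R)) (map (algebraMap ℂ R) (u j))) = _
        rfl
      refine ⟨Module.Finite.of_surjective L hL, ?_⟩
      have := LinearMap.finrank_le_finrank_of_surjective hL
      rwa [Module.finrank_fin_fun] at this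

end Pool.Agent.H750R2.Smo.T1
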