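import Pool.Agent.H750R2.Smo.Defs2
import Pool.Agent.H750R2.Smo.T3
import Pool.Agent.H750R2.Smo.T4

/-! Task 10: `S / Ann F` is a local ring. -/

set_option autoImplicit false

open MvPolynomial Module

namespace Pool.Agent.H750R2.Smo.T10

/-- all variables are nilpotent modulo `Ann F` -/
lemma nil_X (i : Fin 6) :
    IsNilpotent (Ideal.Quotient.mk (annIdeal F) (X i : MvPolynomial (Fin 6) ℂ)) := by
  set I := annIdeal F with hI
  have h3 : (X 1 ^ 2 : MvPolynomial (Fin 6) ℂ) ∈ I := T3.g_mem 3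
  have h6 : (X 4 ^ 2 : MvPolynomial (Fin 6) ℂ) ∈ I := T3.g_mem 6
  have h7 : (X 5 ^ 2 : MvPolynomial (Fin 6) ℂ) ∈ I := T3.g_mem 7
  have h12 : (X 2 ^ 2 - X 4 * X 5 : MvPolynomial (Fin 6) ℂ) ∈ I := T3.g_mem 12
  have h13 : (X 2 * X 5 - X 3 ^ 2 : MvPolynomial (Fin 6) ℂ) ∈ I := T3.g_mem 13
  have h14 : (X 1 * X 4 - X 0 ^ 3 : MvPolynomial (Fin 6) ℂ) ∈ I := T3.g_mem 14
  have key : ∀ (i : Fin 6) (k : ℕ), (X i ^ k : MvPolynomial (Fin 6) ℂ) ∈ I →
      IsNilpotent (Ideal.Quotient.mk I (X i : MvPolynomial (Fin 6) ℂ)) := by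
    intro i k hk
    refine ⟨k, ?_⟩
    rw [← map_pow, Ideal.Quotient.eq_zero_iff_mem]
    exact hk
  fin_cases i
  · refine key 0 6 ?_
    have e : (X 0 ^ 6 : MvPolynomial (Fin 6) ℂ) =
        X 4 ^ 2 * X 1 ^ 2 - (X 1 * X 4 + X 0 ^ 3) * (X 1 * X 4 - X 0 ^ 3) := by ring
    rw [e]
    exact I.sub_mem (I.mul_mem_left _ h3) (I.mul_mem_left _ h14)
  · exact key 1 2 h3
  · refine key 2 4 ?_
    have e : (X 2 ^ 4 : MvPolynomial (Fin 6) ℂ) =
        X 5 ^ 2 * X 4 ^ 2 + (X 2 ^ 2 + X 4 * X 5) * (X 2 ^ 2 - X 4 * X 5) := by ring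
    rw [e]
    exact I.add_mem (I.mul_mem_left _ h6) (I.mul_mem_left _ h12)
  · refine key 3 4 ?_
    have e : (X 3 ^ 4 : MvPolynomial (Fin 6) ℂ) =
        X 2 ^ 2 * X 5 ^ 2 - (X 2 * X 5 + X 3 ^ 2) * (X 2 * X 5 - X 3 ^ 2) := by ring
    rw [e]
    exact I.sub_mem (I.mul_mem_left _ h7) (I.mul_mem_left _ h13)
  · exact key 4 2 h6
  · exact key 5 2 h7

/-- a polynomial without constant term is nilpotent modulo `Ann F` -/
lemma nil_sub (p : MvPolynomial (Fin 6) ℂ) :
    IsNilpotent (Ideal.Quotient.mk (annIdeal F) (p - C (constantCoeff p))) := by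
  rw [← mem_nilradical]
  induction p using MvPolynomial.induction_on with
  | C a => simp
  | add p q hp hq =>
    have e : p + q - C (constantCoeff (p + q)) =
        (p - C (constantCoeff p)) + (q - C (constantCoeff q)) := by
      rw [map_add, map_add]; ring
    rw [e, map_add]
    exact Ideal.add_mem _ hp hq
  | mul_X p i hp =>
    have e : p * X i - C (constantCoeff (p * X i)) = p * X i := by
      rw [map_mul, constantCoeff_X, mul_zero, map_zero, sub_zero]
    rw [e, map_mul]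
    exact Ideal.mul_mem_left _ _ (mem_nilradical.mpr (nil_X i))

/-- T10. -/
theorem isLocal : IsLocalRing (MvPolynomial (Fin 6) ℂ ⧸ annIdeal F) := by
  have hnt : Nontrivial (MvPolynomial (Fin 6) ℂ ⧸ annIdeal F) := by
    by_contra h
    rw [not_nontrivial_iff_subsingleton] at h
    have h2 := T4.finrank_ge
    rw [Module.finrank_zero_of_subsingleton] at h2
    omega
  refine IsLocalRing.of_isUnit_or_isUnit_one_sub_self fun a => ?_
  obtain ⟨p, rfl⟩ := Ideal.Quotient.mk_surjective a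
  have hn := nil_sub p
  by_cases hc : constantCoeff p = 0
  · right
    rw [hc, map_zero, sub_zero] at hn
    exact hn.isUnit_one_sub
  · left
    have e : Ideal.Quotient.mk (annIdeal F) p =
        Ideal.Quotient.mk (annIdeal F) (p - C (constantCoeff p)) +
          Ideal.Quotient.mk (annIdeal F) (C (constantCoeff p)) := by
      rw [← map_add, sub_add_cancel]
    rw [e]
    refine IsNilpotent.isUnit_add_right_of_commute hn ?_ (Commute.all _ _)
    refine IsUnit.map _ ?_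
    exact IsUnit.map _ (isUnit_iff_ne_zero.mpr hc)

end Pool.Agent.H750R2.Smo.T10
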