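import Pool.Agent.H750R2.Smo.Defs2
import Pool.Agent.H750R2.Smo.T4

open MvPolynomial Module

namespace Pool.Agent.H750R2.Smo.T11

open Pool.Agent.H750R2.Smo.T4

/-- the quotient map -/
noncomputable abbrev q : MvPolynomial (Fin 6) ℂ →+* MvPolynomial (Fin 6) ℂ ⧸ annIdeal F :=
  Ideal.Quotient.mk (annIdeal F)

lemma q_zero (p : MvPolynomial (Fin 6) ℂ) : q p = 0 ↔ L F p = 0 := by
  rw [Ideal.Quotient.eq_zero_iff_mem, mem_annIdeal]

lemma ff_le : ∀ (k : Fin 6) (i : Fin 6), ff k i ≤ 4 := by decide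

lemma ff_zero : ∀ (k : Fin 6), k ≠ 0 → ff k 0 ≤ 1 := by decide

lemma coeff_F' (β : Fin 6 →₀ ℕ) : coeff β F = ∑ k, if E (ff k) = β then (1:ℂ) else 0 := by
  rw [F_eq, coeff_sum]
  refine Finset.sum_congr rfl fun k _ => ?_
  rw [coeff_monomial]

lemma L_X5 (i : Fin 6) : L F (X i ^ 5) = 0 := by
  rw [X_pow_eq_monomial, L_monomial, one_smul]
  ext μ
  rw [coeff_divMonomial, coeff_F', coeff_zero]
  refine Finset.sum_eq_zero fun k _ => ?_
  rw [if_neg]
  intro h
  have h1 := DFunLike.congr_fun h i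
  have h2 := ff_le k i
  have h3 : (E (ff k)) i = ff k i := rfl
  rw [h3, Finsupp.add_apply, Finsupp.single_apply, if_pos rfl] at h1
  omega

lemma L_X4 : L F (X 0 ^ 4) = 1 := by
  classical
  rw [X_pow_eq_monomial, L_monomial, one_smul]
  ext μ
  rw [coeff_divMonomial, coeff_F', coeff_one]
  rw [Finset.sum_eq_single 0]
  · have h0 : E (ff 0) = Finsupp.single 0 4 := by
      ext i; fin_cases i <;> simp [E, ff]
    rw [h0]
    have : (Finsupp.single (0 : Fin 6) 4 = Finsupp.single 0 4 + μ) ↔ (0 = μ) := by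
      constructor
      · intro h
        have := left_eq_add.1 h
        exact this.symm
      · intro h
        rw [← h, add_zero]
    simp only [this]
  · intro k _ hk
    rw [if_neg]
    intro h
    have h1 := DFunLike.congr_fun h 0
    have h2 := ff_zero k hk
    have h3 : (E (ff k)) 0 = ff k 0 := rfl
    rw [h3, Finsupp.add_apply, Finsupp.single_apply, if_pos rfl] at h1
    omega
  · intro h
    exact absurd (Finset.mem_univ _) h

lemma nil_X (i : Fin 6) : q (X i) ∈ nilradical (MvPolynomial (Fin 6) ℂ ⧸ annIdeal F) := by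
  rw [mem_nilradical]
  refine ⟨5, ?_⟩
  rw [← map_pow, q_zero, L_X5]

lemma nil_of (p : MvPolynomial (Fin 6) ℂ) (hp : coeff 0 p = 0) :
    q p ∈ nilradical (MvPolynomial (Fin 6) ℂ ⧸ annIdeal F) := by
  rw [← Ideal.mem_comap, ← support_sum_monomial_coeff p]
  refine Ideal.sum_mem _ fun α hα => ?_
  have hα0 : α ≠ 0 := by
    rintro rfl
    exact (mem_support_iff.1 hα) hp
  obtain ⟨i, hi⟩ : ∃ i, α i ≠ 0 := by
    by_contra hcon
    push Not at hcon
    exact hα0 (Finsupp.ext hcon)
  have hX : (X i : MvPolynomial (Fin 6) ℂ) ∣ monomial α (coeff α p) :=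
    X_dvd_monomial.2 (Or.inr hi)
  exact Ideal.mem_of_dvd _ hX (Ideal.mem_comap.2 (nil_X i))

lemma nontriv : Nontrivial (MvPolynomial (Fin 6) ℂ ⧸ annIdeal F) := by
  refine ⟨q (X 0 ^ 4), 0, ?_⟩
  rw [Ne, q_zero, L_X4]
  exact one_ne_zero

/-- the constant coefficient of a non-unit is zero -/
lemma const_of_not_unit (p : MvPolynomial (Fin 6) ℂ) (hp : ¬ IsUnit (q p)) : coeff 0 p = 0 := by
  by_contra hc
  apply hp
  have h1 : q (p - C (coeff 0 p)) ∈ nilradical (MvPolynomial (Fin 6) ℂ ⧸ annIdeal F) := by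
    apply nil_of
    rw [coeff_sub, coeff_C, if_pos rfl, sub_self]
  rw [mem_nilradical] at h1
  have h2 : IsUnit (q (C (coeff 0 p))) := (IsUnit.map C (Ne.isUnit hc)).map q
  have h3 := h1.isUnit_add_left_of_commute h2 (Commute.all _ _)
  rw [← map_add] at h3
  have h4 : C (coeff 0 p) + (p - C (coeff 0 p)) = p := by ring
  rwa [h4] at h3

lemma L_one (p : MvPolynomial (Fin 6) ℂ) : L 1 p = C (coeff 0 p) := by
  induction p using MvPolynomial.induction_on' with
  | monomial a c =>
    classical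
    rw [L_monomial]
    ext μ
    rw [coeff_smul, coeff_divMonomial, coeff_one, coeff_C, coeff_monomial]
    by_cases ha : a = 0
    · subst ha
      rw [zero_add, if_pos rfl]
      by_cases hμ : 0 = μ
      · rw [if_pos hμ, if_pos hμ]; simp
      · rw [if_neg hμ, if_neg hμ]; simp
    · rw [if_neg ha]
      have : ¬ (0 = a + μ) := by
        intro h
        apply ha
        have := h.symm
        rw [add_eq_zero] at this
        exact this.1
      rw [if_neg this]
      simp
  | add p r hp hr => rw [map_add, hp, hr, coeff_add, map_add]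

/-- T11. -/
theorem finrank_socle : finrank ℂ (socle (MvPolynomial (Fin 6) ℂ ⧸ annIdeal F)) = 1 := by
  have hv : q (X 0 ^ 4) ∈ socle (MvPolynomial (Fin 6) ℂ ⧸ annIdeal F) := by
    intro x hx
    obtain ⟨p, rfl⟩ := Ideal.Quotient.mk_surjective x
    have h0 := const_of_not_unit p hx
    show q p * q (X 0 ^ 4) = 0
    rw [← map_mul, q_zero, L_mul, L_X4, L_one, h0, map_zero]
  refine finrank_eq_one (⟨q (X 0 ^ 4), hv⟩ : socle (MvPolynomial (Fin 6) ℂ ⧸ annIdeal F)) ?_ ?_
  · intro h
    have h1 : q (X 0 ^ 4) = 0 := congrArg Subtype.val h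
    rw [q_zero, L_X4] at h1
    exact one_ne_zero h1
  · rintro ⟨w, hw⟩
    obtain ⟨g, rfl⟩ := Ideal.Quotient.mk_surjective w
    have hX : ∀ i, (L F g).divMonomial (Finsupp.single i 1) = 0 := by
      intro i
      have hnu : ¬ IsUnit (q (X i)) := by
        intro hu
        have hn := nil_X i
        rw [mem_nilradical] at hn
        have := nontriv
        exact hn.not_isUnit hu
      have h1 : q (X i) * q g = 0 := hw _ hnu
      rw [← map_mul, q_zero, L_mul, X, L_monomial, one_smul] at h1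
      exact h1
    have hC : L F g = C (coeff 0 (L F g)) := by
      ext μ
      rw [coeff_C]
      split_ifs with h
      · rw [← h]
      · obtain ⟨i, hi⟩ : ∃ i, μ i ≠ 0 := by
          by_contra hcon
          push Not at hcon
          exact h (Finsupp.ext fun i => (hcon i).symm)
        have h2 : μ = Finsupp.single i 1 + (μ - Finsupp.single i 1) := by
          rw [add_tsub_cancel_of_le]
          rw [Finsupp.single_le_iff]
          omega
        rw [h2, ← coeff_divMonomial, hX, coeff_zero]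
    refine ⟨coeff 0 (L F g), ?_⟩
    apply Subtype.ext
    show coeff 0 (L F g) • q (X 0 ^ 4) = q g
    have h3 : coeff 0 (L F g) • q (X 0 ^ 4) = q (coeff 0 (L F g) • X 0 ^ 4) := rfl
    rw [h3, ← sub_eq_zero, ← map_sub, q_zero, map_sub, map_smul, L_X4]
    nth_rw 2 [hC]
    rw [smul_eq_C_mul, mul_one, sub_self]

end Pool.Agent.H750R2.Smo.T11
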