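import Pool.Agent.H750R2.Smo.Defs

open MvPolynomial Module

namespace Pool.Agent.H750R2.Smo.T5

/-- Monomials of `ℂ[X₀, …, X₅]`. -/
noncomputable def mo (t : ℕ × ℕ × ℕ × ℕ × ℕ × ℕ) : MvPolynomial (Fin 6) ℂ :=
  X 0 ^ t.1 * X 1 ^ t.2.1 * X 2 ^ t.2.2.1 * X 3 ^ t.2.2.2.1 * X 4 ^ t.2.2.2.2.1 *
    X 5 ^ t.2.2.2.2.2

/-- The standard monomials. -/
def std : List (ℕ × ℕ × ℕ × ℕ × ℕ × ℕ) :=
  [
   (0, 0, 0, 0, 0, 0), (1, 0, 0, 0, 0, 0), (0, 0, 0, 0, 0, 1), (0, 0, 0, 1, 0, 0),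
   (0, 0, 1, 0, 0, 0), (0, 0, 0, 0, 1, 0), (0, 1, 0, 0, 0, 0), (2, 0, 0, 0, 0, 0),
   (1, 0, 0, 0, 0, 1), (1, 0, 0, 1, 0, 0), (1, 0, 1, 0, 0, 0), (0, 0, 0, 0, 0, 2),
   (0, 0, 0, 1, 0, 1), (1, 0, 0, 0, 1, 0), (0, 0, 0, 2, 0, 0), (0, 0, 1, 0, 0, 1),
   (1, 1, 0, 0, 0, 0), (0, 0, 1, 1, 0, 0), (0, 0, 0, 0, 1, 1), (0, 0, 2, 0, 0, 0),
   (0, 0, 0, 1, 1, 0), (0, 1, 0, 0, 0, 1), (0, 0, 1, 0, 1, 0), (0, 1, 0, 1, 0, 0),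
   (0, 1, 1, 0, 0, 0), (0, 0, 0, 0, 2, 0), (3, 0, 0, 0, 0, 0), (0, 1, 0, 0, 1, 0),
   (0, 2, 0, 0, 0, 0), (2, 0, 0, 0, 0, 1), (2, 0, 0, 1, 0, 0), (2, 0, 1, 0, 0, 0),
   (1, 0, 0, 0, 0, 2), (1, 0, 0, 1, 0, 1), (2, 0, 0, 0, 1, 0), (1, 0, 0, 2, 0, 0),
   (1, 0, 1, 0, 0, 1), (2, 1, 0, 0, 0, 0), (0, 0, 0, 0, 0, 3), (1, 0, 1, 1, 0, 0),
   (0, 0, 0, 1, 0, 2), (1, 0, 0, 0, 1, 1), (1, 0, 2, 0, 0, 0), (0, 0, 0, 2, 0, 1),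
   (0, 0, 1, 0, 0, 2), (1, 0, 0, 1, 1, 0), (1, 1, 0, 0, 0, 1), (0, 0, 0, 3, 0, 0),
   (0, 0, 1, 1, 0, 1), (1, 0, 1, 0, 1, 0), (1, 1, 0, 1, 0, 0), (0, 0, 0, 0, 1, 2),
   (0, 0, 1, 2, 0, 0), (0, 0, 2, 0, 0, 1), (1, 1, 1, 0, 0, 0), (0, 0, 0, 1, 1, 1),
   (0, 0, 2, 1, 0, 0), (0, 1, 0, 0, 0, 2), (1, 0, 0, 0, 2, 0), (4, 0, 0, 0, 0, 0),
   (0, 0, 0, 2, 1, 0), (0, 0, 1, 0, 1, 1), (0, 0, 3, 0, 0, 0), (0, 1, 0, 1, 0, 1),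
   (1, 1, 0, 0, 1, 0), (0, 0, 1, 1, 1, 0), (0, 1, 0, 2, 0, 0), (0, 1, 1, 0, 0, 1),
   (1, 2, 0, 0, 0, 0), (0, 0, 0, 0, 2, 1), (0, 0, 2, 0, 1, 0), (0, 1, 1, 1, 0, 0),
   (3, 0, 0, 0, 0, 1), (0, 0, 0, 1, 2, 0), (0, 1, 0, 0, 1, 1), (0, 1, 2, 0, 0, 0),
   (3, 0, 0, 1, 0, 0), (0, 0, 1, 0, 2, 0), (0, 1, 0, 1, 1, 0), (0, 2, 0, 0, 0, 1),
   (3, 0, 1, 0, 0, 0), (0, 1, 1, 0, 1, 0), (0, 2, 0, 1, 0, 0), (0, 0, 0, 0, 3, 0),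
   (0, 2, 1, 0, 0, 0), (3, 0, 0, 0, 1, 0), (0, 1, 0, 0, 2, 0), (3, 1, 0, 0, 0, 0),
   (0, 2, 0, 0, 1, 0), (0, 3, 0, 0, 0, 0), (5, 0, 0, 0, 0, 0), (2, 1, 0, 0, 1, 0),
   (1, 1, 0, 0, 1, 1), (1, 1, 0, 1, 1, 0), (1, 1, 1, 0, 1, 0), (1, 1, 0, 0, 2, 0),
   (1, 2, 0, 0, 1, 0)]

/-- The span of the standard monomials and `J ^ 2`. -/
noncomputable def V : Submodule ℂ (MvPolynomial (Fin 6) ℂ) :=
  Submodule.span ℂ (mo '' {t | t ∈ std}) ⊔ (J ^ 2).restrictScalars ℂ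

theorem sm (t : ℕ × ℕ × ℕ × ℕ × ℕ × ℕ) (h : t ∈ std) : mo t ∈ V :=
  Submodule.mem_sup_left (Submodule.subset_span ⟨t, h, rfl⟩)

theorem gm (i : Fin 15) : g i ∈ J := Ideal.subset_span ⟨i, rfl⟩

theorem gg (i j : Fin 15) (q : ℕ × ℕ × ℕ × ℕ × ℕ × ℕ) : mo q * (g i * g j) ∈ V :=
  Submodule.mem_sup_right (by
    rw [Submodule.restrictScalars_mem, pow_two]
    exact Ideal.mul_mem_left _ _ (Ideal.mul_mem_mul (gm i) (gm j)))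

theorem zs (c : ℤ) {x : MvPolynomial (Fin 6) ℂ} (h : x ∈ V) : c • x ∈ V := zsmul_mem h c

theorem mem_of (D : ℤ) (hD : D ≠ 0) {u x : MvPolynomial (Fin 6) ℂ} (hx : x ∈ V)
    (h : D • u = x) : u ∈ V := by
  have h1 : ((D : ℂ)⁻¹ * (D : ℂ)) • u ∈ V := by
    rw [mul_smul, Int.cast_smul_eq_zsmul, h]
    exact V.smul_mem _ hx
  rwa [inv_mul_cancel₀ (Int.cast_ne_zero.mpr hD), one_smul] at h1

theorem g0 : g 0 = X 0 * X 2 := rfl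
theorem g1 : g 1 = X 0 * X 3 := rfl
theorem g2 : g 2 = X 0 * X 5 := rfl
theorem g3 : g 3 = X 1 ^ 2 := rfl
theorem g4 : g 4 = X 1 * X 2 := rfl
theorem g5 : g 5 = X 2 * X 3 := rfl
theorem g6 : g 6 = X 4 ^ 2 := rfl
theorem g7 : g 7 = X 5 ^ 2 := rfl
theorem g8 : g 8 = X 0 * X 1 - X 3 ^ 2 := rfl
theorem g9 : g 9 = X 0 * X 4 - X 3 * X 5 := rfl
theorem g10 : g 10 = X 1 * X 3 - X 2 * X 4 := rfl
theorem g11 : g 11 = X 1 * X 5 - X 3 * X 4 := rfl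
theorem g12 : g 12 = X 2 ^ 2 - X 4 * X 5 := rfl
theorem g13 : g 13 = X 2 * X 5 - X 3 ^ 2 := rfl
theorem g14 : g 14 = X 1 * X 4 - X 0 ^ 3 := rfl

theorem s0 : mo (2, 0, 0, 0, 0, 2) ∈ V :=
  mem_of 1 (by decide) (x := (1 : ℤ) • (mo (0, 0, 0, 0, 0, 0) * (g 2 * g 2)))
    (zs (1) (gg 2 2 (0, 0, 0, 0, 0, 0)))
    (by simp only [mo, g2, zsmul_eq_mul]; push_cast; ring)

theorem s1 : mo (2, 0, 0, 1, 0, 1) ∈ V :=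
  mem_of 1 (by decide) (x := (1 : ℤ) • (mo (0, 0, 0, 0, 0, 0) * (g 1 * g 2)))
    (zs (1) (gg 1 2 (0, 0, 0, 0, 0, 0)))
    (by simp only [mo, g1, g2, zsmul_eq_mul]; push_cast; ring)

theorem s2 : mo (2, 0, 1, 0, 0, 1) ∈ V :=
  mem_of 1 (by decide) (x := (1 : ℤ) • (mo (0, 0, 0, 0, 0, 0) * (g 0 * g 2)))
    (zs (1) (gg 0 2 (0, 0, 0, 0, 0, 0)))
    (by simp only [mo, g0, g2, zsmul_eq_mul]; push_cast; ring)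

theorem s3 : mo (2, 0, 0, 2, 0, 0) ∈ V :=
  mem_of 1 (by decide) (x := (1 : ℤ) • (mo (0, 0, 0, 0, 0, 0) * (g 1 * g 1)))
    (zs (1) (gg 1 1 (0, 0, 0, 0, 0, 0)))
    (by simp only [mo, g1, zsmul_eq_mul]; push_cast; ring)

theorem s4 : mo (2, 0, 1, 1, 0, 0) ∈ V :=
  mem_of 1 (by decide) (x := (1 : ℤ) • (mo (0, 0, 0, 0, 0, 0) * (g 0 * g 1)))
    (zs (1) (gg 0 1 (0, 0, 0, 0, 0, 0)))
    (by simp only [mo, g0, g1, zsmul_eq_mul]; push_cast; ring)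

theorem s5 : mo (1, 0, 0, 0, 0, 3) ∈ V :=
  mem_of 1 (by decide) (x := (1 : ℤ) • (mo (0, 0, 0, 0, 0, 0) * (g 2 * g 7)))
    (zs (1) (gg 2 7 (0, 0, 0, 0, 0, 0)))
    (by simp only [mo, g2, g7, zsmul_eq_mul]; push_cast; ring)

theorem s6 : mo (2, 0, 2, 0, 0, 0) ∈ V :=
  mem_of 1 (by decide) (x := (1 : ℤ) • (mo (0, 0, 0, 0, 0, 0) * (g 0 * g 0)))
    (zs (1) (gg 0 0 (0, 0, 0, 0, 0, 0)))
    (by simp only [mo, g0, zsmul_eq_mul]; push_cast; ring)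

theorem s7 : mo (1, 0, 0, 1, 0, 2) ∈ V :=
  mem_of 1 (by decide) (x := (1 : ℤ) • (mo (0, 0, 0, 0, 0, 0) * (g 1 * g 7)))
    (zs (1) (gg 1 7 (0, 0, 0, 0, 0, 0)))
    (by simp only [mo, g1, g7, zsmul_eq_mul]; push_cast; ring)

theorem s8 : mo (2, 0, 0, 0, 1, 1) ∈ V :=
  mem_of 1 (by decide) (x := (1 : ℤ) • mo (1, 0, 0, 1, 0, 2)
      + (1 : ℤ) • (mo (0, 0, 0, 0, 0, 0) * (g 2 * g 9)))
    (add_mem (zs (1) s7)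
      (zs (1) (gg 2 9 (0, 0, 0, 0, 0, 0))))
    (by simp only [mo, g2, g9, zsmul_eq_mul]; push_cast; ring)

theorem s9 : mo (1, 0, 1, 0, 0, 2) ∈ V :=
  mem_of 1 (by decide) (x := (1 : ℤ) • (mo (0, 0, 0, 0, 0, 0) * (g 0 * g 7)))
    (zs (1) (gg 0 7 (0, 0, 0, 0, 0, 0)))
    (by simp only [mo, g0, g7, zsmul_eq_mul]; push_cast; ring)

theorem s10 : mo (1, 0, 0, 2, 0, 1) ∈ V :=
  mem_of 1 (by decide) (x := (1 : ℤ) • mo (1, 0, 1, 0, 0, 2)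
      + (-1 : ℤ) • (mo (0, 0, 0, 0, 0, 0) * (g 2 * g 13)))
    (add_mem (zs (1) s9)
      (zs (-1) (gg 2 13 (0, 0, 0, 0, 0, 0))))
    (by simp only [mo, g2, g13, zsmul_eq_mul]; push_cast; ring)

theorem s11 : mo (2, 0, 0, 1, 1, 0) ∈ V :=
  mem_of 1 (by decide) (x := (1 : ℤ) • mo (1, 0, 0, 2, 0, 1)
      + (1 : ℤ) • (mo (0, 0, 0, 0, 0, 0) * (g 1 * g 9)))
    (add_mem (zs (1) s10)
      (zs (1) (gg 1 9 (0, 0, 0, 0, 0, 0))))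
    (by simp only [mo, g1, g9, zsmul_eq_mul]; push_cast; ring)

theorem s12 : mo (2, 1, 0, 0, 0, 1) ∈ V :=
  mem_of 1 (by decide) (x := (1 : ℤ) • mo (1, 0, 0, 2, 0, 1)
      + (1 : ℤ) • (mo (0, 0, 0, 0, 0, 0) * (g 2 * g 8)))
    (add_mem (zs (1) s10)
      (zs (1) (gg 2 8 (0, 0, 0, 0, 0, 0))))
    (by simp only [mo, g2, g8, zsmul_eq_mul]; push_cast; ring)

theorem s13 : mo (1, 0, 1, 1, 0, 1) ∈ V :=
  mem_of 1 (by decide) (x := (1 : ℤ) • (mo (0, 0, 0, 0, 0, 0) * (g 2 * g 5)))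
    (zs (1) (gg 2 5 (0, 0, 0, 0, 0, 0)))
    (by simp only [mo, g2, g5, zsmul_eq_mul]; push_cast; ring)

theorem s14 : mo (0, 0, 0, 0, 0, 4) ∈ V :=
  mem_of 1 (by decide) (x := (1 : ℤ) • (mo (0, 0, 0, 0, 0, 0) * (g 7 * g 7)))
    (zs (1) (gg 7 7 (0, 0, 0, 0, 0, 0)))
    (by simp only [mo, g7, zsmul_eq_mul]; push_cast; ring)

theorem s15 : mo (2, 0, 1, 0, 1, 0) ∈ V :=
  mem_of 1 (by decide) (x := (1 : ℤ) • mo (1, 0, 1, 1, 0, 1)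
      + (1 : ℤ) • (mo (0, 0, 0, 0, 0, 0) * (g 0 * g 9)))
    (add_mem (zs (1) s13)
      (zs (1) (gg 0 9 (0, 0, 0, 0, 0, 0))))
    (by simp only [mo, g0, g9, zsmul_eq_mul]; push_cast; ring)

theorem s16 : mo (1, 0, 0, 3, 0, 0) ∈ V :=
  mem_of 1 (by decide) (x := (1 : ℤ) • mo (1, 0, 1, 1, 0, 1)
      + (-1 : ℤ) • (mo (0, 0, 0, 0, 0, 0) * (g 1 * g 13)))
    (add_mem (zs (1) s13)
      (zs (-1) (gg 1 13 (0, 0, 0, 0, 0, 0))))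
    (by simp only [mo, g1, g13, zsmul_eq_mul]; push_cast; ring)

theorem s17 : mo (2, 1, 0, 1, 0, 0) ∈ V :=
  mem_of 1 (by decide) (x := (1 : ℤ) • mo (1, 0, 0, 3, 0, 0)
      + (1 : ℤ) • (mo (0, 0, 0, 0, 0, 0) * (g 1 * g 8)))
    (add_mem (zs (1) s16)
      (zs (1) (gg 1 8 (0, 0, 0, 0, 0, 0))))
    (by simp only [mo, g1, g8, zsmul_eq_mul]; push_cast; ring)

theorem s18 : mo (1, 0, 1, 2, 0, 0) ∈ V :=
  mem_of 1 (by decide) (x := (1 : ℤ) • (mo (0, 0, 0, 0, 0, 0) * (g 1 * g 5)))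
    (zs (1) (gg 1 5 (0, 0, 0, 0, 0, 0)))
    (by simp only [mo, g1, g5, zsmul_eq_mul]; push_cast; ring)

theorem s19 : mo (2, 1, 1, 0, 0, 0) ∈ V :=
  mem_of 1 (by decide) (x := (1 : ℤ) • mo (1, 0, 1, 2, 0, 0)
      + (1 : ℤ) • (mo (0, 0, 0, 0, 0, 0) * (g 0 * g 8)))
    (add_mem (zs (1) s18)
      (zs (1) (gg 0 8 (0, 0, 0, 0, 0, 0))))
    (by simp only [mo, g0, g8, zsmul_eq_mul]; push_cast; ring)

theorem s20 : mo (1, 0, 2, 0, 0, 1) ∈ V :=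
  mem_of 1 (by decide) (x := (1 : ℤ) • mo (1, 0, 1, 2, 0, 0)
      + (1 : ℤ) • (mo (0, 0, 0, 0, 0, 0) * (g 0 * g 13)))
    (add_mem (zs (1) s18)
      (zs (1) (gg 0 13 (0, 0, 0, 0, 0, 0))))
    (by simp only [mo, g0, g13, zsmul_eq_mul]; push_cast; ring)

theorem s21 : mo (1, 0, 0, 0, 1, 2) ∈ V :=
  mem_of 1 (by decide) (x := (1 : ℤ) • mo (1, 0, 2, 0, 0, 1)
      + (-1 : ℤ) • (mo (0, 0, 0, 0, 0, 0) * (g 2 * g 12)))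
    (add_mem (zs (1) s20)
      (zs (-1) (gg 2 12 (0, 0, 0, 0, 0, 0))))
    (by simp only [mo, g2, g12, zsmul_eq_mul]; push_cast; ring)

theorem s22 : mo (0, 0, 0, 1, 0, 3) ∈ V :=
  mem_of 1 (by decide) (x := (1 : ℤ) • mo (1, 0, 0, 0, 1, 2)
      + (-1 : ℤ) • (mo (0, 0, 0, 0, 0, 0) * (g 7 * g 9)))
    (add_mem (zs (1) s21)
      (zs (-1) (gg 7 9 (0, 0, 0, 0, 0, 0))))
    (by simp only [mo, g7, g9, zsmul_eq_mul]; push_cast; ring)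

theorem s23 : mo (1, 0, 2, 1, 0, 0) ∈ V :=
  mem_of 1 (by decide) (x := (1 : ℤ) • (mo (0, 0, 0, 0, 0, 0) * (g 0 * g 5)))
    (zs (1) (gg 0 5 (0, 0, 0, 0, 0, 0)))
    (by simp only [mo, g0, g5, zsmul_eq_mul]; push_cast; ring)

theorem s24 : mo (1, 0, 0, 1, 1, 1) ∈ V :=
  mem_of 1 (by decide) (x := (1 : ℤ) • mo (1, 0, 2, 1, 0, 0)
      + (-1 : ℤ) • (mo (0, 0, 0, 0, 0, 0) * (g 1 * g 12)))
    (add_mem (zs (1) s23)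
      (zs (-1) (gg 1 12 (0, 0, 0, 0, 0, 0))))
    (by simp only [mo, g1, g12, zsmul_eq_mul]; push_cast; ring)

theorem s25 : mo (1, 1, 0, 0, 0, 2) ∈ V :=
  mem_of 1 (by decide) (x := (1 : ℤ) • mo (1, 0, 0, 1, 1, 1)
      + (1 : ℤ) • (mo (0, 0, 0, 0, 0, 0) * (g 2 * g 11)))
    (add_mem (zs (1) s24)
      (zs (1) (gg 2 11 (0, 0, 0, 0, 0, 0))))
    (by simp only [mo, g2, g11, zsmul_eq_mul]; push_cast; ring)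

theorem s26 : mo (0, 0, 0, 2, 0, 2) ∈ V :=
  mem_of 1 (by decide) (x := (1 : ℤ) • mo (1, 1, 0, 0, 0, 2)
      + (-1 : ℤ) • (mo (0, 0, 0, 0, 0, 0) * (g 7 * g 8)))
    (add_mem (zs (1) s25)
      (zs (-1) (gg 7 8 (0, 0, 0, 0, 0, 0))))
    (by simp only [mo, g7, g8, zsmul_eq_mul]; push_cast; ring)

theorem s27 : mo (0, 0, 1, 0, 0, 3) ∈ V :=
  mem_of 1 (by decide) (x := (1 : ℤ) • mo (0, 0, 0, 2, 0, 2)
      + (1 : ℤ) • (mo (0, 0, 0, 0, 0, 0) * (g 7 * g 13)))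
    (add_mem (zs (1) s26)
      (zs (1) (gg 7 13 (0, 0, 0, 0, 0, 0))))
    (by simp only [mo, g7, g13, zsmul_eq_mul]; push_cast; ring)

theorem s28 : mo (2, 0, 0, 0, 2, 0) ∈ V :=
  mem_of 1 (by decide) (x := (2 : ℤ) • mo (1, 0, 0, 1, 1, 1)
      + (-1 : ℤ) • mo (0, 0, 0, 2, 0, 2)
      + (1 : ℤ) • (mo (0, 0, 0, 0, 0, 0) * (g 9 * g 9)))
    (add_mem (add_mem (zs (2) s24)
      (zs (-1) s26))
      (zs (1) (gg 9 9 (0, 0, 0, 0, 0, 0))))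
    (by simp only [mo, g9, zsmul_eq_mul]; push_cast; ring)

theorem s29 : mo (0, 0, 1, 1, 0, 2) ∈ V :=
  mem_of 1 (by decide) (x := (1 : ℤ) • (mo (0, 0, 0, 0, 0, 0) * (g 5 * g 7)))
    (zs (1) (gg 5 7 (0, 0, 0, 0, 0, 0)))
    (by simp only [mo, g5, g7, zsmul_eq_mul]; push_cast; ring)

theorem s30 : mo (1, 1, 0, 1, 0, 1) ∈ V :=
  mem_of 2 (by decide) (x := (1 : ℤ) • mo (0, 0, 1, 1, 0, 2)
      + (1 : ℤ) • mo (2, 1, 0, 0, 1, 0)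
      + (1 : ℤ) • (mo (0, 0, 0, 0, 0, 0) * (g 9 * g 13))
      + (-1 : ℤ) • (mo (0, 0, 0, 0, 0, 0) * (g 8 * g 9))
      + (1 : ℤ) • (mo (0, 0, 0, 0, 0, 0) * (g 2 * g 10)))
    (add_mem (add_mem (add_mem (add_mem (zs (1) s29)
      (zs (1) (sm (2, 1, 0, 0, 1, 0) (by decide))))
      (zs (1) (gg 9 13 (0, 0, 0, 0, 0, 0))))
      (zs (-1) (gg 8 9 (0, 0, 0, 0, 0, 0))))
      (zs (1) (gg 2 10 (0, 0, 0, 0, 0, 0))))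
    (by simp only [mo, g2, g8, g9, g10, g13, zsmul_eq_mul]; push_cast; ring)

theorem s31 : mo (1, 0, 1, 0, 1, 1) ∈ V :=
  mem_of 2 (by decide) (x := (1 : ℤ) • mo (0, 0, 1, 1, 0, 2)
      + (1 : ℤ) • mo (2, 1, 0, 0, 1, 0)
      + (-1 : ℤ) • (mo (0, 0, 0, 0, 0, 0) * (g 2 * g 10))
      + (1 : ℤ) • (mo (0, 0, 0, 0, 0, 0) * (g 9 * g 13))
      + (-1 : ℤ) • (mo (0, 0, 0, 0, 0, 0) * (g 8 * g 9)))
    (add_mem (add_mem (add_mem (add_mem (zs (1) s29)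
      (zs (1) (sm (2, 1, 0, 0, 1, 0) (by decide))))
      (zs (-1) (gg 2 10 (0, 0, 0, 0, 0, 0))))
      (zs (1) (gg 9 13 (0, 0, 0, 0, 0, 0))))
      (zs (-1) (gg 8 9 (0, 0, 0, 0, 0, 0))))
    (by simp only [mo, g2, g8, g9, g10, g13, zsmul_eq_mul]; push_cast; ring)

theorem s32 : mo (0, 0, 0, 3, 0, 1) ∈ V :=
  mem_of 1 (by decide) (x := (1 : ℤ) • mo (0, 0, 1, 1, 0, 2)
      + (-1 : ℤ) • (mo (0, 0, 0, 0, 0, 0) * (g 1 * g 11))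
      + (1 : ℤ) • (mo (0, 0, 0, 0, 0, 0) * (g 9 * g 13))
      + (1 : ℤ) • (mo (0, 0, 0, 0, 0, 0) * (g 2 * g 10)))
    (add_mem (add_mem (add_mem (zs (1) s29)
      (zs (-1) (gg 1 11 (0, 0, 0, 0, 0, 0))))
      (zs (1) (gg 9 13 (0, 0, 0, 0, 0, 0))))
      (zs (1) (gg 2 10 (0, 0, 0, 0, 0, 0))))
    (by simp only [mo, g1, g2, g9, g10, g11, g13, zsmul_eq_mul]; push_cast; ring)

theorem s33 : mo (1, 0, 0, 2, 1, 0) ∈ V :=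
  mem_of 2 (by decide) (x := (1 : ℤ) • mo (0, 0, 1, 1, 0, 2)
      + (1 : ℤ) • mo (2, 1, 0, 0, 1, 0)
      + (-2 : ℤ) • (mo (0, 0, 0, 0, 0, 0) * (g 1 * g 11))
      + (1 : ℤ) • (mo (0, 0, 0, 0, 0, 0) * (g 9 * g 13))
      + (-1 : ℤ) • (mo (0, 0, 0, 0, 0, 0) * (g 8 * g 9))
      + (1 : ℤ) • (mo (0, 0, 0, 0, 0, 0) * (g 2 * g 10)))
    (add_mem (add_mem (add_mem (add_mem (add_mem (zs (1) s29)
      (zs (1) (sm (2, 1, 0, 0, 1, 0) (by decide))))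
      (zs (-2) (gg 1 11 (0, 0, 0, 0, 0, 0))))
      (zs (1) (gg 9 13 (0, 0, 0, 0, 0, 0))))
      (zs (-1) (gg 8 9 (0, 0, 0, 0, 0, 0))))
      (zs (1) (gg 2 10 (0, 0, 0, 0, 0, 0))))
    (by simp only [mo, g1, g2, g8, g9, g10, g11, g13, zsmul_eq_mul]; push_cast; ring)

theorem s34 : mo (1, 0, 3, 0, 0, 0) ∈ V :=
  mem_of 2 (by decide) (x := (1 : ℤ) • mo (0, 0, 1, 1, 0, 2)
      + (1 : ℤ) • mo (2, 1, 0, 0, 1, 0)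
      + (-1 : ℤ) • (mo (0, 0, 0, 0, 0, 0) * (g 2 * g 10))
      + (2 : ℤ) • (mo (0, 0, 0, 0, 0, 0) * (g 0 * g 12))
      + (1 : ℤ) • (mo (0, 0, 0, 0, 0, 0) * (g 9 * g 13))
      + (-1 : ℤ) • (mo (0, 0, 0, 0, 0, 0) * (g 8 * g 9)))
    (add_mem (add_mem (add_mem (add_mem (add_mem (zs (1) s29)
      (zs (1) (sm (2, 1, 0, 0, 1, 0) (by decide))))
      (zs (-1) (gg 2 10 (0, 0, 0, 0, 0, 0))))
      (zs (2) (gg 0 12 (0, 0, 0, 0, 0, 0))))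
      (zs (1) (gg 9 13 (0, 0, 0, 0, 0, 0))))
      (zs (-1) (gg 8 9 (0, 0, 0, 0, 0, 0))))
    (by simp only [mo, g0, g2, g8, g9, g10, g12, g13, zsmul_eq_mul]; push_cast; ring)

theorem s35 : mo (1, 1, 1, 0, 0, 1) ∈ V :=
  mem_of 1 (by decide) (x := (1 : ℤ) • (mo (0, 0, 0, 0, 0, 0) * (g 2 * g 4)))
    (zs (1) (gg 2 4 (0, 0, 0, 0, 0, 0)))
    (by simp only [mo, g2, g4, zsmul_eq_mul]; push_cast; ring)

theorem s36 : mo (1, 0, 1, 1, 1, 0) ∈ V :=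
  mem_of 1 (by decide) (x := (1 : ℤ) • mo (1, 1, 1, 0, 0, 1)
      + (-1 : ℤ) • (mo (0, 0, 0, 0, 0, 0) * (g 0 * g 11)))
    (add_mem (zs (1) s35)
      (zs (-1) (gg 0 11 (0, 0, 0, 0, 0, 0))))
    (by simp only [mo, g0, g11, zsmul_eq_mul]; push_cast; ring)

theorem s37 : mo (1, 1, 0, 2, 0, 0) ∈ V :=
  mem_of 1 (by decide) (x := (1 : ℤ) • mo (1, 0, 1, 1, 1, 0)
      + (1 : ℤ) • (mo (0, 0, 0, 0, 0, 0) * (g 1 * g 10)))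
    (add_mem (zs (1) s36)
      (zs (1) (gg 1 10 (0, 0, 0, 0, 0, 0))))
    (by simp only [mo, g1, g10, zsmul_eq_mul]; push_cast; ring)

theorem s38 : mo (0, 0, 1, 2, 0, 1) ∈ V :=
  mem_of 1 (by decide) (x := (1 : ℤ) • mo (1, 0, 1, 1, 1, 0)
      + (-1 : ℤ) • (mo (0, 0, 0, 0, 0, 0) * (g 5 * g 9)))
    (add_mem (zs (1) s36)
      (zs (-1) (gg 5 9 (0, 0, 0, 0, 0, 0))))
    (by simp only [mo, g5, g9, zsmul_eq_mul]; push_cast; ring)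

theorem s39 : mo (0, 0, 0, 4, 0, 0) ∈ V :=
  mem_of 1 (by decide) (x := (-1 : ℤ) • mo (1, 1, 1, 0, 0, 1)
      + (1 : ℤ) • mo (1, 1, 0, 2, 0, 0)
      + (1 : ℤ) • mo (0, 0, 1, 2, 0, 1)
      + (1 : ℤ) • (mo (0, 0, 0, 0, 0, 0) * (g 8 * g 13)))
    (add_mem (add_mem (add_mem (zs (-1) s35)
      (zs (1) s37))
      (zs (1) s38))
      (zs (1) (gg 8 13 (0, 0, 0, 0, 0, 0))))
    (by simp only [mo, g8, g13, zsmul_eq_mul]; push_cast; ring)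

theorem s40 : mo (2, 2, 0, 0, 0, 0) ∈ V :=
  mem_of 1 (by decide) (x := (2 : ℤ) • mo (1, 1, 0, 2, 0, 0)
      + (-1 : ℤ) • mo (0, 0, 0, 4, 0, 0)
      + (1 : ℤ) • (mo (0, 0, 0, 0, 0, 0) * (g 8 * g 8)))
    (add_mem (add_mem (zs (2) s37)
      (zs (-1) s39))
      (zs (1) (gg 8 8 (0, 0, 0, 0, 0, 0))))
    (by simp only [mo, g8, zsmul_eq_mul]; push_cast; ring)

theorem s41 : mo (0, 0, 2, 0, 0, 2) ∈ V :=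
  mem_of 1 (by decide) (x := (2 : ℤ) • mo (0, 0, 1, 2, 0, 1)
      + (-1 : ℤ) • mo (0, 0, 0, 4, 0, 0)
      + (1 : ℤ) • (mo (0, 0, 0, 0, 0, 0) * (g 13 * g 13)))
    (add_mem (add_mem (zs (2) s38)
      (zs (-1) s39))
      (zs (1) (gg 13 13 (0, 0, 0, 0, 0, 0))))
    (by simp only [mo, g13, zsmul_eq_mul]; push_cast; ring)

theorem s42 : mo (0, 0, 0, 0, 1, 3) ∈ V :=
  mem_of 1 (by decide) (x := (1 : ℤ) • mo (0, 0, 2, 0, 0, 2)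
      + (-1 : ℤ) • (mo (0, 0, 0, 0, 0, 0) * (g 7 * g 12)))
    (add_mem (zs (1) s41)
      (zs (-1) (gg 7 12 (0, 0, 0, 0, 0, 0))))
    (by simp only [mo, g7, g12, zsmul_eq_mul]; push_cast; ring)

theorem s43 : mo (1, 1, 1, 1, 0, 0) ∈ V :=
  mem_of 1 (by decide) (x := (1 : ℤ) • (mo (0, 0, 0, 0, 0, 0) * (g 1 * g 4)))
    (zs (1) (gg 1 4 (0, 0, 0, 0, 0, 0)))
    (by simp only [mo, g1, g4, zsmul_eq_mul]; push_cast; ring)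

theorem s44 : mo (1, 0, 0, 0, 2, 1) ∈ V :=
  mem_of 1 (by decide) (x := (1 : ℤ) • (mo (0, 0, 0, 0, 0, 0) * (g 2 * g 6)))
    (zs (1) (gg 2 6 (0, 0, 0, 0, 0, 0)))
    (by simp only [mo, g2, g6, zsmul_eq_mul]; push_cast; ring)

theorem s45 : mo (1, 0, 2, 0, 1, 0) ∈ V :=
  mem_of 1 (by decide) (x := (1 : ℤ) • mo (1, 1, 1, 1, 0, 0)
      + (-1 : ℤ) • (mo (0, 0, 0, 0, 0, 0) * (g 0 * g 10)))
    (add_mem (zs (1) s43)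
      (zs (-1) (gg 0 10 (0, 0, 0, 0, 0, 0))))
    (by simp only [mo, g0, g10, zsmul_eq_mul]; push_cast; ring)

theorem s46 : mo (0, 0, 1, 3, 0, 0) ∈ V :=
  mem_of 1 (by decide) (x := (1 : ℤ) • mo (1, 1, 1, 1, 0, 0)
      + (-1 : ℤ) • (mo (0, 0, 0, 0, 0, 0) * (g 5 * g 8)))
    (add_mem (zs (1) s43)
      (zs (-1) (gg 5 8 (0, 0, 0, 0, 0, 0))))
    (by simp only [mo, g5, g8, zsmul_eq_mul]; push_cast; ring)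

theorem s47 : mo (0, 0, 2, 1, 0, 1) ∈ V :=
  mem_of 1 (by decide) (x := (1 : ℤ) • mo (0, 0, 1, 3, 0, 0)
      + (1 : ℤ) • (mo (0, 0, 0, 0, 0, 0) * (g 5 * g 13)))
    (add_mem (zs (1) s46)
      (zs (1) (gg 5 13 (0, 0, 0, 0, 0, 0))))
    (by simp only [mo, g5, g13, zsmul_eq_mul]; push_cast; ring)

theorem s48 : mo (0, 0, 0, 1, 1, 2) ∈ V :=
  mem_of 1 (by decide) (x := (-1 : ℤ) • mo (1, 0, 2, 0, 1, 0)
      + (1 : ℤ) • mo (1, 0, 0, 0, 2, 1)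
      + (1 : ℤ) • mo (0, 0, 2, 1, 0, 1)
      + (1 : ℤ) • (mo (0, 0, 0, 0, 0, 0) * (g 9 * g 12)))
    (add_mem (add_mem (add_mem (zs (-1) s45)
      (zs (1) s44))
      (zs (1) s47))
      (zs (1) (gg 9 12 (0, 0, 0, 0, 0, 0))))
    (by simp only [mo, g9, g12, zsmul_eq_mul]; push_cast; ring)

theorem s49 : mo (0, 1, 0, 0, 0, 3) ∈ V :=
  mem_of 1 (by decide) (x := (1 : ℤ) • mo (0, 0, 0, 1, 1, 2)
      + (1 : ℤ) • (mo (0, 0, 0, 0, 0, 0) * (g 7 * g 11)))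
    (add_mem (zs (1) s48)
      (zs (1) (gg 7 11 (0, 0, 0, 0, 0, 0))))
    (by simp only [mo, g7, g11, zsmul_eq_mul]; push_cast; ring)

theorem s50 : mo (1, 1, 2, 0, 0, 0) ∈ V :=
  mem_of 1 (by decide) (x := (1 : ℤ) • (mo (0, 0, 0, 0, 0, 0) * (g 0 * g 4)))
    (zs (1) (gg 0 4 (0, 0, 0, 0, 0, 0)))
    (by simp only [mo, g0, g4, zsmul_eq_mul]; push_cast; ring)

theorem s51 : mo (1, 0, 0, 1, 2, 0) ∈ V :=
  mem_of 1 (by decide) (x := (1 : ℤ) • (mo (0, 0, 0, 0, 0, 0) * (g 1 * g 6)))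
    (zs (1) (gg 1 6 (0, 0, 0, 0, 0, 0)))
    (by simp only [mo, g1, g6, zsmul_eq_mul]; push_cast; ring)

theorem s52 : mo (0, 0, 2, 2, 0, 0) ∈ V :=
  mem_of 1 (by decide) (x := (1 : ℤ) • (mo (0, 0, 0, 0, 0, 0) * (g 5 * g 5)))
    (zs (1) (gg 5 5 (0, 0, 0, 0, 0, 0)))
    (by simp only [mo, g5, zsmul_eq_mul]; push_cast; ring)

theorem s53 : mo (4, 0, 0, 0, 0, 1) ∈ V :=
  mem_of 1 (by decide) (x := (1 : ℤ) • mo (1, 1, 0, 0, 1, 1)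
      + (-1 : ℤ) • (mo (0, 0, 0, 0, 0, 0) * (g 2 * g 14)))
    (add_mem (zs (1) (sm (1, 1, 0, 0, 1, 1) (by decide)))
      (zs (-1) (gg 2 14 (0, 0, 0, 0, 0, 0))))
    (by simp only [mo, g2, g14, zsmul_eq_mul]; push_cast; ring)

theorem s54 : mo (0, 0, 0, 2, 1, 1) ∈ V :=
  mem_of 1 (by decide) (x := (-1 : ℤ) • mo (1, 1, 2, 0, 0, 0)
      + (1 : ℤ) • mo (1, 1, 0, 0, 1, 1)
      + (1 : ℤ) • mo (0, 0, 2, 2, 0, 0)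
      + (1 : ℤ) • (mo (0, 0, 0, 0, 0, 0) * (g 8 * g 12)))
    (add_mem (add_mem (add_mem (zs (-1) s50)
      (zs (1) (sm (1, 1, 0, 0, 1, 1) (by decide))))
      (zs (1) s52))
      (zs (1) (gg 8 12 (0, 0, 0, 0, 0, 0))))
    (by simp only [mo, g8, g12, zsmul_eq_mul]; push_cast; ring)

theorem s55 : mo (0, 1, 0, 1, 0, 2) ∈ V :=
  mem_of 1 (by decide) (x := (1 : ℤ) • mo (1, 1, 0, 0, 1, 1)
      + (-1 : ℤ) • mo (1, 0, 0, 1, 2, 0)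
      + (1 : ℤ) • mo (0, 0, 0, 2, 1, 1)
      + (-1 : ℤ) • (mo (0, 0, 0, 0, 0, 0) * (g 9 * g 11)))
    (add_mem (add_mem (add_mem (zs (1) (sm (1, 1, 0, 0, 1, 1) (by decide)))
      (zs (-1) s51))
      (zs (1) s54))
      (zs (-1) (gg 9 11 (0, 0, 0, 0, 0, 0))))
    (by simp only [mo, g9, g11, zsmul_eq_mul]; push_cast; ring)

theorem s56 : mo (0, 0, 1, 0, 1, 2) ∈ V :=
  mem_of 1 (by decide) (x := (1 : ℤ) • mo (0, 1, 0, 1, 0, 2)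
      + (-1 : ℤ) • (mo (0, 0, 0, 0, 0, 0) * (g 7 * g 10)))
    (add_mem (zs (1) s55)
      (zs (-1) (gg 7 10 (0, 0, 0, 0, 0, 0))))
    (by simp only [mo, g7, g10, zsmul_eq_mul]; push_cast; ring)

theorem s57 : mo (0, 0, 3, 0, 0, 1) ∈ V :=
  mem_of 1 (by decide) (x := (1 : ℤ) • mo (0, 0, 2, 2, 0, 0)
      + (1 : ℤ) • mo (0, 0, 1, 0, 1, 2)
      + (-1 : ℤ) • mo (0, 0, 0, 2, 1, 1)
      + (1 : ℤ) • (mo (0, 0, 0, 0, 0, 0) * (g 12 * g 13)))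
    (add_mem (add_mem (add_mem (zs (1) s52)
      (zs (1) s56))
      (zs (-1) s54))
      (zs (1) (gg 12 13 (0, 0, 0, 0, 0, 0))))
    (by simp only [mo, g12, g13, zsmul_eq_mul]; push_cast; ring)

theorem s58 : mo (1, 0, 1, 0, 2, 0) ∈ V :=
  mem_of 1 (by decide) (x := (1 : ℤ) • (mo (0, 0, 0, 0, 0, 0) * (g 0 * g 6)))
    (zs (1) (gg 0 6 (0, 0, 0, 0, 0, 0)))
    (by simp only [mo, g0, g6, zsmul_eq_mul]; push_cast; ring)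

theorem s59 : mo (1, 2, 0, 0, 0, 1) ∈ V :=
  mem_of 1 (by decide) (x := (1 : ℤ) • (mo (0, 0, 0, 0, 0, 0) * (g 2 * g 3)))
    (zs (1) (gg 2 3 (0, 0, 0, 0, 0, 0)))
    (by simp only [mo, g2, g3, zsmul_eq_mul]; push_cast; ring)

theorem s60 : mo (0, 1, 1, 0, 0, 2) ∈ V :=
  mem_of 1 (by decide) (x := (1 : ℤ) • (mo (0, 0, 0, 0, 0, 0) * (g 4 * g 7)))
    (zs (1) (gg 4 7 (0, 0, 0, 0, 0, 0)))
    (by simp only [mo, g4, g7, zsmul_eq_mul]; push_cast; ring)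

theorem s61 : mo (4, 0, 0, 1, 0, 0) ∈ V :=
  mem_of 1 (by decide) (x := (1 : ℤ) • mo (1, 1, 0, 1, 1, 0)
      + (-1 : ℤ) • (mo (0, 0, 0, 0, 0, 0) * (g 1 * g 14)))
    (add_mem (zs (1) (sm (1, 1, 0, 1, 1, 0) (by decide)))
      (zs (-1) (gg 1 14 (0, 0, 0, 0, 0, 0))))
    (by simp only [mo, g1, g14, zsmul_eq_mul]; push_cast; ring)

theorem s62 : mo (0, 0, 1, 1, 1, 1) ∈ V :=
  mem_of 1 (by decide) (x := (1 : ℤ) • mo (1, 1, 0, 1, 1, 0)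
      + (1 : ℤ) • mo (0, 1, 1, 0, 0, 2)
      + (-1 : ℤ) • mo (1, 2, 0, 0, 0, 1)
      + (-1 : ℤ) • (mo (0, 0, 0, 0, 0, 0) * (g 11 * g 13))
      + (1 : ℤ) • (mo (0, 0, 0, 0, 0, 0) * (g 8 * g 11)))
    (add_mem (add_mem (add_mem (add_mem (zs (1) (sm (1, 1, 0, 1, 1, 0) (by decide)))
      (zs (1) s60))
      (zs (-1) s59))
      (zs (-1) (gg 11 13 (0, 0, 0, 0, 0, 0))))
      (zs (1) (gg 8 11 (0, 0, 0, 0, 0, 0))))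
    (by simp only [mo, g8, g11, g13, zsmul_eq_mul]; push_cast; ring)

theorem s63 : mo (0, 1, 0, 2, 0, 1) ∈ V :=
  mem_of 1 (by decide) (x := (1 : ℤ) • mo (0, 1, 1, 0, 0, 2)
      + (-1 : ℤ) • mo (1, 2, 0, 0, 0, 1)
      + (2 : ℤ) • mo (1, 1, 0, 1, 1, 0)
      + (-1 : ℤ) • mo (1, 0, 1, 0, 2, 0)
      + (-1 : ℤ) • (mo (0, 0, 0, 0, 0, 0) * (g 11 * g 13))
      + (1 : ℤ) • (mo (0, 0, 0, 0, 0, 0) * (g 8 * g 11))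
      + (-1 : ℤ) • (mo (0, 0, 0, 0, 0, 0) * (g 9 * g 10)))
    (add_mem (add_mem (add_mem (add_mem (add_mem (add_mem (zs (1) s60)
      (zs (-1) s59))
      (zs (2) (sm (1, 1, 0, 1, 1, 0) (by decide))))
      (zs (-1) s58))
      (zs (-1) (gg 11 13 (0, 0, 0, 0, 0, 0))))
      (zs (1) (gg 8 11 (0, 0, 0, 0, 0, 0))))
      (zs (-1) (gg 9 10 (0, 0, 0, 0, 0, 0))))
    (by simp only [mo, g8, g9, g10, g11, g13, zsmul_eq_mul]; push_cast; ring)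

theorem s64 : mo (0, 0, 0, 3, 1, 0) ∈ V :=
  mem_of 1 (by decide) (x := (-2 : ℤ) • mo (1, 2, 0, 0, 0, 1)
      + (3 : ℤ) • mo (1, 1, 0, 1, 1, 0)
      + (1 : ℤ) • mo (0, 1, 1, 0, 0, 2)
      + (-1 : ℤ) • mo (1, 0, 1, 0, 2, 0)
      + (2 : ℤ) • (mo (0, 0, 0, 0, 0, 0) * (g 8 * g 11))
      + (-1 : ℤ) • (mo (0, 0, 0, 0, 0, 0) * (g 11 * g 13))
      + (-1 : ℤ) • (mo (0, 0, 0, 0, 0, 0) * (g 9 * g 10)))
    (add_mem (add_mem (add_mem (add_mem (add_mem (add_mem (zs (-2) s59)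
      (zs (3) (sm (1, 1, 0, 1, 1, 0) (by decide))))
      (zs (1) s60))
      (zs (-1) s58))
      (zs (2) (gg 8 11 (0, 0, 0, 0, 0, 0))))
      (zs (-1) (gg 11 13 (0, 0, 0, 0, 0, 0))))
      (zs (-1) (gg 9 10 (0, 0, 0, 0, 0, 0))))
    (by simp only [mo, g8, g9, g10, g11, g13, zsmul_eq_mul]; push_cast; ring)

theorem s65 : mo (0, 0, 3, 1, 0, 0) ∈ V :=
  mem_of 1 (by decide) (x := (1 : ℤ) • mo (1, 1, 0, 1, 1, 0)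
      + (1 : ℤ) • mo (0, 1, 1, 0, 0, 2)
      + (-1 : ℤ) • mo (1, 2, 0, 0, 0, 1)
      + (1 : ℤ) • (mo (0, 0, 0, 0, 0, 0) * (g 5 * g 12))
      + (-1 : ℤ) • (mo (0, 0, 0, 0, 0, 0) * (g 11 * g 13))
      + (1 : ℤ) • (mo (0, 0, 0, 0, 0, 0) * (g 8 * g 11)))
    (add_mem (add_mem (add_mem (add_mem (add_mem (zs (1) (sm (1, 1, 0, 1, 1, 0) (by decide)))
      (zs (1) s60))
      (zs (-1) s59))
      (zs (1) (gg 5 12 (0, 0, 0, 0, 0, 0))))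
      (zs (-1) (gg 11 13 (0, 0, 0, 0, 0, 0))))
      (zs (1) (gg 8 11 (0, 0, 0, 0, 0, 0))))
    (by simp only [mo, g5, g8, g11, g12, g13, zsmul_eq_mul]; push_cast; ring)

theorem s66 : mo (1, 2, 0, 1, 0, 0) ∈ V :=
  mem_of 1 (by decide) (x := (1 : ℤ) • (mo (0, 0, 0, 0, 0, 0) * (g 1 * g 3)))
    (zs (1) (gg 1 3 (0, 0, 0, 0, 0, 0)))
    (by simp only [mo, g1, g3, zsmul_eq_mul]; push_cast; ring)

theorem s67 : mo (0, 0, 0, 0, 2, 2) ∈ V :=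
  mem_of 1 (by decide) (x := (1 : ℤ) • (mo (0, 0, 0, 0, 0, 0) * (g 6 * g 7)))
    (zs (1) (gg 6 7 (0, 0, 0, 0, 0, 0)))
    (by simp only [mo, g6, g7, zsmul_eq_mul]; push_cast; ring)

theorem s68 : mo (4, 0, 1, 0, 0, 0) ∈ V :=
  mem_of 1 (by decide) (x := (1 : ℤ) • mo (1, 1, 1, 0, 1, 0)
      + (-1 : ℤ) • (mo (0, 0, 0, 0, 0, 0) * (g 0 * g 14)))
    (add_mem (zs (1) (sm (1, 1, 1, 0, 1, 0) (by decide)))
      (zs (-1) (gg 0 14 (0, 0, 0, 0, 0, 0))))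
    (by simp only [mo, g0, g14, zsmul_eq_mul]; push_cast; ring)

theorem s69 : mo (0, 1, 1, 1, 0, 1) ∈ V :=
  mem_of 1 (by decide) (x := (1 : ℤ) • mo (1, 1, 1, 0, 1, 0)
      + (-1 : ℤ) • (mo (0, 0, 0, 0, 0, 0) * (g 4 * g 9)))
    (add_mem (zs (1) (sm (1, 1, 1, 0, 1, 0) (by decide)))
      (zs (-1) (gg 4 9 (0, 0, 0, 0, 0, 0))))
    (by simp only [mo, g4, g9, zsmul_eq_mul]; push_cast; ring)

theorem s70 : mo (0, 0, 1, 2, 1, 0) ∈ V :=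
  mem_of 1 (by decide) (x := (1 : ℤ) • mo (0, 1, 1, 1, 0, 1)
      + (-1 : ℤ) • (mo (0, 0, 0, 0, 0, 0) * (g 5 * g 11)))
    (add_mem (zs (1) s69)
      (zs (-1) (gg 5 11 (0, 0, 0, 0, 0, 0))))
    (by simp only [mo, g5, g11, zsmul_eq_mul]; push_cast; ring)

theorem s71 : mo (0, 1, 0, 3, 0, 0) ∈ V :=
  mem_of 1 (by decide) (x := (1 : ℤ) • mo (1, 2, 0, 1, 0, 0)
      + (-1 : ℤ) • mo (1, 1, 1, 0, 1, 0)
      + (1 : ℤ) • mo (0, 0, 1, 2, 1, 0)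
      + (-1 : ℤ) • (mo (0, 0, 0, 0, 0, 0) * (g 8 * g 10)))
    (add_mem (add_mem (add_mem (zs (1) s66)
      (zs (-1) (sm (1, 1, 1, 0, 1, 0) (by decide))))
      (zs (1) s70))
      (zs (-1) (gg 8 10 (0, 0, 0, 0, 0, 0))))
    (by simp only [mo, g8, g10, zsmul_eq_mul]; push_cast; ring)

theorem s72 : mo (0, 0, 2, 0, 1, 1) ∈ V :=
  mem_of 1 (by decide) (x := (1 : ℤ) • mo (0, 1, 1, 1, 0, 1)
      + (-1 : ℤ) • mo (0, 1, 0, 3, 0, 0)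
      + (1 : ℤ) • mo (0, 0, 1, 2, 1, 0)
      + (-1 : ℤ) • (mo (0, 0, 0, 0, 0, 0) * (g 10 * g 13)))
    (add_mem (add_mem (add_mem (zs (1) s69)
      (zs (-1) s71))
      (zs (1) s70))
      (zs (-1) (gg 10 13 (0, 0, 0, 0, 0, 0))))
    (by simp only [mo, g10, g13, zsmul_eq_mul]; push_cast; ring)

theorem s73 : mo (0, 0, 4, 0, 0, 0) ∈ V :=
  mem_of 1 (by decide) (x := (2 : ℤ) • mo (0, 0, 2, 0, 1, 1)
      + (-1 : ℤ) • mo (0, 0, 0, 0, 2, 2)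
      + (1 : ℤ) • (mo (0, 0, 0, 0, 0, 0) * (g 12 * g 12)))
    (add_mem (add_mem (zs (2) s72)
      (zs (-1) s67))
      (zs (1) (gg 12 12 (0, 0, 0, 0, 0, 0))))
    (by simp only [mo, g12, zsmul_eq_mul]; push_cast; ring)

theorem s74 : mo (1, 2, 1, 0, 0, 0) ∈ V :=
  mem_of 1 (by decide) (x := (1 : ℤ) • (mo (0, 0, 0, 0, 0, 0) * (g 0 * g 3)))
    (zs (1) (gg 0 3 (0, 0, 0, 0, 0, 0)))
    (by simp only [mo, g0, g3, zsmul_eq_mul]; push_cast; ring)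

theorem s75 : mo (3, 0, 0, 0, 0, 2) ∈ V :=
  mem_of 1 (by decide) (x := (1 : ℤ) • (mo (1, 0, 0, 0, 0, 0) * (g 2 * g 2)))
    (zs (1) (gg 2 2 (1, 0, 0, 0, 0, 0)))
    (by simp only [mo, g2, zsmul_eq_mul]; push_cast; ring)

theorem s76 : mo (0, 1, 1, 2, 0, 0) ∈ V :=
  mem_of 1 (by decide) (x := (1 : ℤ) • mo (1, 2, 1, 0, 0, 0)
      + (-1 : ℤ) • (mo (0, 0, 0, 0, 0, 0) * (g 4 * g 8)))
    (add_mem (zs (1) s74)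
      (zs (-1) (gg 4 8 (0, 0, 0, 0, 0, 0))))
    (by simp only [mo, g4, g8, zsmul_eq_mul]; push_cast; ring)

theorem s77 : mo (0, 1, 2, 0, 0, 1) ∈ V :=
  mem_of 1 (by decide) (x := (1 : ℤ) • mo (0, 1, 1, 2, 0, 0)
      + (1 : ℤ) • (mo (0, 0, 0, 0, 0, 0) * (g 4 * g 13)))
    (add_mem (zs (1) s76)
      (zs (1) (gg 4 13 (0, 0, 0, 0, 0, 0))))
    (by simp only [mo, g4, g13, zsmul_eq_mul]; push_cast; ring)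

theorem s78 : mo (0, 0, 2, 1, 1, 0) ∈ V :=
  mem_of 1 (by decide) (x := (1 : ℤ) • mo (0, 1, 1, 2, 0, 0)
      + (-1 : ℤ) • (mo (0, 0, 0, 0, 0, 0) * (g 5 * g 10)))
    (add_mem (zs (1) s76)
      (zs (-1) (gg 5 10 (0, 0, 0, 0, 0, 0))))
    (by simp only [mo, g5, g10, zsmul_eq_mul]; push_cast; ring)

theorem s79 : mo (0, 1, 0, 0, 1, 2) ∈ V :=
  mem_of 1 (by decide) (x := (1 : ℤ) • mo (3, 0, 0, 0, 0, 2)
      + (1 : ℤ) • (mo (0, 0, 0, 0, 0, 0) * (g 7 * g 14)))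
    (add_mem (zs (1) s75)
      (zs (1) (gg 7 14 (0, 0, 0, 0, 0, 0))))
    (by simp only [mo, g7, g14, zsmul_eq_mul]; push_cast; ring)

theorem s80 : mo (0, 0, 0, 1, 2, 1) ∈ V :=
  mem_of 1 (by decide) (x := (-1 : ℤ) • mo (0, 1, 2, 0, 0, 1)
      + (1 : ℤ) • mo (0, 1, 0, 0, 1, 2)
      + (1 : ℤ) • mo (0, 0, 2, 1, 1, 0)
      + (1 : ℤ) • (mo (0, 0, 0, 0, 0, 0) * (g 11 * g 12)))
    (add_mem (add_mem (add_mem (zs (-1) s77)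
      (zs (1) s79))
      (zs (1) s78))
      (zs (1) (gg 11 12 (0, 0, 0, 0, 0, 0))))
    (by simp only [mo, g11, g12, zsmul_eq_mul]; push_cast; ring)

theorem s81 : mo (1, 0, 0, 0, 3, 0) ∈ V :=
  mem_of 1 (by decide) (x := (1 : ℤ) • mo (0, 0, 0, 1, 2, 1)
      + (1 : ℤ) • (mo (0, 0, 0, 0, 0, 0) * (g 6 * g 9)))
    (add_mem (zs (1) s80)
      (zs (1) (gg 6 9 (0, 0, 0, 0, 0, 0))))
    (by simp only [mo, g6, g9, zsmul_eq_mul]; push_cast; ring)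

theorem s82 : mo (3, 0, 0, 1, 0, 1) ∈ V :=
  mem_of 1 (by decide) (x := (1 : ℤ) • (mo (1, 0, 0, 0, 0, 0) * (g 1 * g 2)))
    (zs (1) (gg 1 2 (1, 0, 0, 0, 0, 0)))
    (by simp only [mo, g1, g2, zsmul_eq_mul]; push_cast; ring)

theorem s83 : mo (0, 2, 0, 0, 0, 2) ∈ V :=
  mem_of 1 (by decide) (x := (1 : ℤ) • (mo (0, 0, 0, 0, 0, 0) * (g 3 * g 7)))
    (zs (1) (gg 3 7 (0, 0, 0, 0, 0, 0)))
    (by simp only [mo, g3, g7, zsmul_eq_mul]; push_cast; ring)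

theorem s84 : mo (0, 1, 2, 1, 0, 0) ∈ V :=
  mem_of 1 (by decide) (x := (1 : ℤ) • (mo (0, 0, 0, 0, 0, 0) * (g 4 * g 5)))
    (zs (1) (gg 4 5 (0, 0, 0, 0, 0, 0)))
    (by simp only [mo, g4, g5, zsmul_eq_mul]; push_cast; ring)

theorem s85 : mo (0, 0, 0, 2, 2, 0) ∈ V :=
  mem_of 1 (by decide) (x := (1 : ℤ) • mo (1, 1, 0, 0, 2, 0)
      + (-1 : ℤ) • (mo (0, 0, 0, 0, 0, 0) * (g 6 * g 8)))
    (add_mem (zs (1) (sm (1, 1, 0, 0, 2, 0) (by decide)))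
      (zs (-1) (gg 6 8 (0, 0, 0, 0, 0, 0))))
    (by simp only [mo, g6, g8, zsmul_eq_mul]; push_cast; ring)

theorem s86 : mo (0, 0, 1, 0, 2, 1) ∈ V :=
  mem_of 1 (by decide) (x := (1 : ℤ) • mo (0, 0, 0, 2, 2, 0)
      + (1 : ℤ) • (mo (0, 0, 0, 0, 0, 0) * (g 6 * g 13)))
    (add_mem (zs (1) s85)
      (zs (1) (gg 6 13 (0, 0, 0, 0, 0, 0))))
    (by simp only [mo, g6, g13, zsmul_eq_mul]; push_cast; ring)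

theorem s87 : mo (0, 1, 0, 1, 1, 1) ∈ V :=
  mem_of 2 (by decide) (x := (1 : ℤ) • mo (0, 2, 0, 0, 0, 2)
      + (1 : ℤ) • mo (0, 0, 0, 2, 2, 0)
      + (-1 : ℤ) • (mo (0, 0, 0, 0, 0, 0) * (g 11 * g 11)))
    (add_mem (add_mem (zs (1) s83)
      (zs (1) s85))
      (zs (-1) (gg 11 11 (0, 0, 0, 0, 0, 0))))
    (by simp only [mo, g11, zsmul_eq_mul]; push_cast; ring)

theorem s88 : mo (4, 0, 0, 0, 1, 0) ∈ V :=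
  mem_of 1 (by decide) (x := (1 : ℤ) • mo (1, 1, 0, 0, 2, 0)
      + (-1 : ℤ) • mo (0, 1, 0, 1, 1, 1)
      + (1 : ℤ) • mo (3, 0, 0, 1, 0, 1)
      + (-1 : ℤ) • (mo (0, 0, 0, 0, 0, 0) * (g 9 * g 14)))
    (add_mem (add_mem (add_mem (zs (1) (sm (1, 1, 0, 0, 2, 0) (by decide)))
      (zs (-1) s87))
      (zs (1) s82))
      (zs (-1) (gg 9 14 (0, 0, 0, 0, 0, 0))))
    (by simp only [mo, g9, g14, zsmul_eq_mul]; push_cast; ring)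

theorem s89 : mo (0, 0, 3, 0, 1, 0) ∈ V :=
  mem_of 1 (by decide) (x := (1 : ℤ) • mo (0, 1, 2, 1, 0, 0)
      + (-1 : ℤ) • mo (0, 1, 0, 1, 1, 1)
      + (1 : ℤ) • mo (0, 0, 1, 0, 2, 1)
      + (-1 : ℤ) • (mo (0, 0, 0, 0, 0, 0) * (g 10 * g 12)))
    (add_mem (add_mem (add_mem (zs (1) s84)
      (zs (-1) s87))
      (zs (1) s86))
      (zs (-1) (gg 10 12 (0, 0, 0, 0, 0, 0))))
    (by simp only [mo, g10, g12, zsmul_eq_mul]; push_cast; ring)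

theorem s90 : mo (3, 0, 1, 0, 0, 1) ∈ V :=
  mem_of 1 (by decide) (x := (1 : ℤ) • (mo (1, 0, 0, 0, 0, 0) * (g 0 * g 2)))
    (zs (1) (gg 0 2 (1, 0, 0, 0, 0, 0)))
    (by simp only [mo, g0, g2, zsmul_eq_mul]; push_cast; ring)

theorem s91 : mo (3, 0, 0, 2, 0, 0) ∈ V :=
  mem_of 1 (by decide) (x := (1 : ℤ) • (mo (1, 0, 0, 0, 0, 0) * (g 1 * g 1)))
    (zs (1) (gg 1 1 (1, 0, 0, 0, 0, 0)))
    (by simp only [mo, g1, zsmul_eq_mul]; push_cast; ring)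

theorem s92 : mo (0, 0, 1, 1, 2, 0) ∈ V :=
  mem_of 1 (by decide) (x := (1 : ℤ) • (mo (0, 0, 0, 0, 0, 0) * (g 5 * g 6)))
    (zs (1) (gg 5 6 (0, 0, 0, 0, 0, 0)))
    (by simp only [mo, g5, g6, zsmul_eq_mul]; push_cast; ring)

theorem s93 : mo (0, 2, 0, 1, 0, 1) ∈ V :=
  mem_of 1 (by decide) (x := (1 : ℤ) • mo (1, 2, 0, 0, 1, 0)
      + (-1 : ℤ) • (mo (0, 0, 0, 0, 0, 0) * (g 3 * g 9)))
    (add_mem (zs (1) (sm (1, 2, 0, 0, 1, 0) (by decide)))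
      (zs (-1) (gg 3 9 (0, 0, 0, 0, 0, 0))))
    (by simp only [mo, g3, g9, zsmul_eq_mul]; push_cast; ring)

theorem s94 : mo (0, 1, 0, 2, 1, 0) ∈ V :=
  mem_of 2 (by decide) (x := (1 : ℤ) • mo (3, 0, 0, 2, 0, 0)
      + (-1 : ℤ) • mo (3, 0, 1, 0, 0, 1)
      + (1 : ℤ) • mo (0, 2, 0, 1, 0, 1)
      + (1 : ℤ) • mo (0, 0, 1, 1, 2, 0)
      + (-1 : ℤ) • (mo (0, 0, 0, 0, 0, 0) * (g 13 * g 14))
      + (-1 : ℤ) • (mo (0, 0, 0, 0, 0, 0) * (g 10 * g 11)))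
    (add_mem (add_mem (add_mem (add_mem (add_mem (zs (1) s91)
      (zs (-1) s90))
      (zs (1) s93))
      (zs (1) s92))
      (zs (-1) (gg 13 14 (0, 0, 0, 0, 0, 0))))
      (zs (-1) (gg 10 11 (0, 0, 0, 0, 0, 0))))
    (by simp only [mo, g10, g11, g13, g14, zsmul_eq_mul]; push_cast; ring)

theorem s95 : mo (0, 1, 3, 0, 0, 0) ∈ V :=
  mem_of 2 (by decide) (x := (1 : ℤ) • mo (0, 2, 0, 1, 0, 1)
      + (1 : ℤ) • mo (0, 0, 1, 1, 2, 0)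
      + (-1 : ℤ) • mo (3, 0, 0, 2, 0, 0)
      + (1 : ℤ) • mo (3, 0, 1, 0, 0, 1)
      + (-1 : ℤ) • (mo (0, 0, 0, 0, 0, 0) * (g 10 * g 11))
      + (2 : ℤ) • (mo (0, 0, 0, 0, 0, 0) * (g 4 * g 12))
      + (1 : ℤ) • (mo (0, 0, 0, 0, 0, 0) * (g 13 * g 14)))
    (add_mem (add_mem (add_mem (add_mem (add_mem (add_mem (zs (1) s93)
      (zs (1) s92))
      (zs (-1) s91))
      (zs (1) s90))
      (zs (-1) (gg 10 11 (0, 0, 0, 0, 0, 0))))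
      (zs (2) (gg 4 12 (0, 0, 0, 0, 0, 0))))
      (zs (1) (gg 13 14 (0, 0, 0, 0, 0, 0))))
    (by simp only [mo, g4, g10, g11, g12, g13, g14, zsmul_eq_mul]; push_cast; ring)

theorem s96 : mo (4, 1, 0, 0, 0, 0) ∈ V :=
  mem_of 2 (by decide) (x := (1 : ℤ) • mo (3, 0, 1, 0, 0, 1)
      + (2 : ℤ) • mo (1, 2, 0, 0, 1, 0)
      + (-1 : ℤ) • mo (0, 2, 0, 1, 0, 1)
      + (-1 : ℤ) • mo (0, 0, 1, 1, 2, 0)
      + (1 : ℤ) • mo (3, 0, 0, 2, 0, 0)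
      + (1 : ℤ) • (mo (0, 0, 0, 0, 0, 0) * (g 13 * g 14))
      + (-2 : ℤ) • (mo (0, 0, 0, 0, 0, 0) * (g 8 * g 14))
      + (1 : ℤ) • (mo (0, 0, 0, 0, 0, 0) * (g 10 * g 11)))
    (add_mem (add_mem (add_mem (add_mem (add_mem (add_mem (add_mem (zs (1) s90)
      (zs (2) (sm (1, 2, 0, 0, 1, 0) (by decide))))
      (zs (-1) s93))
      (zs (-1) s92))
      (zs (1) s91))
      (zs (1) (gg 13 14 (0, 0, 0, 0, 0, 0))))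
      (zs (-2) (gg 8 14 (0, 0, 0, 0, 0, 0))))
      (zs (1) (gg 10 11 (0, 0, 0, 0, 0, 0))))
    (by simp only [mo, g8, g10, g11, g13, g14, zsmul_eq_mul]; push_cast; ring)

theorem s97 : mo (0, 1, 1, 0, 1, 1) ∈ V :=
  mem_of 2 (by decide) (x := (1 : ℤ) • mo (0, 2, 0, 1, 0, 1)
      + (1 : ℤ) • mo (0, 0, 1, 1, 2, 0)
      + (-1 : ℤ) • mo (3, 0, 0, 2, 0, 0)
      + (1 : ℤ) • mo (3, 0, 1, 0, 0, 1)
      + (-1 : ℤ) • (mo (0, 0, 0, 0, 0, 0) * (g 10 * g 11))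
      + (1 : ℤ) • (mo (0, 0, 0, 0, 0, 0) * (g 13 * g 14)))
    (add_mem (add_mem (add_mem (add_mem (add_mem (zs (1) s93)
      (zs (1) s92))
      (zs (-1) s91))
      (zs (1) s90))
      (zs (-1) (gg 10 11 (0, 0, 0, 0, 0, 0))))
      (zs (1) (gg 13 14 (0, 0, 0, 0, 0, 0))))
    (by simp only [mo, g10, g11, g13, g14, zsmul_eq_mul]; push_cast; ring)

theorem s98 : mo (3, 0, 1, 1, 0, 0) ∈ V :=
  mem_of 1 (by decide) (x := (1 : ℤ) • (mo (1, 0, 0, 0, 0, 0) * (g 0 * g 1)))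
    (zs (1) (gg 0 1 (1, 0, 0, 0, 0, 0)))
    (by simp only [mo, g0, g1, zsmul_eq_mul]; push_cast; ring)

theorem s99 : mo (0, 1, 1, 1, 1, 0) ∈ V :=
  mem_of 1 (by decide) (x := (1 : ℤ) • mo (3, 0, 1, 1, 0, 0)
      + (1 : ℤ) • (mo (0, 0, 0, 0, 0, 0) * (g 5 * g 14)))
    (add_mem (zs (1) s98)
      (zs (1) (gg 5 14 (0, 0, 0, 0, 0, 0))))
    (by simp only [mo, g5, g14, zsmul_eq_mul]; push_cast; ring)

theorem s100 : mo (0, 2, 1, 0, 0, 1) ∈ V :=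
  mem_of 1 (by decide) (x := (1 : ℤ) • mo (0, 1, 1, 1, 1, 0)
      + (1 : ℤ) • (mo (0, 0, 0, 0, 0, 0) * (g 4 * g 11)))
    (add_mem (zs (1) s99)
      (zs (1) (gg 4 11 (0, 0, 0, 0, 0, 0))))
    (by simp only [mo, g4, g11, zsmul_eq_mul]; push_cast; ring)

theorem s101 : mo (0, 2, 0, 2, 0, 0) ∈ V :=
  mem_of 1 (by decide) (x := (1 : ℤ) • mo (0, 2, 1, 0, 0, 1)
      + (-1 : ℤ) • (mo (0, 0, 0, 0, 0, 0) * (g 3 * g 13)))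
    (add_mem (zs (1) s100)
      (zs (-1) (gg 3 13 (0, 0, 0, 0, 0, 0))))
    (by simp only [mo, g3, g13, zsmul_eq_mul]; push_cast; ring)

theorem s102 : mo (0, 0, 2, 0, 2, 0) ∈ V :=
  mem_of 1 (by decide) (x := (-1 : ℤ) • mo (0, 2, 0, 2, 0, 0)
      + (2 : ℤ) • mo (0, 1, 1, 1, 1, 0)
      + (1 : ℤ) • (mo (0, 0, 0, 0, 0, 0) * (g 10 * g 10)))
    (add_mem (add_mem (zs (-1) s101)
      (zs (2) s99))
      (zs (1) (gg 10 10 (0, 0, 0, 0, 0, 0))))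
    (by simp only [mo, g10, zsmul_eq_mul]; push_cast; ring)

theorem s103 : mo (1, 3, 0, 0, 0, 0) ∈ V :=
  mem_of 1 (by decide) (x := (1 : ℤ) • mo (0, 2, 0, 2, 0, 0)
      + (1 : ℤ) • (mo (0, 0, 0, 0, 0, 0) * (g 3 * g 8)))
    (add_mem (zs (1) s101)
      (zs (1) (gg 3 8 (0, 0, 0, 0, 0, 0))))
    (by simp only [mo, g3, g8, zsmul_eq_mul]; push_cast; ring)

theorem s104 : mo (0, 0, 0, 0, 3, 1) ∈ V :=
  mem_of 1 (by decide) (x := (1 : ℤ) • mo (0, 0, 2, 0, 2, 0)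
      + (-1 : ℤ) • (mo (0, 0, 0, 0, 0, 0) * (g 6 * g 12)))
    (add_mem (zs (1) s102)
      (zs (-1) (gg 6 12 (0, 0, 0, 0, 0, 0))))
    (by simp only [mo, g6, g12, zsmul_eq_mul]; push_cast; ring)

theorem s105 : mo (3, 0, 2, 0, 0, 0) ∈ V :=
  mem_of 1 (by decide) (x := (1 : ℤ) • (mo (1, 0, 0, 0, 0, 0) * (g 0 * g 0)))
    (zs (1) (gg 0 0 (1, 0, 0, 0, 0, 0)))
    (by simp only [mo, g0, zsmul_eq_mul]; push_cast; ring)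

theorem s106 : mo (2, 0, 0, 1, 0, 2) ∈ V :=
  mem_of 1 (by decide) (x := (1 : ℤ) • (mo (0, 0, 0, 0, 0, 1) * (g 1 * g 2)))
    (zs (1) (gg 1 2 (0, 0, 0, 0, 0, 1)))
    (by simp only [mo, g1, g2, zsmul_eq_mul]; push_cast; ring)

theorem s107 : mo (0, 2, 1, 1, 0, 0) ∈ V :=
  mem_of 1 (by decide) (x := (1 : ℤ) • (mo (0, 0, 0, 0, 0, 0) * (g 3 * g 5)))
    (zs (1) (gg 3 5 (0, 0, 0, 0, 0, 0)))
    (by simp only [mo, g3, g5, zsmul_eq_mul]; push_cast; ring)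

theorem s108 : mo (3, 0, 0, 0, 1, 1) ∈ V :=
  mem_of 1 (by decide) (x := (1 : ℤ) • mo (2, 0, 0, 1, 0, 2)
      + (1 : ℤ) • (mo (1, 0, 0, 0, 0, 0) * (g 2 * g 9)))
    (add_mem (zs (1) s106)
      (zs (1) (gg 2 9 (1, 0, 0, 0, 0, 0))))
    (by simp only [mo, g2, g9, zsmul_eq_mul]; push_cast; ring)

theorem s109 : mo (0, 1, 2, 0, 1, 0) ∈ V :=
  mem_of 1 (by decide) (x := (1 : ℤ) • mo (0, 2, 1, 1, 0, 0)
      + (-1 : ℤ) • (mo (0, 0, 0, 0, 0, 0) * (g 4 * g 10)))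
    (add_mem (zs (1) s107)
      (zs (-1) (gg 4 10 (0, 0, 0, 0, 0, 0))))
    (by simp only [mo, g4, g10, zsmul_eq_mul]; push_cast; ring)

theorem s110 : mo (0, 1, 0, 0, 2, 1) ∈ V :=
  mem_of 1 (by decide) (x := (1 : ℤ) • mo (0, 1, 2, 0, 1, 0)
      + (-1 : ℤ) • mo (3, 0, 2, 0, 0, 0)
      + (1 : ℤ) • mo (3, 0, 0, 0, 1, 1)
      + (-1 : ℤ) • (mo (0, 0, 0, 0, 0, 0) * (g 12 * g 14)))
    (add_mem (add_mem (add_mem (zs (1) s109)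
      (zs (-1) s105))
      (zs (1) s108))
      (zs (-1) (gg 12 14 (0, 0, 0, 0, 0, 0))))
    (by simp only [mo, g12, g14, zsmul_eq_mul]; push_cast; ring)

theorem s111 : mo (0, 0, 0, 1, 3, 0) ∈ V :=
  mem_of 1 (by decide) (x := (1 : ℤ) • mo (0, 1, 0, 0, 2, 1)
      + (-1 : ℤ) • (mo (0, 0, 0, 0, 0, 0) * (g 6 * g 11)))
    (add_mem (zs (1) s110)
      (zs (-1) (gg 6 11 (0, 0, 0, 0, 0, 0))))
    (by simp only [mo, g6, g11, zsmul_eq_mul]; push_cast; ring)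

theorem s112 : mo (2, 0, 0, 2, 0, 1) ∈ V :=
  mem_of 1 (by decide) (x := (1 : ℤ) • (mo (0, 0, 0, 0, 0, 1) * (g 1 * g 1)))
    (zs (1) (gg 1 1 (0, 0, 0, 0, 0, 1)))
    (by simp only [mo, g1, zsmul_eq_mul]; push_cast; ring)

theorem s113 : mo (0, 2, 2, 0, 0, 0) ∈ V :=
  mem_of 1 (by decide) (x := (1 : ℤ) • (mo (0, 0, 0, 0, 0, 0) * (g 4 * g 4)))
    (zs (1) (gg 4 4 (0, 0, 0, 0, 0, 0)))
    (by simp only [mo, g4, zsmul_eq_mul]; push_cast; ring)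

theorem s114 : mo (3, 0, 0, 1, 1, 0) ∈ V :=
  mem_of 1 (by decide) (x := (1 : ℤ) • mo (2, 0, 0, 2, 0, 1)
      + (1 : ℤ) • (mo (1, 0, 0, 0, 0, 0) * (g 1 * g 9)))
    (add_mem (zs (1) s112)
      (zs (1) (gg 1 9 (1, 0, 0, 0, 0, 0))))
    (by simp only [mo, g1, g9, zsmul_eq_mul]; push_cast; ring)

theorem s115 : mo (3, 1, 0, 0, 0, 1) ∈ V :=
  mem_of 1 (by decide) (x := (1 : ℤ) • mo (2, 0, 0, 2, 0, 1)
      + (1 : ℤ) • (mo (1, 0, 0, 0, 0, 0) * (g 2 * g 8)))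
    (add_mem (zs (1) s112)
      (zs (1) (gg 2 8 (1, 0, 0, 0, 0, 0))))
    (by simp only [mo, g2, g8, zsmul_eq_mul]; push_cast; ring)

theorem s116 : mo (0, 2, 0, 0, 1, 1) ∈ V :=
  mem_of 1 (by decide) (x := (1 : ℤ) • mo (0, 2, 2, 0, 0, 0)
      + (-1 : ℤ) • (mo (0, 0, 0, 0, 0, 0) * (g 3 * g 12)))
    (add_mem (zs (1) s113)
      (zs (-1) (gg 3 12 (0, 0, 0, 0, 0, 0))))
    (by simp only [mo, g3, g12, zsmul_eq_mul]; push_cast; ring)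

theorem s117 : mo (0, 1, 0, 1, 2, 0) ∈ V :=
  mem_of 1 (by decide) (x := (1 : ℤ) • mo (0, 2, 0, 0, 1, 1)
      + (-1 : ℤ) • mo (3, 1, 0, 0, 0, 1)
      + (1 : ℤ) • mo (3, 0, 0, 1, 1, 0)
      + (-1 : ℤ) • (mo (0, 0, 0, 0, 0, 0) * (g 11 * g 14)))
    (add_mem (add_mem (add_mem (zs (1) s116)
      (zs (-1) s115))
      (zs (1) s114))
      (zs (-1) (gg 11 14 (0, 0, 0, 0, 0, 0))))
    (by simp only [mo, g11, g14, zsmul_eq_mul]; push_cast; ring)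

theorem s118 : mo (0, 0, 1, 0, 3, 0) ∈ V :=
  mem_of 1 (by decide) (x := (1 : ℤ) • mo (0, 1, 0, 1, 2, 0)
      + (-1 : ℤ) • (mo (0, 0, 0, 0, 0, 0) * (g 6 * g 10)))
    (add_mem (zs (1) s117)
      (zs (-1) (gg 6 10 (0, 0, 0, 0, 0, 0))))
    (by simp only [mo, g6, g10, zsmul_eq_mul]; push_cast; ring)

theorem s119 : mo (2, 0, 1, 1, 0, 1) ∈ V :=
  mem_of 1 (by decide) (x := (1 : ℤ) • (mo (0, 0, 0, 0, 0, 1) * (g 0 * g 1)))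
    (zs (1) (gg 0 1 (0, 0, 0, 0, 0, 1)))
    (by simp only [mo, g0, g1, zsmul_eq_mul]; push_cast; ring)

theorem s120 : mo (2, 0, 0, 3, 0, 0) ∈ V :=
  mem_of 1 (by decide) (x := (1 : ℤ) • (mo (0, 0, 0, 1, 0, 0) * (g 1 * g 1)))
    (zs (1) (gg 1 1 (0, 0, 0, 1, 0, 0)))
    (by simp only [mo, g1, zsmul_eq_mul]; push_cast; ring)

theorem s121 : mo (0, 1, 1, 0, 2, 0) ∈ V :=
  mem_of 1 (by decide) (x := (1 : ℤ) • (mo (0, 0, 0, 0, 0, 0) * (g 4 * g 6)))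
    (zs (1) (gg 4 6 (0, 0, 0, 0, 0, 0)))
    (by simp only [mo, g4, g6, zsmul_eq_mul]; push_cast; ring)

theorem s122 : mo (3, 0, 1, 0, 1, 0) ∈ V :=
  mem_of 1 (by decide) (x := (1 : ℤ) • mo (2, 0, 1, 1, 0, 1)
      + (1 : ℤ) • (mo (1, 0, 0, 0, 0, 0) * (g 0 * g 9)))
    (add_mem (zs (1) s119)
      (zs (1) (gg 0 9 (1, 0, 0, 0, 0, 0))))
    (by simp only [mo, g0, g9, zsmul_eq_mul]; push_cast; ring)

theorem s123 : mo (3, 1, 0, 1, 0, 0) ∈ V :=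
  mem_of 1 (by decide) (x := (1 : ℤ) • mo (2, 0, 0, 3, 0, 0)
      + (1 : ℤ) • (mo (1, 0, 0, 0, 0, 0) * (g 1 * g 8)))
    (add_mem (zs (1) s120)
      (zs (1) (gg 1 8 (1, 0, 0, 0, 0, 0))))
    (by simp only [mo, g1, g8, zsmul_eq_mul]; push_cast; ring)

theorem s124 : mo (0, 2, 0, 1, 1, 0) ∈ V :=
  mem_of 1 (by decide) (x := (1 : ℤ) • mo (3, 1, 0, 1, 0, 0)
      + (1 : ℤ) • mo (0, 1, 1, 0, 2, 0)
      + (-1 : ℤ) • mo (3, 0, 1, 0, 1, 0)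
      + (1 : ℤ) • (mo (0, 0, 0, 0, 0, 0) * (g 10 * g 14)))
    (add_mem (add_mem (add_mem (zs (1) s123)
      (zs (1) s121))
      (zs (-1) s122))
      (zs (1) (gg 10 14 (0, 0, 0, 0, 0, 0))))
    (by simp only [mo, g10, g14, zsmul_eq_mul]; push_cast; ring)

theorem s125 : mo (0, 3, 0, 0, 0, 1) ∈ V :=
  mem_of 1 (by decide) (x := (1 : ℤ) • mo (0, 2, 0, 1, 1, 0)
      + (1 : ℤ) • (mo (0, 0, 0, 0, 0, 0) * (g 3 * g 11)))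
    (add_mem (zs (1) s124)
      (zs (1) (gg 3 11 (0, 0, 0, 0, 0, 0))))
    (by simp only [mo, g3, g11, zsmul_eq_mul]; push_cast; ring)

theorem s126 : mo (2, 0, 1, 2, 0, 0) ∈ V :=
  mem_of 1 (by decide) (x := (1 : ℤ) • (mo (0, 0, 0, 1, 0, 0) * (g 0 * g 1)))
    (zs (1) (gg 0 1 (0, 0, 0, 1, 0, 0)))
    (by simp only [mo, g0, g1, zsmul_eq_mul]; push_cast; ring)

theorem s127 : mo (0, 0, 0, 0, 4, 0) ∈ V :=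
  mem_of 1 (by decide) (x := (1 : ℤ) • (mo (0, 0, 0, 0, 0, 0) * (g 6 * g 6)))
    (zs (1) (gg 6 6 (0, 0, 0, 0, 0, 0)))
    (by simp only [mo, g6, zsmul_eq_mul]; push_cast; ring)

theorem s128 : mo (3, 1, 1, 0, 0, 0) ∈ V :=
  mem_of 1 (by decide) (x := (1 : ℤ) • mo (2, 0, 1, 2, 0, 0)
      + (1 : ℤ) • (mo (1, 0, 0, 0, 0, 0) * (g 0 * g 8)))
    (add_mem (zs (1) s126)
      (zs (1) (gg 0 8 (1, 0, 0, 0, 0, 0))))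
    (by simp only [mo, g0, g8, zsmul_eq_mul]; push_cast; ring)

theorem s129 : mo (0, 2, 1, 0, 1, 0) ∈ V :=
  mem_of 1 (by decide) (x := (1 : ℤ) • mo (3, 1, 1, 0, 0, 0)
      + (1 : ℤ) • (mo (0, 0, 0, 0, 0, 0) * (g 4 * g 14)))
    (add_mem (zs (1) s128)
      (zs (1) (gg 4 14 (0, 0, 0, 0, 0, 0))))
    (by simp only [mo, g4, g14, zsmul_eq_mul]; push_cast; ring)

theorem s130 : mo (0, 3, 0, 1, 0, 0) ∈ V :=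
  mem_of 1 (by decide) (x := (1 : ℤ) • mo (0, 2, 1, 0, 1, 0)
      + (1 : ℤ) • (mo (0, 0, 0, 0, 0, 0) * (g 3 * g 10)))
    (add_mem (zs (1) s129)
      (zs (1) (gg 3 10 (0, 0, 0, 0, 0, 0))))
    (by simp only [mo, g3, g10, zsmul_eq_mul]; push_cast; ring)

theorem s131 : mo (2, 0, 0, 1, 1, 1) ∈ V :=
  mem_of 1 (by decide) (x := (1 : ℤ) • (mo (0, 0, 0, 0, 1, 0) * (g 1 * g 2)))
    (zs (1) (gg 1 2 (0, 0, 0, 0, 1, 0)))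
    (by simp only [mo, g1, g2, zsmul_eq_mul]; push_cast; ring)

theorem s132 : mo (1, 0, 0, 2, 0, 2) ∈ V :=
  mem_of 1 (by decide) (x := (1 : ℤ) • (mo (0, 0, 0, 1, 0, 0) * (g 1 * g 7)))
    (zs (1) (gg 1 7 (0, 0, 0, 1, 0, 0)))
    (by simp only [mo, g1, g7, zsmul_eq_mul]; push_cast; ring)

theorem s133 : mo (0, 3, 1, 0, 0, 0) ∈ V :=
  mem_of 1 (by decide) (x := (1 : ℤ) • (mo (0, 0, 0, 0, 0, 0) * (g 3 * g 4)))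
    (zs (1) (gg 3 4 (0, 0, 0, 0, 0, 0)))
    (by simp only [mo, g3, g4, zsmul_eq_mul]; push_cast; ring)

theorem s134 : mo (3, 0, 0, 0, 2, 0) ∈ V :=
  mem_of 1 (by decide) (x := (2 : ℤ) • mo (2, 0, 0, 1, 1, 1)
      + (-1 : ℤ) • mo (1, 0, 0, 2, 0, 2)
      + (1 : ℤ) • (mo (1, 0, 0, 0, 0, 0) * (g 9 * g 9)))
    (add_mem (add_mem (zs (2) s131)
      (zs (-1) s132))
      (zs (1) (gg 9 9 (1, 0, 0, 0, 0, 0))))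
    (by simp only [mo, g9, zsmul_eq_mul]; push_cast; ring)

theorem s135 : mo (0, 1, 0, 0, 3, 0) ∈ V :=
  mem_of 1 (by decide) (x := (1 : ℤ) • mo (3, 0, 0, 0, 2, 0)
      + (1 : ℤ) • (mo (0, 0, 0, 0, 0, 0) * (g 6 * g 14)))
    (add_mem (zs (1) s134)
      (zs (1) (gg 6 14 (0, 0, 0, 0, 0, 0))))
    (by simp only [mo, g6, g14, zsmul_eq_mul]; push_cast; ring)

theorem s136 : mo (2, 0, 0, 2, 1, 0) ∈ V :=
  mem_of 1 (by decide) (x := (1 : ℤ) • (mo (0, 0, 0, 0, 1, 0) * (g 1 * g 1)))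
    (zs (1) (gg 1 1 (0, 0, 0, 0, 1, 0)))
    (by simp only [mo, g1, zsmul_eq_mul]; push_cast; ring)

theorem s137 : mo (2, 1, 0, 1, 0, 1) ∈ V :=
  mem_of 1 (by decide) (x := (1 : ℤ) • (mo (0, 1, 0, 0, 0, 0) * (g 1 * g 2)))
    (zs (1) (gg 1 2 (0, 1, 0, 0, 0, 0)))
    (by simp only [mo, g1, g2, zsmul_eq_mul]; push_cast; ring)

theorem s138 : mo (0, 2, 0, 0, 2, 0) ∈ V :=
  mem_of 1 (by decide) (x := (1 : ℤ) • (mo (0, 0, 0, 0, 0, 0) * (g 3 * g 6)))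
    (zs (1) (gg 3 6 (0, 0, 0, 0, 0, 0)))
    (by simp only [mo, g3, g6, zsmul_eq_mul]; push_cast; ring)

theorem s139 : mo (1, 0, 0, 3, 0, 1) ∈ V :=
  mem_of 1 (by decide) (x := (1 : ℤ) • mo (2, 1, 0, 1, 0, 1)
      + (-1 : ℤ) • (mo (0, 0, 0, 0, 0, 1) * (g 1 * g 8)))
    (add_mem (zs (1) s137)
      (zs (-1) (gg 1 8 (0, 0, 0, 0, 0, 1))))
    (by simp only [mo, g1, g8, zsmul_eq_mul]; push_cast; ring)

theorem s140 : mo (3, 1, 0, 0, 1, 0) ∈ V :=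
  mem_of 1 (by decide) (x := (1 : ℤ) • mo (2, 1, 0, 1, 0, 1)
      + (1 : ℤ) • mo (2, 0, 0, 2, 1, 0)
      + (-1 : ℤ) • mo (1, 0, 0, 3, 0, 1)
      + (1 : ℤ) • (mo (1, 0, 0, 0, 0, 0) * (g 8 * g 9)))
    (add_mem (add_mem (add_mem (zs (1) s137)
      (zs (1) s136))
      (zs (-1) s139))
      (zs (1) (gg 8 9 (1, 0, 0, 0, 0, 0))))
    (by simp only [mo, g8, g9, zsmul_eq_mul]; push_cast; ring)

theorem s141 : mo (6, 0, 0, 0, 0, 0) ∈ V :=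
  mem_of 1 (by decide) (x := (-1 : ℤ) • mo (0, 2, 0, 0, 2, 0)
      + (2 : ℤ) • mo (3, 1, 0, 0, 1, 0)
      + (1 : ℤ) • (mo (0, 0, 0, 0, 0, 0) * (g 14 * g 14)))
    (add_mem (add_mem (zs (-1) s138)
      (zs (2) s140))
      (zs (1) (gg 14 14 (0, 0, 0, 0, 0, 0))))
    (by simp only [mo, g14, zsmul_eq_mul]; push_cast; ring)

theorem s142 : mo (2, 1, 0, 2, 0, 0) ∈ V :=
  mem_of 1 (by decide) (x := (1 : ℤ) • (mo (0, 1, 0, 0, 0, 0) * (g 1 * g 1)))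
    (zs (1) (gg 1 1 (0, 1, 0, 0, 0, 0)))
    (by simp only [mo, g1, zsmul_eq_mul]; push_cast; ring)

theorem s143 : mo (1, 0, 0, 4, 0, 0) ∈ V :=
  mem_of 1 (by decide) (x := (1 : ℤ) • mo (2, 1, 0, 2, 0, 0)
      + (-1 : ℤ) • (mo (0, 0, 0, 1, 0, 0) * (g 1 * g 8)))
    (add_mem (zs (1) s142)
      (zs (-1) (gg 1 8 (0, 0, 0, 1, 0, 0))))
    (by simp only [mo, g1, g8, zsmul_eq_mul]; push_cast; ring)

theorem s144 : mo (3, 2, 0, 0, 0, 0) ∈ V :=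
  mem_of 1 (by decide) (x := (2 : ℤ) • mo (2, 1, 0, 2, 0, 0)
      + (-1 : ℤ) • mo (1, 0, 0, 4, 0, 0)
      + (1 : ℤ) • (mo (1, 0, 0, 0, 0, 0) * (g 8 * g 8)))
    (add_mem (add_mem (zs (2) s142)
      (zs (-1) s143))
      (zs (1) (gg 8 8 (1, 0, 0, 0, 0, 0))))
    (by simp only [mo, g8, zsmul_eq_mul]; push_cast; ring)

theorem s145 : mo (0, 3, 0, 0, 1, 0) ∈ V :=
  mem_of 1 (by decide) (x := (1 : ℤ) • mo (3, 2, 0, 0, 0, 0)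
      + (1 : ℤ) • (mo (0, 0, 0, 0, 0, 0) * (g 3 * g 14)))
    (add_mem (zs (1) s144)
      (zs (1) (gg 3 14 (0, 0, 0, 0, 0, 0))))
    (by simp only [mo, g3, g14, zsmul_eq_mul]; push_cast; ring)

theorem s146 : mo (0, 4, 0, 0, 0, 0) ∈ V :=
  mem_of 1 (by decide) (x := (1 : ℤ) • (mo (0, 0, 0, 0, 0, 0) * (g 3 * g 3)))
    (zs (1) (gg 3 3 (0, 0, 0, 0, 0, 0)))
    (by simp only [mo, g3, zsmul_eq_mul]; push_cast; ring)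

theorem s147 : mo (2, 0, 0, 1, 2, 0) ∈ V :=
  mem_of 1 (by decide) (x := (1 : ℤ) • (mo (1, 0, 0, 0, 0, 0) * (g 1 * g 6)))
    (zs (1) (gg 1 6 (1, 0, 0, 0, 0, 0)))
    (by simp only [mo, g1, g6, zsmul_eq_mul]; push_cast; ring)

theorem s148 : mo (1, 0, 0, 2, 1, 1) ∈ V :=
  mem_of 1 (by decide) (x := (1 : ℤ) • mo (2, 0, 0, 1, 2, 0)
      + (-1 : ℤ) • (mo (0, 0, 0, 0, 1, 0) * (g 1 * g 9)))
    (add_mem (zs (1) s147)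
      (zs (-1) (gg 1 9 (0, 0, 0, 0, 1, 0))))
    (by simp only [mo, g1, g9, zsmul_eq_mul]; push_cast; ring)

theorem s149 : mo (2, 1, 0, 0, 1, 1) ∈ V :=
  mem_of 1 (by decide) (x := (1 : ℤ) • mo (1, 0, 0, 2, 1, 1)
      + (1 : ℤ) • (mo (0, 0, 0, 0, 1, 0) * (g 2 * g 8)))
    (add_mem (zs (1) s148)
      (zs (1) (gg 2 8 (0, 0, 0, 0, 1, 0))))
    (by simp only [mo, g2, g8, zsmul_eq_mul]; push_cast; ring)

theorem s150 : mo (5, 0, 0, 0, 0, 1) ∈ V :=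
  mem_of 1 (by decide) (x := (1 : ℤ) • mo (2, 1, 0, 0, 1, 1)
      + (-1 : ℤ) • (mo (1, 0, 0, 0, 0, 0) * (g 2 * g 14)))
    (add_mem (zs (1) s149)
      (zs (-1) (gg 2 14 (1, 0, 0, 0, 0, 0))))
    (by simp only [mo, g2, g14, zsmul_eq_mul]; push_cast; ring)

theorem s151 : mo (2, 2, 0, 0, 0, 1) ∈ V :=
  mem_of 1 (by decide) (x := (1 : ℤ) • (mo (1, 0, 0, 0, 0, 0) * (g 2 * g 3)))
    (zs (1) (gg 2 3 (1, 0, 0, 0, 0, 0)))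
    (by simp only [mo, g2, g3, zsmul_eq_mul]; push_cast; ring)

theorem s152 : mo (1, 0, 1, 1, 1, 1) ∈ V :=
  mem_of 1 (by decide) (x := (1 : ℤ) • (mo (0, 0, 0, 0, 1, 0) * (g 2 * g 5)))
    (zs (1) (gg 2 5 (0, 0, 0, 0, 1, 0)))
    (by simp only [mo, g2, g5, zsmul_eq_mul]; push_cast; ring)

theorem s153 : mo (1, 1, 0, 2, 0, 1) ∈ V :=
  mem_of 1 (by decide) (x := (1 : ℤ) • mo (1, 0, 1, 1, 1, 1)
      + (1 : ℤ) • (mo (0, 0, 0, 0, 0, 1) * (g 1 * g 10)))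
    (add_mem (zs (1) s152)
      (zs (1) (gg 1 10 (0, 0, 0, 0, 0, 1))))
    (by simp only [mo, g1, g10, zsmul_eq_mul]; push_cast; ring)

theorem s154 : mo (1, 0, 0, 3, 1, 0) ∈ V :=
  mem_of 1 (by decide) (x := (1 : ℤ) • mo (1, 1, 0, 2, 0, 1)
      + (-1 : ℤ) • (mo (0, 0, 0, 1, 0, 0) * (g 1 * g 11)))
    (add_mem (zs (1) s153)
      (zs (-1) (gg 1 11 (0, 0, 0, 1, 0, 0))))
    (by simp only [mo, g1, g11, zsmul_eq_mul]; push_cast; ring)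

theorem s155 : mo (0, 0, 0, 4, 0, 1) ∈ V :=
  mem_of 1 (by decide) (x := (-1 : ℤ) • mo (2, 2, 0, 0, 0, 1)
      + (2 : ℤ) • mo (1, 1, 0, 2, 0, 1)
      + (1 : ℤ) • (mo (0, 0, 0, 0, 0, 1) * (g 8 * g 8)))
    (add_mem (add_mem (zs (-1) s151)
      (zs (2) s153))
      (zs (1) (gg 8 8 (0, 0, 0, 0, 0, 1))))
    (by simp only [mo, g8, zsmul_eq_mul]; push_cast; ring)

theorem s156 : mo (2, 1, 0, 1, 1, 0) ∈ V :=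
  mem_of 1 (by decide) (x := (1 : ℤ) • mo (1, 1, 0, 2, 0, 1)
      + (1 : ℤ) • mo (1, 0, 0, 3, 1, 0)
      + (-1 : ℤ) • mo (0, 0, 0, 4, 0, 1)
      + (1 : ℤ) • (mo (0, 0, 0, 1, 0, 0) * (g 8 * g 9)))
    (add_mem (add_mem (add_mem (zs (1) s153)
      (zs (1) s154))
      (zs (-1) s155))
      (zs (1) (gg 8 9 (0, 0, 0, 1, 0, 0))))
    (by simp only [mo, g8, g9, zsmul_eq_mul]; push_cast; ring)

theorem s157 : mo (5, 0, 0, 1, 0, 0) ∈ V :=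
  mem_of 1 (by decide) (x := (1 : ℤ) • mo (2, 1, 0, 1, 1, 0)
      + (-1 : ℤ) • (mo (1, 0, 0, 0, 0, 0) * (g 1 * g 14)))
    (add_mem (zs (1) s156)
      (zs (-1) (gg 1 14 (1, 0, 0, 0, 0, 0))))
    (by simp only [mo, g1, g14, zsmul_eq_mul]; push_cast; ring)

theorem s158 : mo (1, 0, 1, 2, 1, 0) ∈ V :=
  mem_of 1 (by decide) (x := (1 : ℤ) • (mo (0, 0, 0, 0, 1, 0) * (g 1 * g 5)))
    (zs (1) (gg 1 5 (0, 0, 0, 0, 1, 0)))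
    (by simp only [mo, g1, g5, zsmul_eq_mul]; push_cast; ring)

theorem s159 : mo (2, 1, 1, 0, 1, 0) ∈ V :=
  mem_of 1 (by decide) (x := (1 : ℤ) • mo (1, 0, 1, 2, 1, 0)
      + (1 : ℤ) • (mo (0, 0, 0, 0, 1, 0) * (g 0 * g 8)))
    (add_mem (zs (1) s158)
      (zs (1) (gg 0 8 (0, 0, 0, 0, 1, 0))))
    (by simp only [mo, g0, g8, zsmul_eq_mul]; push_cast; ring)

theorem s160 : mo (5, 0, 1, 0, 0, 0) ∈ V :=
  mem_of 1 (by decide) (x := (1 : ℤ) • mo (2, 1, 1, 0, 1, 0)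
      + (-1 : ℤ) • (mo (1, 0, 0, 0, 0, 0) * (g 0 * g 14)))
    (add_mem (zs (1) s159)
      (zs (-1) (gg 0 14 (1, 0, 0, 0, 0, 0))))
    (by simp only [mo, g0, g14, zsmul_eq_mul]; push_cast; ring)

theorem s161 : mo (1, 0, 0, 1, 2, 1) ∈ V :=
  mem_of 1 (by decide) (x := (1 : ℤ) • (mo (0, 0, 0, 0, 0, 1) * (g 1 * g 6)))
    (zs (1) (gg 1 6 (0, 0, 0, 0, 0, 1)))
    (by simp only [mo, g1, g6, zsmul_eq_mul]; push_cast; ring)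

theorem s162 : mo (1, 1, 0, 0, 1, 2) ∈ V :=
  mem_of 1 (by decide) (x := (1 : ℤ) • mo (1, 0, 0, 1, 2, 1)
      + (1 : ℤ) • (mo (0, 0, 0, 0, 1, 0) * (g 2 * g 11)))
    (add_mem (zs (1) s161)
      (zs (1) (gg 2 11 (0, 0, 0, 0, 1, 0))))
    (by simp only [mo, g2, g11, zsmul_eq_mul]; push_cast; ring)

theorem s163 : mo (4, 0, 0, 1, 0, 1) ∈ V :=
  mem_of 1 (by decide) (x := (1 : ℤ) • (mo (2, 0, 0, 0, 0, 0) * (g 1 * g 2)))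
    (zs (1) (gg 1 2 (2, 0, 0, 0, 0, 0)))
    (by simp only [mo, g1, g2, zsmul_eq_mul]; push_cast; ring)

theorem s164 : mo (1, 0, 0, 2, 2, 0) ∈ V :=
  mem_of 1 (by decide) (x := (1 : ℤ) • (mo (0, 0, 0, 1, 0, 0) * (g 1 * g 6)))
    (zs (1) (gg 1 6 (0, 0, 0, 1, 0, 0)))
    (by simp only [mo, g1, g6, zsmul_eq_mul]; push_cast; ring)

theorem s165 : mo (1, 1, 0, 1, 1, 1) ∈ V :=
  mem_of 1 (by decide) (x := (1 : ℤ) • mo (1, 0, 0, 2, 2, 0)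
      + (1 : ℤ) • (mo (0, 0, 0, 0, 1, 0) * (g 1 * g 11)))
    (add_mem (zs (1) s164)
      (zs (1) (gg 1 11 (0, 0, 0, 0, 1, 0))))
    (by simp only [mo, g1, g11, zsmul_eq_mul]; push_cast; ring)

theorem s166 : mo (2, 1, 0, 0, 2, 0) ∈ V :=
  mem_of 1 (by decide) (x := (1 : ℤ) • mo (1, 0, 0, 2, 2, 0)
      + (1 : ℤ) • (mo (1, 0, 0, 0, 0, 0) * (g 6 * g 8)))
    (add_mem (zs (1) s164)
      (zs (1) (gg 6 8 (1, 0, 0, 0, 0, 0))))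
    (by simp only [mo, g6, g8, zsmul_eq_mul]; push_cast; ring)

theorem s167 : mo (5, 0, 0, 0, 1, 0) ∈ V :=
  mem_of 1 (by decide) (x := (1 : ℤ) • mo (2, 1, 0, 0, 2, 0)
      + (-1 : ℤ) • mo (1, 1, 0, 1, 1, 1)
      + (1 : ℤ) • mo (4, 0, 0, 1, 0, 1)
      + (-1 : ℤ) • (mo (1, 0, 0, 0, 0, 0) * (g 9 * g 14)))
    (add_mem (add_mem (add_mem (zs (1) s166)
      (zs (-1) s165))
      (zs (1) s163))
      (zs (-1) (gg 9 14 (1, 0, 0, 0, 0, 0))))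
    (by simp only [mo, g9, g14, zsmul_eq_mul]; push_cast; ring)

theorem s168 : mo (1, 0, 1, 1, 2, 0) ∈ V :=
  mem_of 1 (by decide) (x := (1 : ℤ) • (mo (0, 0, 0, 1, 0, 0) * (g 0 * g 6)))
    (zs (1) (gg 0 6 (0, 0, 0, 1, 0, 0)))
    (by simp only [mo, g0, g6, zsmul_eq_mul]; push_cast; ring)

theorem s169 : mo (4, 0, 0, 2, 0, 0) ∈ V :=
  mem_of 1 (by decide) (x := (1 : ℤ) • (mo (2, 0, 0, 0, 0, 0) * (g 1 * g 1)))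
    (zs (1) (gg 1 1 (2, 0, 0, 0, 0, 0)))
    (by simp only [mo, g1, zsmul_eq_mul]; push_cast; ring)

theorem s170 : mo (1, 2, 0, 1, 0, 1) ∈ V :=
  mem_of 1 (by decide) (x := (1 : ℤ) • (mo (0, 0, 0, 0, 0, 1) * (g 1 * g 3)))
    (zs (1) (gg 1 3 (0, 0, 0, 0, 0, 1)))
    (by simp only [mo, g1, g3, zsmul_eq_mul]; push_cast; ring)

theorem s171 : mo (1, 1, 1, 0, 1, 1) ∈ V :=
  mem_of 1 (by decide) (x := (1 : ℤ) • (mo (0, 0, 0, 0, 1, 0) * (g 2 * g 4)))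
    (zs (1) (gg 2 4 (0, 0, 0, 0, 1, 0)))
    (by simp only [mo, g2, g4, zsmul_eq_mul]; push_cast; ring)

theorem s172 : mo (1, 1, 0, 2, 1, 0) ∈ V :=
  mem_of 1 (by decide) (x := (1 : ℤ) • mo (1, 0, 1, 1, 2, 0)
      + (1 : ℤ) • (mo (0, 0, 0, 0, 1, 0) * (g 1 * g 10)))
    (add_mem (zs (1) s168)
      (zs (1) (gg 1 10 (0, 0, 0, 0, 1, 0))))
    (by simp only [mo, g1, g10, zsmul_eq_mul]; push_cast; ring)

theorem s173 : mo (2, 2, 0, 0, 1, 0) ∈ V :=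
  mem_of 1 (by decide) (x := (1 : ℤ) • mo (1, 2, 0, 1, 0, 1)
      + (1 : ℤ) • (mo (1, 0, 0, 0, 0, 0) * (g 3 * g 9)))
    (add_mem (zs (1) s170)
      (zs (1) (gg 3 9 (1, 0, 0, 0, 0, 0))))
    (by simp only [mo, g3, g9, zsmul_eq_mul]; push_cast; ring)

theorem s174 : mo (5, 1, 0, 0, 0, 0) ∈ V :=
  mem_of 1 (by decide) (x := (1 : ℤ) • mo (2, 2, 0, 0, 1, 0)
      + (-1 : ℤ) • mo (1, 1, 0, 2, 1, 0)
      + (1 : ℤ) • mo (4, 0, 0, 2, 0, 0)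
      + (-1 : ℤ) • (mo (1, 0, 0, 0, 0, 0) * (g 8 * g 14)))
    (add_mem (add_mem (add_mem (zs (1) s173)
      (zs (-1) s172))
      (zs (1) s169))
      (zs (-1) (gg 8 14 (1, 0, 0, 0, 0, 0))))
    (by simp only [mo, g8, g14, zsmul_eq_mul]; push_cast; ring)

theorem s175 : mo (1, 1, 1, 1, 1, 0) ∈ V :=
  mem_of 1 (by decide) (x := (1 : ℤ) • (mo (0, 0, 0, 0, 1, 0) * (g 1 * g 4)))
    (zs (1) (gg 1 4 (0, 0, 0, 0, 1, 0)))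
    (by simp only [mo, g1, g4, zsmul_eq_mul]; push_cast; ring)

theorem s176 : mo (1, 1, 2, 0, 1, 0) ∈ V :=
  mem_of 1 (by decide) (x := (1 : ℤ) • (mo (0, 0, 0, 0, 1, 0) * (g 0 * g 4)))
    (zs (1) (gg 0 4 (0, 0, 0, 0, 1, 0)))
    (by simp only [mo, g0, g4, zsmul_eq_mul]; push_cast; ring)

theorem s177 : mo (1, 1, 0, 0, 2, 1) ∈ V :=
  mem_of 1 (by decide) (x := (1 : ℤ) • (mo (0, 1, 0, 0, 0, 0) * (g 2 * g 6)))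
    (zs (1) (gg 2 6 (0, 1, 0, 0, 0, 0)))
    (by simp only [mo, g2, g6, zsmul_eq_mul]; push_cast; ring)

theorem s178 : mo (1, 1, 0, 1, 2, 0) ∈ V :=
  mem_of 1 (by decide) (x := (1 : ℤ) • (mo (0, 1, 0, 0, 0, 0) * (g 1 * g 6)))
    (zs (1) (gg 1 6 (0, 1, 0, 0, 0, 0)))
    (by simp only [mo, g1, g6, zsmul_eq_mul]; push_cast; ring)

theorem s179 : mo (1, 2, 0, 0, 1, 1) ∈ V :=
  mem_of 1 (by decide) (x := (1 : ℤ) • (mo (0, 0, 0, 0, 1, 0) * (g 2 * g 3)))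
    (zs (1) (gg 2 3 (0, 0, 0, 0, 1, 0)))
    (by simp only [mo, g2, g3, zsmul_eq_mul]; push_cast; ring)

theorem s180 : mo (1, 1, 1, 0, 2, 0) ∈ V :=
  mem_of 1 (by decide) (x := (1 : ℤ) • (mo (0, 1, 0, 0, 0, 0) * (g 0 * g 6)))
    (zs (1) (gg 0 6 (0, 1, 0, 0, 0, 0)))
    (by simp only [mo, g0, g6, zsmul_eq_mul]; push_cast; ring)

theorem s181 : mo (1, 2, 0, 1, 1, 0) ∈ V :=
  mem_of 1 (by decide) (x := (1 : ℤ) • (mo (0, 0, 0, 0, 1, 0) * (g 1 * g 3)))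
    (zs (1) (gg 1 3 (0, 0, 0, 0, 1, 0)))
    (by simp only [mo, g1, g3, zsmul_eq_mul]; push_cast; ring)

theorem s182 : mo (1, 2, 1, 0, 1, 0) ∈ V :=
  mem_of 1 (by decide) (x := (1 : ℤ) • (mo (0, 0, 0, 0, 1, 0) * (g 0 * g 3)))
    (zs (1) (gg 0 3 (0, 0, 0, 0, 1, 0)))
    (by simp only [mo, g0, g3, zsmul_eq_mul]; push_cast; ring)

theorem s183 : mo (0, 2, 0, 0, 1, 2) ∈ V :=
  mem_of 1 (by decide) (x := (1 : ℤ) • (mo (0, 0, 0, 0, 1, 0) * (g 3 * g 7)))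
    (zs (1) (gg 3 7 (0, 0, 0, 0, 1, 0)))
    (by simp only [mo, g3, g7, zsmul_eq_mul]; push_cast; ring)

theorem s184 : mo (0, 2, 2, 0, 0, 1) ∈ V :=
  mem_of 1 (by decide) (x := (1 : ℤ) • (mo (0, 0, 0, 0, 0, 1) * (g 4 * g 4)))
    (zs (1) (gg 4 4 (0, 0, 0, 0, 0, 1)))
    (by simp only [mo, g4, zsmul_eq_mul]; push_cast; ring)

theorem s185 : mo (0, 1, 2, 1, 1, 0) ∈ V :=
  mem_of 1 (by decide) (x := (1 : ℤ) • (mo (0, 0, 0, 0, 1, 0) * (g 4 * g 5)))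
    (zs (1) (gg 4 5 (0, 0, 0, 0, 1, 0)))
    (by simp only [mo, g4, g5, zsmul_eq_mul]; push_cast; ring)

theorem s186 : mo (0, 1, 0, 1, 2, 1) ∈ V :=
  mem_of 1 (by decide) (x := (-1 : ℤ) • mo (0, 2, 2, 0, 0, 1)
      + (1 : ℤ) • mo (0, 2, 0, 0, 1, 2)
      + (1 : ℤ) • mo (0, 1, 2, 1, 1, 0)
      + (1 : ℤ) • (mo (0, 1, 0, 0, 0, 0) * (g 11 * g 12)))
    (add_mem (add_mem (add_mem (zs (-1) s184)
      (zs (1) s183))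
      (zs (1) s185))
      (zs (1) (gg 11 12 (0, 1, 0, 0, 0, 0))))
    (by simp only [mo, g11, g12, zsmul_eq_mul]; push_cast; ring)

theorem s187 : mo (1, 1, 0, 0, 3, 0) ∈ V :=
  mem_of 1 (by decide) (x := (1 : ℤ) • mo (0, 1, 0, 1, 2, 1)
      + (1 : ℤ) • (mo (0, 1, 0, 0, 0, 0) * (g 6 * g 9)))
    (add_mem (zs (1) s186)
      (zs (1) (gg 6 9 (0, 1, 0, 0, 0, 0))))
    (by simp only [mo, g6, g9, zsmul_eq_mul]; push_cast; ring)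

theorem s188 : mo (1, 2, 0, 0, 2, 0) ∈ V :=
  mem_of 1 (by decide) (x := (1 : ℤ) • (mo (1, 0, 0, 0, 0, 0) * (g 3 * g 6)))
    (zs (1) (gg 3 6 (1, 0, 0, 0, 0, 0)))
    (by simp only [mo, g3, g6, zsmul_eq_mul]; push_cast; ring)

theorem s189 : mo (2, 0, 0, 4, 0, 0) ∈ V :=
  mem_of 1 (by decide) (x := (1 : ℤ) • (mo (0, 0, 0, 2, 0, 0) * (g 1 * g 1)))
    (zs (1) (gg 1 1 (0, 0, 0, 2, 0, 0)))
    (by simp only [mo, g1, zsmul_eq_mul]; push_cast; ring)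

theorem s190 : mo (3, 1, 0, 2, 0, 0) ∈ V :=
  mem_of 1 (by decide) (x := (1 : ℤ) • (mo (1, 1, 0, 0, 0, 0) * (g 1 * g 1)))
    (zs (1) (gg 1 1 (1, 1, 0, 0, 0, 0)))
    (by simp only [mo, g1, zsmul_eq_mul]; push_cast; ring)

theorem s191 : mo (0, 2, 3, 0, 0, 0) ∈ V :=
  mem_of 1 (by decide) (x := (1 : ℤ) • (mo (0, 0, 1, 0, 0, 0) * (g 4 * g 4)))
    (zs (1) (gg 4 4 (0, 0, 1, 0, 0, 0)))
    (by simp only [mo, g4, zsmul_eq_mul]; push_cast; ring)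

theorem s192 : mo (0, 2, 1, 0, 1, 1) ∈ V :=
  mem_of 1 (by decide) (x := (1 : ℤ) • mo (0, 2, 3, 0, 0, 0)
      + (-1 : ℤ) • (mo (0, 0, 1, 0, 0, 0) * (g 3 * g 12)))
    (add_mem (zs (1) s191)
      (zs (-1) (gg 3 12 (0, 0, 1, 0, 0, 0))))
    (by simp only [mo, g3, g12, zsmul_eq_mul]; push_cast; ring)

theorem s193 : mo (0, 2, 0, 2, 1, 0) ∈ V :=
  mem_of 1 (by decide) (x := (1 : ℤ) • mo (0, 2, 1, 0, 1, 1)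
      + (-1 : ℤ) • (mo (0, 0, 0, 0, 1, 0) * (g 3 * g 13)))
    (add_mem (zs (1) s192)
      (zs (-1) (gg 3 13 (0, 0, 0, 0, 1, 0))))
    (by simp only [mo, g3, g13, zsmul_eq_mul]; push_cast; ring)

theorem s194 : mo (4, 2, 0, 0, 0, 0) ∈ V :=
  mem_of 1 (by decide) (x := (2 : ℤ) • mo (3, 1, 0, 2, 0, 0)
      + (-1 : ℤ) • mo (2, 0, 0, 4, 0, 0)
      + (1 : ℤ) • (mo (2, 0, 0, 0, 0, 0) * (g 8 * g 8)))
    (add_mem (add_mem (zs (2) s190)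
      (zs (-1) s189))
      (zs (1) (gg 8 8 (2, 0, 0, 0, 0, 0))))
    (by simp only [mo, g8, zsmul_eq_mul]; push_cast; ring)

theorem s195 : mo (1, 3, 0, 0, 1, 0) ∈ V :=
  mem_of 1 (by decide) (x := (1 : ℤ) • mo (4, 2, 0, 0, 0, 0)
      + (1 : ℤ) • mo (0, 2, 0, 2, 1, 0)
      + (-1 : ℤ) • mo (3, 1, 0, 2, 0, 0)
      + (1 : ℤ) • (mo (0, 1, 0, 0, 0, 0) * (g 8 * g 14)))
    (add_mem (add_mem (add_mem (zs (1) s194)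
      (zs (1) s193))
      (zs (-1) s190))
      (zs (1) (gg 8 14 (0, 1, 0, 0, 0, 0))))
    (by simp only [mo, g8, g14, zsmul_eq_mul]; push_cast; ring)

/-- The other monomials that are shown to be in `V`. -/
def U : List (ℕ × ℕ × ℕ × ℕ × ℕ × ℕ) :=
  [
   (2, 0, 0, 0, 0, 2), (2, 0, 0, 1, 0, 1), (2, 0, 1, 0, 0, 1), (2, 0, 0, 2, 0, 0),
   (2, 0, 1, 1, 0, 0), (1, 0, 0, 0, 0, 3), (2, 0, 2, 0, 0, 0), (1, 0, 0, 1, 0, 2),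
   (2, 0, 0, 0, 1, 1), (1, 0, 1, 0, 0, 2), (1, 0, 0, 2, 0, 1), (2, 0, 0, 1, 1, 0),
   (2, 1, 0, 0, 0, 1), (1, 0, 1, 1, 0, 1), (0, 0, 0, 0, 0, 4), (2, 0, 1, 0, 1, 0),
   (1, 0, 0, 3, 0, 0), (2, 1, 0, 1, 0, 0), (1, 0, 1, 2, 0, 0), (2, 1, 1, 0, 0, 0),
   (1, 0, 2, 0, 0, 1), (1, 0, 0, 0, 1, 2), (0, 0, 0, 1, 0, 3), (1, 0, 2, 1, 0, 0),
   (1, 0, 0, 1, 1, 1), (1, 1, 0, 0, 0, 2), (0, 0, 0, 2, 0, 2), (0, 0, 1, 0, 0, 3),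
   (2, 0, 0, 0, 2, 0), (0, 0, 1, 1, 0, 2), (1, 1, 0, 1, 0, 1), (1, 0, 1, 0, 1, 1),
   (0, 0, 0, 3, 0, 1), (1, 0, 0, 2, 1, 0), (1, 0, 3, 0, 0, 0), (1, 1, 1, 0, 0, 1),
   (1, 0, 1, 1, 1, 0), (1, 1, 0, 2, 0, 0), (0, 0, 1, 2, 0, 1), (0, 0, 0, 4, 0, 0),
   (2, 2, 0, 0, 0, 0), (0, 0, 2, 0, 0, 2), (0, 0, 0, 0, 1, 3), (1, 1, 1, 1, 0, 0),
   (1, 0, 0, 0, 2, 1), (1, 0, 2, 0, 1, 0), (0, 0, 1, 3, 0, 0), (0, 0, 2, 1, 0, 1),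
   (0, 0, 0, 1, 1, 2), (0, 1, 0, 0, 0, 3), (1, 1, 2, 0, 0, 0), (1, 0, 0, 1, 2, 0),
   (0, 0, 2, 2, 0, 0), (4, 0, 0, 0, 0, 1), (0, 0, 0, 2, 1, 1), (0, 1, 0, 1, 0, 2),
   (0, 0, 1, 0, 1, 2), (0, 0, 3, 0, 0, 1), (1, 0, 1, 0, 2, 0), (1, 2, 0, 0, 0, 1),
   (0, 1, 1, 0, 0, 2), (4, 0, 0, 1, 0, 0), (0, 0, 1, 1, 1, 1), (0, 1, 0, 2, 0, 1),
   (0, 0, 0, 3, 1, 0), (0, 0, 3, 1, 0, 0), (1, 2, 0, 1, 0, 0), (0, 0, 0, 0, 2, 2),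
   (4, 0, 1, 0, 0, 0), (0, 1, 1, 1, 0, 1), (0, 0, 1, 2, 1, 0), (0, 1, 0, 3, 0, 0),
   (0, 0, 2, 0, 1, 1), (0, 0, 4, 0, 0, 0), (1, 2, 1, 0, 0, 0), (3, 0, 0, 0, 0, 2),
   (0, 1, 1, 2, 0, 0), (0, 1, 2, 0, 0, 1), (0, 0, 2, 1, 1, 0), (0, 1, 0, 0, 1, 2),
   (0, 0, 0, 1, 2, 1), (1, 0, 0, 0, 3, 0), (3, 0, 0, 1, 0, 1), (0, 2, 0, 0, 0, 2),
   (0, 1, 2, 1, 0, 0), (0, 0, 0, 2, 2, 0), (0, 0, 1, 0, 2, 1), (0, 1, 0, 1, 1, 1),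
   (4, 0, 0, 0, 1, 0), (0, 0, 3, 0, 1, 0), (3, 0, 1, 0, 0, 1), (3, 0, 0, 2, 0, 0),
   (0, 0, 1, 1, 2, 0), (0, 2, 0, 1, 0, 1), (0, 1, 0, 2, 1, 0), (0, 1, 3, 0, 0, 0),
   (4, 1, 0, 0, 0, 0), (0, 1, 1, 0, 1, 1), (3, 0, 1, 1, 0, 0), (0, 1, 1, 1, 1, 0),
   (0, 2, 1, 0, 0, 1), (0, 2, 0, 2, 0, 0), (0, 0, 2, 0, 2, 0), (1, 3, 0, 0, 0, 0),
   (0, 0, 0, 0, 3, 1), (3, 0, 2, 0, 0, 0), (2, 0, 0, 1, 0, 2), (0, 2, 1, 1, 0, 0),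
   (3, 0, 0, 0, 1, 1), (0, 1, 2, 0, 1, 0), (0, 1, 0, 0, 2, 1), (0, 0, 0, 1, 3, 0),
   (2, 0, 0, 2, 0, 1), (0, 2, 2, 0, 0, 0), (3, 0, 0, 1, 1, 0), (3, 1, 0, 0, 0, 1),
   (0, 2, 0, 0, 1, 1), (0, 1, 0, 1, 2, 0), (0, 0, 1, 0, 3, 0), (2, 0, 1, 1, 0, 1),
   (2, 0, 0, 3, 0, 0), (0, 1, 1, 0, 2, 0), (3, 0, 1, 0, 1, 0), (3, 1, 0, 1, 0, 0),
   (0, 2, 0, 1, 1, 0), (0, 3, 0, 0, 0, 1), (2, 0, 1, 2, 0, 0), (0, 0, 0, 0, 4, 0),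
   (3, 1, 1, 0, 0, 0), (0, 2, 1, 0, 1, 0), (0, 3, 0, 1, 0, 0), (2, 0, 0, 1, 1, 1),
   (1, 0, 0, 2, 0, 2), (0, 3, 1, 0, 0, 0), (3, 0, 0, 0, 2, 0), (0, 1, 0, 0, 3, 0),
   (2, 0, 0, 2, 1, 0), (2, 1, 0, 1, 0, 1), (0, 2, 0, 0, 2, 0), (1, 0, 0, 3, 0, 1),
   (3, 1, 0, 0, 1, 0), (6, 0, 0, 0, 0, 0), (2, 1, 0, 2, 0, 0), (1, 0, 0, 4, 0, 0),
   (3, 2, 0, 0, 0, 0), (0, 3, 0, 0, 1, 0), (0, 4, 0, 0, 0, 0), (2, 0, 0, 1, 2, 0),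
   (1, 0, 0, 2, 1, 1), (2, 1, 0, 0, 1, 1), (5, 0, 0, 0, 0, 1), (2, 2, 0, 0, 0, 1),
   (1, 0, 1, 1, 1, 1), (1, 1, 0, 2, 0, 1), (1, 0, 0, 3, 1, 0), (0, 0, 0, 4, 0, 1),
   (2, 1, 0, 1, 1, 0), (5, 0, 0, 1, 0, 0), (1, 0, 1, 2, 1, 0), (2, 1, 1, 0, 1, 0),
   (5, 0, 1, 0, 0, 0), (1, 0, 0, 1, 2, 1), (1, 1, 0, 0, 1, 2), (4, 0, 0, 1, 0, 1),
   (1, 0, 0, 2, 2, 0), (1, 1, 0, 1, 1, 1), (2, 1, 0, 0, 2, 0), (5, 0, 0, 0, 1, 0),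
   (1, 0, 1, 1, 2, 0), (4, 0, 0, 2, 0, 0), (1, 2, 0, 1, 0, 1), (1, 1, 1, 0, 1, 1),
   (1, 1, 0, 2, 1, 0), (2, 2, 0, 0, 1, 0), (5, 1, 0, 0, 0, 0), (1, 1, 1, 1, 1, 0),
   (1, 1, 2, 0, 1, 0), (1, 1, 0, 0, 2, 1), (1, 1, 0, 1, 2, 0), (1, 2, 0, 0, 1, 1),
   (1, 1, 1, 0, 2, 0), (1, 2, 0, 1, 1, 0), (1, 2, 1, 0, 1, 0), (0, 2, 0, 0, 1, 2),
   (0, 2, 2, 0, 0, 1), (0, 1, 2, 1, 1, 0), (0, 1, 0, 1, 2, 1), (1, 1, 0, 0, 3, 0),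
   (1, 2, 0, 0, 2, 0), (2, 0, 0, 4, 0, 0), (3, 1, 0, 2, 0, 0), (0, 2, 3, 0, 0, 0),
   (0, 2, 1, 0, 1, 1), (0, 2, 0, 2, 1, 0), (4, 2, 0, 0, 0, 0), (1, 3, 0, 0, 1, 0)]

theorem um : ∀ t ∈ U, mo t ∈ V := by
  rw [← List.forall_iff_forall_mem]
  exact ⟨s0, s1, s2, s3, s4, s5, s6, s7, s8, s9, s10, s11,
    s12, s13, s14, s15, s16, s17, s18, s19, s20, s21, s22, s23,
    s24, s25, s26, s27, s28, s29, s30, s31, s32, s33, s34, s35,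
    s36, s37, s38, s39, s40, s41, s42, s43, s44, s45, s46, s47,
    s48, s49, s50, s51, s52, s53, s54, s55, s56, s57, s58, s59,
    s60, s61, s62, s63, s64, s65, s66, s67, s68, s69, s70, s71,
    s72, s73, s74, s75, s76, s77, s78, s79, s80, s81, s82, s83,
    s84, s85, s86, s87, s88, s89, s90, s91, s92, s93, s94, s95,
    s96, s97, s98, s99, s100, s101, s102, s103, s104, s105, s106, s107,
    s108, s109, s110, s111, s112, s113, s114, s115, s116, s117, s118, s119,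
    s120, s121, s122, s123, s124, s125, s126, s127, s128, s129, s130, s131,
    s132, s133, s134, s135, s136, s137, s138, s139, s140, s141, s142, s143,
    s144, s145, s146, s147, s148, s149, s150, s151, s152, s153, s154, s155,
    s156, s157, s158, s159, s160, s161, s162, s163, s164, s165, s166, s167,
    s168, s169, s170, s171, s172, s173, s174, s175, s176, s177, s178, s179,
    s180, s181, s182, s183, s184, s185, s186, s187, s188, s189, s190, s191,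
    s192, s193, s194, s195⟩


end Pool.Agent.H750R2.Smo.T5
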