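import Pool.Agent.H750R2.Smo.Defs2
import Pool.Agent.H750R2.Smo.T3

/-! T9: the quotient by the apolar ideal has dimension at most 15 (helper409) -/

open MvPolynomial Module

namespace Pool.Agent.H750R2.Smo.T9

section
variable {A : Type} [CommRing A]

/-- the fifteen relations -/
structure Rel (x : Fin 6 → A) : Prop where
  r0 : x 0 * x 2 = 0
  r1 : x 0 * x 3 = 0
  r2 : x 0 * x 5 = 0
  r3 : x 1 ^ 2 = 0
  r4 : x 1 * x 2 = 0
  r5 : x 2 * x 3 = 0
  r6 : x 4 ^ 2 = 0
  r7 : x 5 ^ 2 = 0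
  r8 : x 0 * x 1 = x 3 ^ 2
  r9 : x 0 * x 4 = x 3 * x 5
  r10 : x 1 * x 3 = x 2 * x 4
  r11 : x 1 * x 5 = x 3 * x 4
  r12 : x 2 ^ 2 = x 4 * x 5
  r13 : x 2 * x 5 = x 3 ^ 2
  r14 : x 1 * x 4 = x 0 ^ 3

/-- the fifteen monomials -/
def B (x : Fin 6 → A) : Fin 15 → A :=
  ![1, x 0, x 1, x 2, x 3, x 4, x 5, x 0 ^ 2, x 3 ^ 2, x 3 * x 5, x 2 * x 4, x 4 * x 5, x 3 * x 4, x 0 ^ 3, x 0 ^ 4]

theorem c0 (x : Fin 6 → A) (h : Rel x) (i : Fin 6) :
    B x 0 * x i = 0 ∨ ∃ l, B x 0 * x i = B x l := by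
  have e : B x 0 = 1 := rfl
  rw [e]
  fin_cases i
  · right
    refine ⟨1, ?_⟩
    show (1) * x 0 = x 0
    linear_combination 0
  · right
    refine ⟨2, ?_⟩
    show (1) * x 1 = x 1
    linear_combination 0
  · right
    refine ⟨3, ?_⟩
    show (1) * x 2 = x 2
    linear_combination 0
  · right
    refine ⟨4, ?_⟩
    show (1) * x 3 = x 3
    linear_combination 0
  · right
    refine ⟨5, ?_⟩
    show (1) * x 4 = x 4
    linear_combination 0
  · right
    refine ⟨6, ?_⟩
    show (1) * x 5 = x 5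
    linear_combination 0

theorem c1 (x : Fin 6 → A) (h : Rel x) (i : Fin 6) :
    B x 1 * x i = 0 ∨ ∃ l, B x 1 * x i = B x l := by
  have e : B x 1 = x 0 := rfl
  rw [e]
  fin_cases i
  · right
    refine ⟨7, ?_⟩
    show (x 0) * x 0 = x 0 ^ 2
    linear_combination 0
  · right
    refine ⟨8, ?_⟩
    show (x 0) * x 1 = x 3 ^ 2
    linear_combination (1) * h.r8
  · left
    show (x 0) * x 2 = 0
    linear_combination (1) * h.r0
  · left
    show (x 0) * x 3 = 0
    linear_combination (1) * h.r1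
  · right
    refine ⟨9, ?_⟩
    show (x 0) * x 4 = x 3 * x 5
    linear_combination (1) * h.r9
  · left
    show (x 0) * x 5 = 0
    linear_combination (1) * h.r2

theorem c2 (x : Fin 6 → A) (h : Rel x) (i : Fin 6) :
    B x 2 * x i = 0 ∨ ∃ l, B x 2 * x i = B x l := by
  have e : B x 2 = x 1 := rfl
  rw [e]
  fin_cases i
  · right
    refine ⟨8, ?_⟩
    show (x 1) * x 0 = x 3 ^ 2
    linear_combination (1) * h.r8
  · left
    show (x 1) * x 1 = 0
    linear_combination (1) * h.r3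
  · left
    show (x 1) * x 2 = 0
    linear_combination (1) * h.r4
  · right
    refine ⟨10, ?_⟩
    show (x 1) * x 3 = x 2 * x 4
    linear_combination (1) * h.r10
  · right
    refine ⟨13, ?_⟩
    show (x 1) * x 4 = x 0 ^ 3
    linear_combination (1) * h.r14
  · right
    refine ⟨12, ?_⟩
    show (x 1) * x 5 = x 3 * x 4
    linear_combination (1) * h.r11

theorem c3 (x : Fin 6 → A) (h : Rel x) (i : Fin 6) :
    B x 3 * x i = 0 ∨ ∃ l, B x 3 * x i = B x l := by
  have e : B x 3 = x 2 := rfl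
  rw [e]
  fin_cases i
  · left
    show (x 2) * x 0 = 0
    linear_combination (1) * h.r0
  · left
    show (x 2) * x 1 = 0
    linear_combination (1) * h.r4
  · right
    refine ⟨11, ?_⟩
    show (x 2) * x 2 = x 4 * x 5
    linear_combination (1) * h.r12
  · left
    show (x 2) * x 3 = 0
    linear_combination (1) * h.r5
  · right
    refine ⟨10, ?_⟩
    show (x 2) * x 4 = x 2 * x 4
    linear_combination 0
  · right
    refine ⟨8, ?_⟩
    show (x 2) * x 5 = x 3 ^ 2
    linear_combination (1) * h.r13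

theorem c4 (x : Fin 6 → A) (h : Rel x) (i : Fin 6) :
    B x 4 * x i = 0 ∨ ∃ l, B x 4 * x i = B x l := by
  have e : B x 4 = x 3 := rfl
  rw [e]
  fin_cases i
  · left
    show (x 3) * x 0 = 0
    linear_combination (1) * h.r1
  · right
    refine ⟨10, ?_⟩
    show (x 3) * x 1 = x 2 * x 4
    linear_combination (1) * h.r10
  · left
    show (x 3) * x 2 = 0
    linear_combination (1) * h.r5
  · right
    refine ⟨8, ?_⟩
    show (x 3) * x 3 = x 3 ^ 2
    linear_combination 0
  · right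
    refine ⟨12, ?_⟩
    show (x 3) * x 4 = x 3 * x 4
    linear_combination 0
  · right
    refine ⟨9, ?_⟩
    show (x 3) * x 5 = x 3 * x 5
    linear_combination 0

theorem c5 (x : Fin 6 → A) (h : Rel x) (i : Fin 6) :
    B x 5 * x i = 0 ∨ ∃ l, B x 5 * x i = B x l := by
  have e : B x 5 = x 4 := rfl
  rw [e]
  fin_cases i
  · right
    refine ⟨9, ?_⟩
    show (x 4) * x 0 = x 3 * x 5
    linear_combination (1) * h.r9
  · right
    refine ⟨13, ?_⟩
    show (x 4) * x 1 = x 0 ^ 3
    linear_combination (1) * h.r14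
  · right
    refine ⟨10, ?_⟩
    show (x 4) * x 2 = x 2 * x 4
    linear_combination 0
  · right
    refine ⟨12, ?_⟩
    show (x 4) * x 3 = x 3 * x 4
    linear_combination 0
  · left
    show (x 4) * x 4 = 0
    linear_combination (1) * h.r6
  · right
    refine ⟨11, ?_⟩
    show (x 4) * x 5 = x 4 * x 5
    linear_combination 0

theorem c6 (x : Fin 6 → A) (h : Rel x) (i : Fin 6) :
    B x 6 * x i = 0 ∨ ∃ l, B x 6 * x i = B x l := by
  have e : B x 6 = x 5 := rfl
  rw [e]
  fin_cases i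
  · left
    show (x 5) * x 0 = 0
    linear_combination (1) * h.r2
  · right
    refine ⟨12, ?_⟩
    show (x 5) * x 1 = x 3 * x 4
    linear_combination (1) * h.r11
  · right
    refine ⟨8, ?_⟩
    show (x 5) * x 2 = x 3 ^ 2
    linear_combination (1) * h.r13
  · right
    refine ⟨9, ?_⟩
    show (x 5) * x 3 = x 3 * x 5
    linear_combination 0
  · right
    refine ⟨11, ?_⟩
    show (x 5) * x 4 = x 4 * x 5
    linear_combination 0
  · left
    show (x 5) * x 5 = 0
    linear_combination (1) * h.r7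

theorem c7 (x : Fin 6 → A) (h : Rel x) (i : Fin 6) :
    B x 7 * x i = 0 ∨ ∃ l, B x 7 * x i = B x l := by
  have e : B x 7 = x 0 ^ 2 := rfl
  rw [e]
  fin_cases i
  · right
    refine ⟨13, ?_⟩
    show (x 0 ^ 2) * x 0 = x 0 ^ 3
    linear_combination 0
  · left
    show (x 0 ^ 2) * x 1 = 0
    linear_combination (x 0) * h.r8 + (x 3) * h.r1
  · left
    show (x 0 ^ 2) * x 2 = 0
    linear_combination (x 0) * h.r0
  · left
    show (x 0 ^ 2) * x 3 = 0
    linear_combination (x 0) * h.r1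
  · left
    show (x 0 ^ 2) * x 4 = 0
    linear_combination (x 0) * h.r9 + (x 5) * h.r1
  · left
    show (x 0 ^ 2) * x 5 = 0
    linear_combination (x 0) * h.r2

theorem c8 (x : Fin 6 → A) (h : Rel x) (i : Fin 6) :
    B x 8 * x i = 0 ∨ ∃ l, B x 8 * x i = B x l := by
  have e : B x 8 = x 3 ^ 2 := rfl
  rw [e]
  fin_cases i
  · left
    show (x 3 ^ 2) * x 0 = 0
    linear_combination (x 3) * h.r1
  · left
    show (x 3 ^ 2) * x 1 = 0
    linear_combination - (x 1) * h.r8 + (x 0) * h.r3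
  · left
    show (x 3 ^ 2) * x 2 = 0
    linear_combination (x 3) * h.r5
  · left
    show (x 3 ^ 2) * x 3 = 0
    linear_combination - (x 3) * h.r8 + (x 1) * h.r1
  · right
    refine ⟨14, ?_⟩
    show (x 3 ^ 2) * x 4 = x 0 ^ 4
    linear_combination - (x 4) * h.r8 + (x 0) * h.r14
  · left
    show (x 3 ^ 2) * x 5 = 0
    linear_combination - (x 5) * h.r8 + (x 1) * h.r2

theorem c9 (x : Fin 6 → A) (h : Rel x) (i : Fin 6) :
    B x 9 * x i = 0 ∨ ∃ l, B x 9 * x i = B x l := by
  have e : B x 9 = x 3 * x 5 := rfl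
  rw [e]
  fin_cases i
  · left
    show (x 3 * x 5) * x 0 = 0
    linear_combination (x 5) * h.r1
  · right
    refine ⟨14, ?_⟩
    show (x 3 * x 5) * x 1 = x 0 ^ 4
    linear_combination - (x 1) * h.r9 + (x 0) * h.r14
  · left
    show (x 3 * x 5) * x 2 = 0
    linear_combination (x 5) * h.r5
  · left
    show (x 3 * x 5) * x 3 = 0
    linear_combination - (x 5) * h.r8 + (x 1) * h.r2
  · left
    show (x 3 * x 5) * x 4 = 0
    linear_combination - (x 4) * h.r9 + (x 0) * h.r6
  · left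
    show (x 3 * x 5) * x 5 = 0
    linear_combination (x 3) * h.r7

theorem c10 (x : Fin 6 → A) (h : Rel x) (i : Fin 6) :
    B x 10 * x i = 0 ∨ ∃ l, B x 10 * x i = B x l := by
  have e : B x 10 = x 2 * x 4 := rfl
  rw [e]
  fin_cases i
  · left
    show (x 2 * x 4) * x 0 = 0
    linear_combination (x 4) * h.r0
  · left
    show (x 2 * x 4) * x 1 = 0
    linear_combination (x 4) * h.r4
  · left
    show (x 2 * x 4) * x 2 = 0
    linear_combination - (x 2) * h.r10 + (x 3) * h.r4
  · left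
    show (x 2 * x 4) * x 3 = 0
    linear_combination (x 4) * h.r5
  · left
    show (x 2 * x 4) * x 4 = 0
    linear_combination (x 2) * h.r6
  · right
    refine ⟨14, ?_⟩
    show (x 2 * x 4) * x 5 = x 0 ^ 4
    linear_combination - (x 5) * h.r10 - (x 1) * h.r9 + (x 0) * h.r14

theorem c11 (x : Fin 6 → A) (h : Rel x) (i : Fin 6) :
    B x 11 * x i = 0 ∨ ∃ l, B x 11 * x i = B x l := by
  have e : B x 11 = x 4 * x 5 := rfl
  rw [e]
  fin_cases i
  · left
    show (x 4 * x 5) * x 0 = 0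
    linear_combination (x 4) * h.r2
  · left
    show (x 4 * x 5) * x 1 = 0
    linear_combination (x 4) * h.r11 + (x 3) * h.r6
  · right
    refine ⟨14, ?_⟩
    show (x 4 * x 5) * x 2 = x 0 ^ 4
    linear_combination - (x 5) * h.r10 - (x 1) * h.r9 + (x 0) * h.r14
  · left
    show (x 4 * x 5) * x 3 = 0
    linear_combination - (x 4) * h.r9 + (x 0) * h.r6
  · left
    show (x 4 * x 5) * x 4 = 0
    linear_combination (x 5) * h.r6
  · left
    show (x 4 * x 5) * x 5 = 0
    linear_combination (x 4) * h.r7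

theorem c12 (x : Fin 6 → A) (h : Rel x) (i : Fin 6) :
    B x 12 * x i = 0 ∨ ∃ l, B x 12 * x i = B x l := by
  have e : B x 12 = x 3 * x 4 := rfl
  rw [e]
  fin_cases i
  · left
    show (x 3 * x 4) * x 0 = 0
    linear_combination (x 4) * h.r1
  · left
    show (x 3 * x 4) * x 1 = 0
    linear_combination (x 4) * h.r10 + (x 2) * h.r6
  · left
    show (x 3 * x 4) * x 2 = 0
    linear_combination (x 4) * h.r5
  · right
    refine ⟨14, ?_⟩
    show (x 3 * x 4) * x 3 = x 0 ^ 4
    linear_combination - (x 4) * h.r8 + (x 0) * h.r14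
  · left
    show (x 3 * x 4) * x 4 = 0
    linear_combination (x 3) * h.r6
  · left
    show (x 3 * x 4) * x 5 = 0
    linear_combination - (x 4) * h.r9 + (x 0) * h.r6

theorem c13 (x : Fin 6 → A) (h : Rel x) (i : Fin 6) :
    B x 13 * x i = 0 ∨ ∃ l, B x 13 * x i = B x l := by
  have e : B x 13 = x 0 ^ 3 := rfl
  rw [e]
  fin_cases i
  · right
    refine ⟨14, ?_⟩
    show (x 0 ^ 3) * x 0 = x 0 ^ 4
    linear_combination 0
  · left
    show (x 0 ^ 3) * x 1 = 0
    linear_combination (x 0 ^ 2) * h.r8 + (x 0 * x 3) * h.r1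
  · left
    show (x 0 ^ 3) * x 2 = 0
    linear_combination (x 0 ^ 2) * h.r0
  · left
    show (x 0 ^ 3) * x 3 = 0
    linear_combination (x 0 ^ 2) * h.r1
  · left
    show (x 0 ^ 3) * x 4 = 0
    linear_combination (x 0 ^ 2) * h.r9 + (x 0 * x 5) * h.r1
  · left
    show (x 0 ^ 3) * x 5 = 0
    linear_combination (x 0 ^ 2) * h.r2

theorem c14 (x : Fin 6 → A) (h : Rel x) (i : Fin 6) :
    B x 14 * x i = 0 ∨ ∃ l, B x 14 * x i = B x l := by
  have e : B x 14 = x 0 ^ 4 := rfl
  rw [e]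
  fin_cases i
  · left
    show (x 0 ^ 4) * x 0 = 0
    linear_combination - (x 0 ^ 2) * h.r14 + (x 0 * x 4) * h.r8 + (x 3 * x 4) * h.r1
  · left
    show (x 0 ^ 4) * x 1 = 0
    linear_combination (x 0 ^ 3) * h.r8 + (x 0 ^ 2 * x 3) * h.r1
  · left
    show (x 0 ^ 4) * x 2 = 0
    linear_combination (x 0 ^ 3) * h.r0
  · left
    show (x 0 ^ 4) * x 3 = 0
    linear_combination (x 0 ^ 3) * h.r1
  · left
    show (x 0 ^ 4) * x 4 = 0
    linear_combination (x 0 ^ 3) * h.r9 + (x 0 ^ 2 * x 5) * h.r1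
  · left
    show (x 0 ^ 4) * x 5 = 0
    linear_combination (x 0 ^ 3) * h.r2

theorem closed (x : Fin 6 → A) (h : Rel x) (j : Fin 15) (i : Fin 6) :
    B x j * x i = 0 ∨ ∃ l, B x j * x i = B x l := by
  fin_cases j
  · exact c0 x h i
  · exact c1 x h i
  · exact c2 x h i
  · exact c3 x h i
  · exact c4 x h i
  · exact c5 x h i
  · exact c6 x h i
  · exact c7 x h i
  · exact c8 x h i
  · exact c9 x h i
  · exact c10 x h i
  · exact c11 x h i
  · exact c12 x h i
  · exact c13 x h i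
  · exact c14 x h i

end

/-- the classes of the variables -/
noncomputable def xx (i : Fin 6) : MvPolynomial (Fin 6) ℂ ⧸ annIdeal F :=
  Ideal.Quotient.mk (annIdeal F) (X i)

theorem mk_g (i : Fin 15) : Ideal.Quotient.mk (annIdeal F) (g i) = 0 :=
  Ideal.Quotient.eq_zero_iff_mem.2 (T3.g_mem i)

theorem rel : Rel xx := by
  constructor
  · have h := mk_g 0
    simpa [g, xx] using h
  · have h := mk_g 1
    simpa [g, xx] using h
  · have h := mk_g 2
    simpa [g, xx] using h
  · have h := mk_g 3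
    simpa [g, xx] using h
  · have h := mk_g 4
    simpa [g, xx] using h
  · have h := mk_g 5
    simpa [g, xx] using h
  · have h := mk_g 6
    simpa [g, xx] using h
  · have h := mk_g 7
    simpa [g, xx] using h
  · have h := mk_g 8
    have e : g 8 = X 0 * X 1 - X 3 ^ 2 := rfl
    rw [e, map_sub, sub_eq_zero] at h
    simpa [xx] using h
  · have h := mk_g 9
    have e : g 9 = X 0 * X 4 - X 3 * X 5 := rfl
    rw [e, map_sub, sub_eq_zero] at h
    simpa [xx] using h
  · have h := mk_g 10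
    have e : g 10 = X 1 * X 3 - X 2 * X 4 := rfl
    rw [e, map_sub, sub_eq_zero] at h
    simpa [xx] using h
  · have h := mk_g 11
    have e : g 11 = X 1 * X 5 - X 3 * X 4 := rfl
    rw [e, map_sub, sub_eq_zero] at h
    simpa [xx] using h
  · have h := mk_g 12
    have e : g 12 = X 2 ^ 2 - X 4 * X 5 := rfl
    rw [e, map_sub, sub_eq_zero] at h
    simpa [xx] using h
  · have h := mk_g 13
    have e : g 13 = X 2 * X 5 - X 3 ^ 2 := rfl
    rw [e, map_sub, sub_eq_zero] at h
    simpa [xx] using h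
  · have h := mk_g 14
    have e : g 14 = X 1 * X 4 - X 0 ^ 3 := rfl
    rw [e, map_sub, sub_eq_zero] at h
    simpa [xx] using h

/-- the span of the monomials -/
noncomputable def W : Submodule ℂ (MvPolynomial (Fin 6) ℂ ⧸ annIdeal F) :=
  Submodule.span ℂ (Set.range (B xx))

theorem W_mul (i : Fin 6) {p : MvPolynomial (Fin 6) ℂ ⧸ annIdeal F} (hp : p ∈ W) :
    p * xx i ∈ W := by
  unfold W at hp
  induction hp using Submodule.span_induction with
  | mem y hy =>
    obtain ⟨j, rfl⟩ := hy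
    rcases closed xx rel j i with h | ⟨l, h⟩
    · rw [h]
      exact W.zero_mem
    · rw [h]
      exact Submodule.subset_span ⟨l, rfl⟩
  | zero => rw [zero_mul]; exact W.zero_mem
  | add a b _ _ ha hb => rw [add_mul]; exact W.add_mem ha hb
  | smul c a _ ha => rw [smul_mul_assoc]; exact W.smul_mem c ha

theorem W_top : W = ⊤ := by
  rw [eq_top_iff]
  intro y _
  obtain ⟨p, rfl⟩ := Ideal.Quotient.mk_surjective y
  induction p using MvPolynomial.induction_on with
  | C a =>
    have h1 : (1 : MvPolynomial (Fin 6) ℂ ⧸ annIdeal F) ∈ W := Submodule.subset_span ⟨0, rfl⟩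
    have h2 := W.smul_mem a h1
    have h3 : Ideal.Quotient.mk (annIdeal F) (C a) =
        a • (1 : MvPolynomial (Fin 6) ℂ ⧸ annIdeal F) := by
      rw [← map_one (Ideal.Quotient.mk (annIdeal F))]
      rw [show a • Ideal.Quotient.mk (annIdeal F) 1 =
        Ideal.Quotient.mk (annIdeal F) (a • (1 : MvPolynomial (Fin 6) ℂ)) from rfl]
      rw [MvPolynomial.smul_eq_C_mul, mul_one]
    rw [h3]
    exact h2
  | add p q hp hq => rw [map_add]; exact W.add_mem (hp trivial) (hq trivial)
  | mul_X p i hp => rw [map_mul]; exact W_mul i (hp trivial)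

/-- T9. -/
theorem finrank_le : Module.Finite ℂ (MvPolynomial (Fin 6) ℂ ⧸ annIdeal F) ∧
    finrank ℂ (MvPolynomial (Fin 6) ℂ ⧸ annIdeal F) ≤ 15 := by
  have h1 : Submodule.span ℂ (Set.range (B xx)) = ⊤ := W_top
  have hfin : Module.Finite ℂ (MvPolynomial (Fin 6) ℂ ⧸ annIdeal F) :=
    ⟨⟨(Set.finite_range (B xx)).toFinset, by rw [Set.Finite.coe_toFinset]; exact h1⟩⟩
  refine ⟨hfin, ?_⟩
  have h2 := finrank_range_le_card (R := ℂ) (B xx)
  rw [Set.finrank, h1, finrank_top] at h2
  simpa using h2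

end Pool.Agent.H750R2.Smo.T9
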